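import Mathlib
import Pool.Agent.Helper827_ando.Cert

namespace Pool.Agent.Helper827_ando

/-- bit `u` of `S`, written with kernel-accelerated operations only -/
def tb (S u : Nat) : Bool := Nat.beq (Nat.land (Nat.shiftRight S u) 1) 1

/-- `a ≠ b` on booleans -/
def bx : Bool → Bool → Bool
  | true, true => false
  | true, false => true
  | false, true => true
  | false, false => false

/-- number of known vertices to the left, when `a` edges are known -/
def lo (a : Nat) : Nat := 2 * ((a + 1) / 2)
/-- number of known vertices to the right, when `a` edges are known -/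
def hi (a : Nat) : Nat := 2 * (a / 2)

/-- the bits of `S` at positions `start, …, start + n - 1`, passed in evaluated form -/
def bitsK (S : Nat) : Nat → Nat → (List Bool → Bool) → Bool
  | _, 0, k => k []
  | start, n+1, k => match tb S start with
    | true => bitsK S (start+1) n (fun l => k (true :: l))
    | false => bitsK S (start+1) n (fun l => k (false :: l))

def scan : Nat → List Bool → Nat → Nat → Nat → Nat → (Nat → Nat → Nat → Nat → Bool) → Bool
  | n+1, a :: b :: c :: d :: e :: t, pt, pf, qt, qf, k =>
    match a, b, c, d, e with
    | true, true, true, true, true => false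
    | false, false, false, false, false => false
    | false, true, true, true, false => scan n (b :: c :: d :: e :: t) (pt+1) pf qt qf k
    | true, false, false, false, true => scan n (b :: c :: d :: e :: t) pt (pf+1) qt qf k
    | false, true, true, true, true => match t with
      | false :: _ => scan n (b :: c :: d :: e :: t) pt pf (qt+1) qf k
      | _ => scan n (b :: c :: d :: e :: t) pt pf qt qf k
    | true, false, false, false, false => match t with
      | true :: _ => scan n (b :: c :: d :: e :: t) pt pf qt (qf+1) k
      | _ => scan n (b :: c :: d :: e :: t) pt pf qt qf k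
    | _, _, _, _, _ => scan n (b :: c :: d :: e :: t) pt pf qt qf k
  | _, _, pt, pf, qt, qf, k => k pt pf qt qf

/-- are the first two entries different -/
def headNe : List Bool → Bool
  | a :: b :: _ => bx a b
  | _ => false

def lastNe : List Bool → Bool
  | [] => false
  | [_] => false
  | [a, b] => bx a b
  | _ :: b :: c :: t => lastNe (b :: c :: t)

/-- append the first five entries of the infinite repetition -/
def ext5 : List Bool → List Bool
  | a :: b :: c :: d :: e :: t => (a :: b :: c :: d :: e :: t) ++ [a, b, c, d, e]
  | [a, b, c] => [a, b, c, a, b, c, a, b]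
  | l => l

def arcsOK (S : Nat) : List (Nat × Nat) → Bool
  | [] => true
  | (u, v) :: t => match bx (tb S u) (tb S v) with
    | true => arcsOK S t
    | false => false

/-- list of colours used for the windows of a cycle, closed or not -/
def extC (c : Bool) (s : List Bool) : List Bool :=
  match c with
  | true => ext5 s
  | false => s

def and4 (a b c d x : Bool) : Bool :=
  match a, b, c, d with
  | true, true, true, true => x
  | _, _, _, _ => false

def and2 (a b x : Bool) : Bool :=
  match a, b with
  | true, true => x
  | _, _ => false

def leafOK (arcs : List (Nat × Nat)) (a1 : Nat) (c1 : Bool) (a2 : Nat) (c2 : Bool) (S : Nat) : Bool :=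
  and4 (c1 || Nat.ble 2 a1) (c2 || Nat.ble 2 a2) (bx (tb S 16) (tb S 48)) (arcsOK S arcs)
    (bitsK S (16 - lo a1) (2 * a1 + 1) (fun s1 =>
      bitsK S (48 - lo a2) (2 * a2 + 1) (fun s2 =>
        and2 (c1 || (headNe s1 && lastNe s1)) (c2 || (headNe s2 && lastNe s2))
          (scan (2 * a1 + 1) (extC c1 s1) 0 0 0 0
            (fun pt pf qt qf =>
              scan (2 * a2 + 1) (extC c2 s2) pt pf qt qf
                (fun pt pf qt qf => Nat.beq pt pf && Nat.beq qt qf))))))

def covered (w u : Nat) : List Nat → Bool
  | [] => false
  | S :: t => match bx (tb S u) (tb S w) with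
    | true => true
    | false => covered w u t

/-- the uncovered ways to place the new edge `w w'` on the arcs -/
def kids (w w' : Nat) (Ss : List Nat) : List (Nat × Nat) → List (List (Nat × Nat))
  | [] => []
  | (u, v) :: t =>
    match covered w u Ss, covered w v Ss with
    | true, true => (kids w w' Ss t).map (fun r => (u, v) :: r)
    | true, false => ((u, w') :: (w, v) :: t) :: (kids w w' Ss t).map (fun r => (u, v) :: r)
    | false, true => ((u, w) :: (w', v) :: t) :: (kids w w' Ss t).map (fun r => (u, v) :: r)
    | false, false => ((u, w) :: (w', v) :: t) :: ((u, w') :: (w, v) :: t) ::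
        (kids w w' Ss t).map (fun r => (u, v) :: r)

/-- new edge of a cycle centred at `o` with `a` known edges, and `a + 1` -/
def newEdge (o : Nat) : Nat → Nat × Nat × Nat
  | 0 => (o - 1, o - 2, 1)
  | 1 => (o + 1, o + 2, 2)
  | 2 => (o - 3, o - 4, 3)
  | 3 => (o + 3, o + 4, 4)
  | 4 => (o - 5, o - 6, 5)
  | 5 => (o + 5, o + 6, 6)
  | 6 => (o - 7, o - 8, 7)
  | 7 => (o + 7, o + 8, 8)
  | 8 => (o - 9, o - 10, 9)
  | _ => (o + 9, o + 10, 10)

/-- which cycle is extended next: `1`, `2` or `0` (none) -/
def nextCyc (a1 : Nat) (c1 : Bool) (a2 : Nat) (c2 : Bool) : Nat :=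
  match c1, c2, Nat.ble (a1 / 2) (a2 / 2) with
  | false, true, _ => 1
  | false, false, true => 1
  | _, false, _ => 2
  | _, _, _ => 0

def allLeaf (arcs : List (Nat × Nat)) (a1 : Nat) (c1 : Bool) (a2 : Nat) (c2 : Bool) : List Nat → Bool
  | [] => true
  | S :: t => match leafOK arcs a1 c1 a2 c2 S with
    | true => allLeaf arcs a1 c1 a2 c2 t
    | false => false

/-- split off the first `r` entries -/
def takeK : Nat → List Nat → (List Nat → List Nat → Option (List Nat)) → Option (List Nat)
  | 0, l, k => k [] l
  | _+1, [], _ => none
  | r+1, a :: l, k => takeK r l (fun p q => k (a :: p) q)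

/-- run `f` through a list of children, threading the certificate -/
def thread (f : List (Nat × Nat) → List Nat → Option (List Nat)) :
    List (List (Nat × Nat)) → List Nat → Option (List Nat)
  | [], r => some r
  | ch :: t, r => match f ch r with
    | none => none
    | some r' => thread f t r'

/-- `x` if `a` is positive, `some r` otherwise -/
def orSkip (a : Nat) (r : List Nat) (x : Option (List Nat)) : Option (List Nat) :=
  match a with
  | 0 => some r
  | _+1 => x

/-- add `c` in front if `r = 0` -/
def addNew (r : Nat) (c : List (Nat × Nat)) (l : List (List (Nat × Nat))) :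
    List (List (Nat × Nat)) :=
  match r with
  | 0 => c :: l
  | _+1 => l

def bindO (x : Option (List Nat)) (k : List Nat → Option (List Nat)) : Option (List Nat) :=
  match x with
  | none => none
  | some r => k r

def guardB (b : Bool) (x : Option (List Nat)) : Option (List Nat) :=
  match b with
  | false => none
  | true => x

def check : Nat → List (Nat × Nat) → Nat → Bool → Nat → Bool → List Nat → Option (List Nat)
  | 0, _, _, _, _, _, _ => none
  | _+1, _, _, _, _, _, [] => none
  | n+1, arcs, a1, c1, a2, c2, t :: rest =>
    match t with
    | 0 => match rest with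
      | [] => none
      | S :: rest' => guardB (leafOK arcs a1 c1 a2 c2 S) (some rest')
    | r+1 => takeK r rest (fun Ss rest1 =>
      match nextCyc a1 c1 a2 c2 with
      | 1 => match newEdge 16 a1 with
        | (w, w', a1') => guardB (Nat.ble a1 9) <|
          guardB (allLeaf ((w, w') :: arcs) a1' c1 a2 c2 Ss)
            (bindO (orSkip a1 rest1 (check n arcs a1 true a2 c2 rest1))
              (fun rest2 => thread (fun ch l => check n ch a1' c1 a2 c2 l)
                (addNew r ((w, w') :: arcs) (kids w w' Ss arcs)) rest2))
      | 2 => match newEdge 48 a2 with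
        | (w, w', a2') => guardB (Nat.ble a2 9) <|
          guardB (allLeaf ((w, w') :: arcs) a1 c1 a2' c2 Ss)
            (bindO (orSkip a2 rest1 (check n arcs a1 c1 a2 true rest1))
              (fun rest2 => thread (fun ch l => check n ch a1 c1 a2' c2 l)
                (addNew r ((w, w') :: arcs) (kids w w' Ss arcs)) rest2))
      | _ => none)

end Pool.Agent.Helper827_ando
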