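import Mathlib
import Pool.Agent.Helper827_ando.Check
set_option maxRecDepth 1000000
namespace Pool.Agent.Helper827_ando
theorem check_ok : check 20 [] 0 false 0 false cert = some [] := by
  decide +kernel
end Pool.Agent.Helper827_ando
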