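import Mathlib

namespace Pool.Agent.Helper827_ando

variable {V : Type*}

/-- `m` is a fixed point free involution of `K`, and every colouring which is bichromatic along `m`
extends from `K` to a colouring of `V` which is bichromatic along `μ`, and along `ν` outside `K`. -/
def Ext (μ ν : V → V) (K : Set V) (m : V → V) : Prop :=
  (∀ u ∈ K, m u ∈ K ∧ m u ≠ u ∧ m (m u) = u) ∧
  ∀ S : V → Bool, (∀ u ∈ K, S (m u) ≠ S u) →
    ∃ c : V → Bool, (∀ u ∈ K, c u = S u) ∧ (∀ x, c (μ x) ≠ c x) ∧ (∀ x, x ∉ K → c (ν x) ≠ c x)

/-- join the partners of `w` and `w'` -/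
def contract [DecidableEq V] (m : V → V) (w w' : V) (u : V) : V :=
  if m u = w then m w' else if m u = w' then m w else m u

theorem Ext.contract [DecidableEq V] {μ ν : V → V} {K : Set V} {m : V → V} {w w' : V}
    (h : Ext μ ν (insert w (insert w' K)) m) (hw : w ∉ K) (hw' : w' ∉ K) (hne : w ≠ w')
    (hν : ν w = w') (hν' : ν w' = w) : Ext μ ν K (contract m w w') := by
  obtain ⟨h1, h2⟩ := h
  have hmw := h1 w (by simp)
  have hmw' := h1 w' (by simp)
  have key : ∀ u ∈ K, m u = w ∨ m u = w' ∨ (m u ∈ K ∧ m u ≠ w ∧ m u ≠ w') := by
    intro u hu
    have := (h1 u (by simp [hu])).1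
    simp only [Set.mem_insert_iff] at this
    rcases this with h | h | h
    · exact Or.inl h
    · exact Or.inr (Or.inl h)
    · refine Or.inr (Or.inr ⟨h, ?_, ?_⟩)
      · rintro rfl; exact hw h
      · rintro rfl; exact hw' h
  have inv : ∀ u ∈ K, m (m u) = u := fun u hu => (h1 u (by simp [hu])).2.2
  have ww' : ∀ u ∈ K, m u = w → m w = u := fun u hu h => by rw [← h]; exact inv u hu
  have w'w : ∀ u ∈ K, m u = w' → m w' = u := fun u hu h => by rw [← h]; exact inv u hu
  -- if some u in K maps to w then m w' ∈ K
  have hmemw' : m w ∈ K → m w' ∈ K ∧ m w' ≠ w ∧ m w' ≠ w' := by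
    intro hK
    have h3 := hmw'.1
    simp only [Set.mem_insert_iff] at h3
    rcases h3 with h | h | h
    · exfalso
      have : m w = w' := by rw [← h]; exact hmw'.2.2
      rw [this] at hK; exact hw' hK
    · exact absurd h hmw'.2.1
    · exact ⟨h, fun e => hw (e ▸ h), fun e => hw' (e ▸ h)⟩
  have hmemw : m w' ∈ K → m w ∈ K ∧ m w ≠ w ∧ m w ≠ w' := by
    intro hK
    have h3 := hmw.1
    simp only [Set.mem_insert_iff] at h3
    rcases h3 with h | h | h
    · exact absurd h hmw.2.1
    · exfalso
      have : m w' = w := by rw [← h]; exact hmw.2.2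
      rw [this] at hK; exact hw hK
    · exact ⟨h, fun e => hw (e ▸ h), fun e => hw' (e ▸ h)⟩
  constructor
  · intro u hu
    unfold Pool.Agent.Helper827_ando.contract
    rcases key u hu with h | h | ⟨h, h', h''⟩
    · have hwu := ww' u hu h
      obtain ⟨ha, hb, hc⟩ := hmemw' (hwu ▸ hu)
      rw [if_pos h]
      refine ⟨ha, ?_, ?_⟩
      · intro e
        have : m (m w') = m u := by rw [e]
        rw [hmw'.2.2, h] at this
        exact hne this.symm
      · rw [hmw'.2.2, if_neg hne.symm, if_pos rfl]; exact hwu
    · have hwu := w'w u hu h
      obtain ⟨ha, hb, hc⟩ := hmemw (hwu ▸ hu)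
      have : ¬ m u = w := fun e => hne (e.symm.trans h)
      rw [if_neg this, if_pos h]
      refine ⟨ha, ?_, ?_⟩
      · intro e
        have : m (m w) = m u := by rw [e]
        rw [hmw.2.2, h] at this
        exact hne this
      · rw [hmw.2.2, if_pos rfl]; exact hwu
    · rw [if_neg h', if_neg h'']
      refine ⟨h, (h1 u (by simp [hu])).2.1, ?_⟩
      have e := inv u hu
      have e2 : u ≠ w := fun e => hw (e ▸ hu)
      have e3 : u ≠ w' := fun e => hw' (e ▸ hu)
      rw [e, if_neg e2, if_neg e3]
  · intro S hS
    -- extended colouring
    by_cases hc : m w = w'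
    · have hc' : m w' = w := by rw [← hc]; exact hmw.2.2
      have hKm : ∀ u ∈ K, m u ≠ w ∧ m u ≠ w' := by
        intro u hu
        constructor
        · intro e; have := ww' u hu e; rw [hc] at this; exact hw' (this ▸ hu)
        · intro e; have := w'w u hu e; rw [hc'] at this; exact hw (this ▸ hu)
      obtain ⟨c, hc1, hc2, hc3⟩ := h2 (fun x => if x = w then true else if x = w' then false else S x) (by
        intro u hu
        simp only [Set.mem_insert_iff] at hu
        rcases hu with rfl | rfl | hu
        · simp [hc, hne.symm]
        · simp [hc', hne.symm]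
        · have e1 := hKm u hu
          have e2 : u ≠ w := fun e => hw (e ▸ hu)
          have e3 : u ≠ w' := fun e => hw' (e ▸ hu)
          simp only [e1.1, e1.2, e2, e3, if_false]
          have := hS u hu
          unfold Pool.Agent.Helper827_ando.contract at this
          rwa [if_neg e1.1, if_neg e1.2] at this)
      refine ⟨c, ?_, hc2, ?_⟩
      · intro u hu
        have e2 : u ≠ w := fun e => hw (e ▸ hu)
        have e3 : u ≠ w' := fun e => hw' (e ▸ hu)
        rw [hc1 u (by simp [hu])]
        simp [e2, e3]
      · intro x hx
        by_cases hxw : x = w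
        · subst hxw
          rw [hν, hc1 w' (by simp), hc1 x (by simp)]
          simp [hne.symm]
        · by_cases hxw' : x = w'
          · subst hxw'
            rw [hν', hc1 w (by simp), hc1 x (by simp)]
            simp [hne.symm]
          · exact hc3 x (by simp [hxw, hxw', hx])
    · have hwK : m w ∈ K := by
        have h3 := hmw.1
        simp only [Set.mem_insert_iff] at h3
        rcases h3 with h | h | h
        · exact absurd h hmw.2.1
        · exact absurd h hc
        · exact h
      obtain ⟨hw'K, _, _⟩ := hmemw' hwK
      have hab : S (m w') ≠ S (m w) := by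
        have := hS (m w) hwK
        unfold Pool.Agent.Helper827_ando.contract at this
        rwa [hmw.2.2, if_pos rfl] at this
      obtain ⟨c, hc1, hc2, hc3⟩ := h2 (fun x => if x = w then !S (m w) else if x = w' then !S (m w') else S x) (by
        intro u hu
        simp only [Set.mem_insert_iff] at hu
        rcases hu with rfl | rfl | hu
        · have e2 : m u ≠ u := hmw.2.1
          simp only [e2, hc, if_false, if_true]
          simp
        · have e2 : m u ≠ u := hmw'.2.1
          have e3 : m u ≠ w := fun e => hc (by rw [← e]; exact hmw'.2.2)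
          simp only [e2, e3, hne.symm, if_false, if_true]
          simp
        · have e2 : u ≠ w := fun e => hw (e ▸ hu)
          have e3 : u ≠ w' := fun e => hw' (e ▸ hu)
          rcases key u hu with h | h | ⟨h, h', h''⟩
          · have := ww' u hu h
            simp only [h, e2, e3, if_false, if_true]
            rw [this]; simp
          · have := w'w u hu h
            simp only [h, e2, e3, hne.symm, if_false, if_true]
            rw [this]; simp
          · simp only [h', h'', e2, e3, if_false]
            have := hS u hu
            unfold Pool.Agent.Helper827_ando.contract at this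
            rwa [if_neg h', if_neg h''] at this)
      refine ⟨c, ?_, hc2, ?_⟩
      · intro u hu
        have e2 : u ≠ w := fun e => hw (e ▸ hu)
        have e3 : u ≠ w' := fun e => hw' (e ▸ hu)
        rw [hc1 u (by simp [hu])]
        simp [e2, e3]
      · intro x hx
        have hne2 : S (m w) ≠ S (m w') := hab.symm
        by_cases hxw : x = w
        · subst hxw
          rw [hν, hc1 w' (by simp), hc1 x (by simp)]
          simp only [hne.symm, if_false, if_true]
          intro e; apply hab; simpa using e
        · by_cases hxw' : x = w'
          · subst hxw'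
            rw [hν', hc1 w (by simp), hc1 x (by simp)]
            simp only [hne.symm, if_false, if_true]
            intro e; apply hne2; simpa using e
          · exact hc3 x (by simp [hxw, hxw', hx])

/-- The partner of a point of `K` other than those of `w`, `w'` does not change; used to compare
the matching before and after a contraction. -/
theorem contract_of_eq_left [DecidableEq V] (m : V → V) {w w' u : V} (h : m u = w) :
    contract m w w' u = m w' := by
  simp [contract, h]

theorem contract_of_eq_right [DecidableEq V] (m : V → V) {w w' u : V} (h : m u = w') (hne : w' ≠ w) :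
    contract m w w' u = m w := by
  simp [contract, h, hne]

theorem contract_of_ne [DecidableEq V] (m : V → V) {w w' u : V} (h : m u ≠ w) (h' : m u ≠ w') :
    contract m w w' u = m u := by
  simp [contract, h, h']

/-- contraction of all pairs of `ν` inside a finite set -/
theorem exists_ext [DecidableEq V] {μ ν : V → V} (hμ : ∀ x, μ x ≠ x ∧ μ (μ x) = x) (A : Finset V) :
    (∀ x ∈ A, ν x ∈ A ∧ ν x ≠ x ∧ ν (ν x) = x) → ∃ m, Ext μ ν ((A : Set V)ᶜ) m := by
  induction A using Finset.strongInduction with
  | H A ih =>
    intro hA
    rcases A.eq_empty_or_nonempty with rfl | ⟨w, hw⟩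
    · refine ⟨μ, ?_, ?_⟩
      · intro u _; exact ⟨by simp, (hμ u).1, (hμ u).2⟩
      · intro S hS
        refine ⟨S, fun _ _ => rfl, fun x => hS x (by simp), fun x hx => ?_⟩
        simp at hx
    · obtain ⟨hw', hne, hinv⟩ := hA w hw
      have hsub : (A.erase w).erase (ν w) ⊂ A := by
        refine Finset.ssubset_of_subset_of_ssubset (Finset.erase_subset _ _) (Finset.erase_ssubset hw)
      obtain ⟨m, hm⟩ := ih _ hsub (by
        intro x hx
        simp only [Finset.mem_erase] at hx ⊢
        obtain ⟨hx1, hx2, hx3⟩ := hx
        obtain ⟨h1, h2, h3⟩ := hA x hx3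
        refine ⟨⟨?_, ?_, h1⟩, h2, h3⟩
        · intro e; apply hx2; rw [← h3, e, hinv]
        · intro e; apply hx1; rw [← h3, e])
      refine ⟨contract m w (ν w), Ext.contract ?_ ?_ ?_ hne.symm rfl hinv⟩
      · convert hm using 1
        ext x
        simp only [Set.mem_insert_iff, Set.mem_compl_iff, Finset.mem_coe, Finset.mem_erase]
        constructor
        · rintro (rfl | rfl | h)
          · intro h; exact h.2.1 rfl
          · intro h; exact h.1 rfl
          · intro h'; exact h h'.2.2
        · intro h
          by_cases h1 : x = w
          · exact Or.inl h1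
          · by_cases h2 : x = ν w
            · exact Or.inr (Or.inl h2)
            · exact Or.inr (Or.inr (fun h3 => h ⟨h2, h1, h3⟩))
      · simp [hw]
      · simp [hw']

end Pool.Agent.Helper827_ando
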