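import Mathlib
import Pool.Agent.Helper827_ando.Check
import Pool.Agent.Helper827_ando.Contract

namespace Pool.Agent.Helper827_ando

variable {V : Type*}

/-- positions of the new pair when `a` pairs are known -/
def edge (a : ℕ) : ℤ × ℤ := if a % 2 = 0 then (-((a : ℤ) + 1), -((a : ℤ) + 2)) else ((a : ℤ), (a : ℤ) + 1)

/-- `v` lies on a cycle of `σ` of length `2 h + 1`, and `ν` pairs the other vertices of it -/
structure Cyc (σ : Equiv.Perm V) (ν : V → V) (v : V) (h : ℕ) : Prop where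
  pos : 1 ≤ h
  per : ∀ i j : ℤ, (σ ^ i) v = (σ ^ j) v ↔ ((2 * h + 1 : ℕ) : ℤ) ∣ i - j
  nu : ∀ j : ℕ, j < h → ν ((σ ^ (2 * (j : ℤ) + 1)) v) = (σ ^ (2 * (j : ℤ) + 2)) v ∧
    ν ((σ ^ (2 * (j : ℤ) + 2)) v) = (σ ^ (2 * (j : ℤ) + 1)) v

/-- the known vertices of a cycle -/
def Kc (σ : Equiv.Perm V) (v : V) (a : ℕ) : Set V :=
  {x | ∃ i : ℤ, -(lo a : ℤ) ≤ i ∧ i ≤ hi a ∧ x = (σ ^ i) v}

theorem lo_add_hi (a : ℕ) : lo a + hi a = 2 * a := by
  unfold lo hi; omega

theorem Kc_zero (σ : Equiv.Perm V) (v : V) : Kc σ v 0 = {v} := by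
  ext x
  simp only [Kc, lo, hi, Set.mem_setOf_eq, Set.mem_singleton_iff]
  constructor
  · rintro ⟨i, h1, h2, rfl⟩
    have : i = 0 := by simp at h1 h2; omega
    subst this
    simp
  · rintro rfl
    exact ⟨0, by simp, by simp, by simp⟩

theorem v_mem_Kc (σ : Equiv.Perm V) (v : V) (a : ℕ) : v ∈ Kc σ v a :=
  ⟨0, by omega, by omega, by simp⟩

theorem Kc_succ (σ : Equiv.Perm V) (v : V) (a : ℕ) :
    Kc σ v (a + 1) = insert ((σ ^ (edge a).1) v) (insert ((σ ^ (edge a).2) v) (Kc σ v a)) := by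
  ext x
  simp only [Kc, Set.mem_insert_iff, Set.mem_setOf_eq]
  constructor
  · rintro ⟨i, h1, h2, rfl⟩
    by_cases e1 : i = (edge a).1
    · exact Or.inl (by rw [e1])
    · by_cases e2 : i = (edge a).2
      · exact Or.inr (Or.inl (by rw [e2]))
      · refine Or.inr (Or.inr ⟨i, ?_, ?_, rfl⟩)
        · unfold edge at e1 e2
          unfold lo at *
          split at e1
          · rename_i h; simp only [h, if_true] at e2; omega
          · rename_i h; simp only [h, if_false] at e2; omega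
        · unfold edge at e1 e2
          unfold hi at *
          split at e1
          · rename_i h; simp only [h, if_true] at e2; omega
          · rename_i h; simp only [h, if_false] at e2; omega
  · rintro (rfl | rfl | ⟨i, h1, h2, rfl⟩)
    · refine ⟨(edge a).1, ?_, ?_, rfl⟩
      · unfold edge lo
        split <;> simp only <;> omega
      · unfold edge hi
        split <;> simp only <;> omega
    · refine ⟨(edge a).2, ?_, ?_, rfl⟩
      · unfold edge lo
        split <;> simp only <;> omega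
      · unfold edge hi
        split <;> simp only <;> omega
    · refine ⟨i, ?_, ?_, rfl⟩
      · unfold lo at *; omega
      · unfold hi at *; omega

section
variable {σ : Equiv.Perm V} {ν : V → V} {v : V} {h : ℕ}

theorem Cyc.inj (C : Cyc σ ν v h) {i j : ℤ} (h1 : i - j < 2 * h + 1) (h2 : j - i < 2 * h + 1)
    (e : (σ ^ i) v = (σ ^ j) v) : i = j := by
  have := (C.per i j).1 e
  have h3 := Int.eq_zero_of_abs_lt_dvd this (by rw [abs_lt]; push_cast; constructor <;> linarith)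
  linarith

theorem Cyc.eq_of (C : Cyc σ ν v h) {i j : ℤ} (h1 : i - j = 2 * h + 1) :
    (σ ^ i) v = (σ ^ j) v := (C.per i j).2 ⟨1, by push_cast; linarith⟩

theorem Cyc.edge_nu (C : Cyc σ ν v h) {a : ℕ} (ha : a < h) :
    ν ((σ ^ (edge a).1) v) = (σ ^ (edge a).2) v ∧ ν ((σ ^ (edge a).2) v) = (σ ^ (edge a).1) v := by
  unfold edge
  split
  · rename_i hpar
    simp only
    obtain ⟨h1, h2⟩ := C.nu (h - 1 - a / 2) (by omega)
    have e1 : (σ ^ (2 * ((h - 1 - a / 2 : ℕ) : ℤ) + 1)) v = (σ ^ (-((a : ℤ) + 2))) v :=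
      C.eq_of (by omega)
    have e2 : (σ ^ (2 * ((h - 1 - a / 2 : ℕ) : ℤ) + 2)) v = (σ ^ (-((a : ℤ) + 1))) v :=
      C.eq_of (by omega)
    rw [e1, e2] at h1 h2
    exact ⟨h2, h1⟩
  · rename_i hpar
    simp only
    obtain ⟨h1, h2⟩ := C.nu (a / 2) (by omega)
    rw [show 2 * ((a / 2 : ℕ) : ℤ) + 1 = a by omega, show 2 * ((a / 2 : ℕ) : ℤ) + 2 = a + 1 by omega]
      at h1 h2
    exact ⟨h1, h2⟩

theorem Cyc.fst_not_mem (C : Cyc σ ν v h) {a : ℕ} (ha : a < h) :
    (σ ^ (edge a).1) v ∉ Kc σ v a := by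
  rintro ⟨i, h1, h2, e⟩
  have := C.inj (by unfold edge; unfold lo at h1; unfold hi at h2; split <;> simp only <;> omega)
    (by unfold edge; unfold lo at h1; unfold hi at h2; split <;> simp only <;> omega) e
  unfold edge at this; unfold lo at h1; unfold hi at h2
  split at this <;> simp only at this <;> omega

theorem Cyc.snd_not_mem (C : Cyc σ ν v h) {a : ℕ} (ha : a < h) :
    (σ ^ (edge a).2) v ∉ Kc σ v a := by
  rintro ⟨i, h1, h2, e⟩
  have := C.inj (by unfold edge; unfold lo at h1; unfold hi at h2; split <;> simp only <;> omega)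
    (by unfold edge; unfold lo at h1; unfold hi at h2; split <;> simp only <;> omega) e
  unfold edge at this; unfold lo at h1; unfold hi at h2
  split at this <;> simp only at this <;> omega

theorem Cyc.fst_ne_snd (C : Cyc σ ν v h) (a : ℕ) :
    (σ ^ (edge a).1) v ≠ (σ ^ (edge a).2) v := by
  intro e
  have hp := C.pos
  have := C.inj (by unfold edge; split <;> simp only <;> omega)
    (by unfold edge; split <;> simp only <;> omega) e
  unfold edge at this
  split at this <;> simp only at this <;> omega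

end

/-- the assumptions on the instance -/
structure Inst (σ : Equiv.Perm V) (μ ν : V → V) (v1 v2 : V) (h1 h2 : ℕ) (m0 : V → V) : Prop where
  cyc1 : Cyc σ ν v1 h1
  cyc2 : Cyc σ ν v2 h2
  disj : ∀ i j : ℤ, (σ ^ i) v1 ≠ (σ ^ j) v2
  trip : ∀ x, (∀ i : ℤ, (σ ^ i) v1 ≠ x) → (∀ i : ℤ, (σ ^ i) v2 ≠ x) →
    ν x = σ x ∨ ν (σ x) = σ (σ x) ∨ ν (σ (σ x)) = x
  base : Ext μ ν (Kc σ v1 h1 ∪ Kc σ v2 h2) m0
  base12 : m0 v1 = v2

/-- all known vertices -/
def KK (σ : Equiv.Perm V) (v1 v2 : V) (a1 a2 : ℕ) : Set V := Kc σ v1 a1 ∪ Kc σ v2 a2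

/-- should the first cycle be extended -/
def fstNext (h1 h2 a1 a2 : ℕ) : Prop := a1 < h1 ∧ (a2 = h2 ∨ a1 / 2 ≤ a2 / 2)

instance (h1 h2 a1 a2 : ℕ) : Decidable (fstNext h1 h2 a1 a2) := by
  unfold fstNext; infer_instance

/-- the matching on the known vertices obtained by contraction of all other pairs -/
def mm [DecidableEq V] (σ : Equiv.Perm V) (v1 v2 : V) (h1 h2 : ℕ) (m0 : V → V) :
    ℕ → ℕ → ℕ → (V → V)
  | 0, _, _ => m0
  | r+1, a1, a2 => if fstNext h1 h2 a1 a2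
      then contract (mm σ v1 v2 h1 h2 m0 r (a1+1) a2) ((σ ^ (edge a1).1) v1) ((σ ^ (edge a1).2) v1)
      else contract (mm σ v1 v2 h1 h2 m0 r a1 (a2+1)) ((σ ^ (edge a2).1) v2) ((σ ^ (edge a2).2) v2)

section
variable [DecidableEq V] {σ : Equiv.Perm V} {μ ν : V → V} {v1 v2 : V} {h1 h2 : ℕ} {m0 : V → V}

theorem Kc_ne_right (I : Inst σ μ ν v1 v2 h1 h2 m0) (a : ℕ) (i : ℤ) : (σ ^ i) v1 ∉ Kc σ v2 a := by
  rintro ⟨j, _, _, e⟩
  exact I.disj i j e

theorem Kc_ne_left (I : Inst σ μ ν v1 v2 h1 h2 m0) (a : ℕ) (i : ℤ) : (σ ^ i) v2 ∉ Kc σ v1 a := by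
  rintro ⟨j, _, _, e⟩
  exact I.disj j i e.symm

theorem Inst.new1 (I : Inst σ μ ν v1 v2 h1 h2 m0) {a1 a2 : ℕ} (ha : a1 < h1) :
    (σ ^ (edge a1).1) v1 ∉ KK σ v1 v2 a1 a2 ∧ (σ ^ (edge a1).2) v1 ∉ KK σ v1 v2 a1 a2 := by
  constructor
  · rintro (h | h)
    · exact I.cyc1.fst_not_mem ha h
    · exact Kc_ne_right I _ _ h
  · rintro (h | h)
    · exact I.cyc1.snd_not_mem ha h
    · exact Kc_ne_right I _ _ h

theorem Inst.new2 (I : Inst σ μ ν v1 v2 h1 h2 m0) {a1 a2 : ℕ} (ha : a2 < h2) :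
    (σ ^ (edge a2).1) v2 ∉ KK σ v1 v2 a1 a2 ∧ (σ ^ (edge a2).2) v2 ∉ KK σ v1 v2 a1 a2 := by
  constructor
  · rintro (h | h)
    · exact Kc_ne_left I _ _ h
    · exact I.cyc2.fst_not_mem ha h
  · rintro (h | h)
    · exact Kc_ne_left I _ _ h
    · exact I.cyc2.snd_not_mem ha h

theorem KK_succ1 (a1 a2 : ℕ) : KK σ v1 v2 (a1 + 1) a2 =
    insert ((σ ^ (edge a1).1) v1) (insert ((σ ^ (edge a1).2) v1) (KK σ v1 v2 a1 a2)) := by
  unfold KK
  rw [Kc_succ]
  simp only [Set.insert_union]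

theorem KK_succ2 (a1 a2 : ℕ) : KK σ v1 v2 a1 (a2 + 1) =
    insert ((σ ^ (edge a2).1) v2) (insert ((σ ^ (edge a2).2) v2) (KK σ v1 v2 a1 a2)) := by
  unfold KK
  rw [Kc_succ]
  simp only [Set.union_insert]

theorem v1_mem (a1 a2 : ℕ) : v1 ∈ KK σ v1 v2 a1 a2 := Or.inl (v_mem_Kc _ _ _)
theorem v2_mem (a1 a2 : ℕ) : v2 ∈ KK σ v1 v2 a1 a2 := Or.inr (v_mem_Kc _ _ _)

theorem Inst.mm_ext (I : Inst σ μ ν v1 v2 h1 h2 m0) : ∀ (r a1 a2 : ℕ), a1 ≤ h1 → a2 ≤ h2 →
    (h1 - a1) + (h2 - a2) = r →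
    Ext μ ν (KK σ v1 v2 a1 a2) (mm σ v1 v2 h1 h2 m0 r a1 a2) ∧
      mm σ v1 v2 h1 h2 m0 r a1 a2 v1 = v2
  | 0, a1, a2, hle1, hle2, hr => by
      have e1 : a1 = h1 := by omega
      have e2 : a2 = h2 := by omega
      subst e1; subst e2
      exact ⟨I.base, I.base12⟩
  | r+1, a1, a2, hle1, hle2, hr => by
      by_cases hf : fstNext h1 h2 a1 a2
      · have ha := hf.1
        obtain ⟨ih1, ih2⟩ := I.mm_ext r (a1+1) a2 (by omega) hle2 (by omega)
        have hn := I.new1 (a2 := a2) ha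
        have hu := I.cyc1.edge_nu ha
        simp only [mm, if_pos hf]
        refine ⟨Ext.contract (by rwa [KK_succ1] at ih1) hn.1 hn.2 (I.cyc1.fst_ne_snd _) hu.1 hu.2, ?_⟩
        rw [contract_of_ne]
        · exact ih2
        · rw [ih2]; intro e; exact hn.1 (e ▸ v2_mem _ _)
        · rw [ih2]; intro e; exact hn.2 (e ▸ v2_mem _ _)
      · have ha : a2 < h2 := by
          unfold fstNext at hf
          by_contra hcon
          apply hf
          constructor
          · omega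
          · left; omega
        obtain ⟨ih1, ih2⟩ := I.mm_ext r a1 (a2+1) hle1 (by omega) (by omega)
        have hn := I.new2 (a1 := a1) ha
        have hu := I.cyc2.edge_nu ha
        simp only [mm, if_neg hf]
        refine ⟨Ext.contract (by rwa [KK_succ2] at ih1) hn.1 hn.2 (I.cyc2.fst_ne_snd _) hu.1 hu.2, ?_⟩
        rw [contract_of_ne]
        · exact ih2
        · rw [ih2]; intro e; exact hn.1 (e ▸ v2_mem _ _)
        · rw [ih2]; intro e; exact hn.2 (e ▸ v2_mem _ _)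

end

end Pool.Agent.Helper827_ando
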