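import Mathlib
import Pool.Agent.Helper827_ando.Contract

namespace Pool.Agent.Helper827_ando

variable {V : Type*}

/-- the endpoints of two arcs are distinct -/
def Dis (j : ℕ → V) (p q : ℕ × ℕ) : Prop :=
  j p.1 ≠ j q.1 ∧ j p.1 ≠ j q.2 ∧ j p.2 ≠ j q.1 ∧ j p.2 ≠ j q.2

/-- the list of arcs describes the matching `m` on `K`, except for the arc `v1 v2` -/
structure Real (j : ℕ → V) (Kn : ℕ → Prop) (K : Set V) (v1 v2 : V) (m : V → V)
    (arcs : List (ℕ × ℕ)) : Prop where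
  fwd : ∀ p ∈ arcs, m (j p.1) = j p.2 ∧ m (j p.2) = j p.1
  cov : ∀ x ∈ K, x = v1 ∨ x = v2 ∨ ∃ p ∈ arcs, x = j p.1 ∨ x = j p.2
  sub : ∀ p ∈ arcs, Kn p.1 ∧ Kn p.2
  dis : arcs.Pairwise (Dis j)

theorem Real.new [DecidableEq V] {j : ℕ → V} {Kn Kn' : ℕ → Prop} {K : Set V} {v1 v2 : V}
    {m : V → V} {w w' : ℕ} {arcs : List (ℕ × ℕ)}
    (R : Real j Kn K v1 v2 (contract m (j w) (j w')) arcs)
    (H : ∀ x ∈ insert (j w) (insert (j w') K), m x ∈ insert (j w) (insert (j w') K) ∧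
      m x ≠ x ∧ m (m x) = x)
    (hw : j w ∉ K) (hw' : j w' ∉ K)
    (hKn : ∀ u, Kn u → j u ∈ K) (hKn' : ∀ u, Kn u → Kn' u) (hwn : Kn' w) (hwn' : Kn' w')
    (hm : m (j w) = j w') :
    Real j Kn' (insert (j w) (insert (j w') K)) v1 v2 m ((w, w') :: arcs) where
  fwd := by
    intro p hp
    have hm' : m (j w') = j w := by rw [← hm]; exact (H _ (by simp)).2.2
    rcases List.mem_cons.1 hp with rfl | hp
    · exact ⟨hm, hm'⟩
    · obtain ⟨h1, h2⟩ := R.fwd p hp
      obtain ⟨h3, h4⟩ := R.sub p hp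
      have e : ∀ x ∈ K, m x ≠ j w ∧ m x ≠ j w' := by
        intro x hx
        have hi := (H x (by simp [hx])).2.2
        constructor
        · intro e; rw [e, hm] at hi; exact hw' (hi ▸ hx)
        · intro e; rw [e, hm'] at hi; exact hw (hi ▸ hx)
      have e1 := e _ (hKn _ h3)
      have e2 := e _ (hKn _ h4)
      rw [contract_of_ne _ e1.1 e1.2] at h1
      rw [contract_of_ne _ e2.1 e2.2] at h2
      exact ⟨h1, h2⟩
  cov := by
    intro x hx
    simp only [Set.mem_insert_iff] at hx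
    rcases hx with rfl | rfl | hx
    · exact Or.inr (Or.inr ⟨(w, w'), by simp, Or.inl rfl⟩)
    · exact Or.inr (Or.inr ⟨(w, w'), by simp, Or.inr rfl⟩)
    · rcases R.cov x hx with h | h | ⟨p, hp, h⟩
      · exact Or.inl h
      · exact Or.inr (Or.inl h)
      · exact Or.inr (Or.inr ⟨p, by simp [hp], h⟩)
  sub := by
    intro p hp
    rcases List.mem_cons.1 hp with rfl | hp
    · exact ⟨hwn, hwn'⟩
    · exact ⟨hKn' _ (R.sub p hp).1, hKn' _ (R.sub p hp).2⟩
  dis := by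
    rw [List.pairwise_cons]
    refine ⟨?_, R.dis⟩
    intro p hp
    have h1 := hKn _ (R.sub p hp).1
    have h2 := hKn _ (R.sub p hp).2
    exact ⟨fun e => hw (e ▸ h1), fun e => hw (e ▸ h2), fun e => hw' (e ▸ h1), fun e => hw' (e ▸ h2)⟩

/-- splitting an arc -/
theorem Real.split [DecidableEq V] {j : ℕ → V} {Kn Kn' : ℕ → Prop} {K : Set V} {v1 v2 : V}
    {m : V → V} {w w' a b : ℕ} {arcs pre t : List (ℕ × ℕ)}
    (R : Real j Kn K v1 v2 (contract m (j a) (j b)) arcs)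
    (K' : Set V) (hK' : K' = insert (j a) (insert (j b) K))
    (hab : (w = a ∧ w' = b) ∨ (w = b ∧ w' = a))
    (H : ∀ x ∈ K', m x ∈ K' ∧ m x ≠ x ∧ m (m x) = x)
    (hw : j w ∉ K) (hw' : j w' ∉ K) (hne : j w ≠ j w')
    (hKn : ∀ u, Kn u → j u ∈ K) (hKn' : ∀ u, Kn u → Kn' u) (hwn : Kn' w) (hwn' : Kn' w')
    {u v : ℕ} (harcs : arcs = pre ++ (u, v) :: t)
    (hm : m (j u) = j w) :
    Real j Kn' K' v1 v2 m (pre ++ (u, w) :: (w', v) :: t) := by
  have memK' : ∀ x ∈ K, x ∈ K' := by intro x hx; rw [hK']; simp [hx]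
  have hwK' : j w ∈ K' := by rw [hK']; rcases hab with ⟨rfl, rfl⟩ | ⟨rfl, rfl⟩ <;> simp
  have hw'K' : j w' ∈ K' := by rw [hK']; rcases hab with ⟨rfl, rfl⟩ | ⟨rfl, rfl⟩ <;> simp
  have K'mem : ∀ x ∈ K', x = j w ∨ x = j w' ∨ x ∈ K := by
    intro x hx; rw [hK'] at hx
    simp only [Set.mem_insert_iff] at hx
    rcases hab with ⟨rfl, rfl⟩ | ⟨rfl, rfl⟩ <;> tauto
  have cne : ∀ x, m x ≠ j w → m x ≠ j w' → contract m (j a) (j b) x = m x := by
    intro x h1 h2
    rcases hab with ⟨rfl, rfl⟩ | ⟨rfl, rfl⟩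
    · exact contract_of_ne _ h1 h2
    · exact contract_of_ne _ h2 h1
  have cw : ∀ x, m x = j w → contract m (j a) (j b) x = m (j w') := by
    intro x h1
    rcases hab with ⟨rfl, rfl⟩ | ⟨rfl, rfl⟩
    · exact contract_of_eq_left _ h1
    · exact contract_of_eq_right _ h1 hne
  have huv : (u, v) ∈ arcs := by rw [harcs]; simp
  have hu : j u ∈ K := hKn _ (R.sub _ huv).1
  have hv : j v ∈ K := hKn _ (R.sub _ huv).2
  have hmw : m (j w) = j u := by rw [← hm]; exact (H _ (memK' _ hu)).2.2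
  have hmw' : m (j w') = j v := by
    have := (R.fwd _ huv).1
    simp only at this
    rw [← this, cw _ hm]
  have hmv : m (j v) = j w' := by rw [← hmw']; exact (H _ hw'K').2.2
  have huvne : j u ≠ j v := by
    intro e
    rw [e] at hm
    rw [hm] at hmv
    exact hne hmv
  have dis := R.dis
  rw [harcs, List.pairwise_append, List.pairwise_cons] at dis
  obtain ⟨d1, ⟨d2, d3⟩, d4⟩ := dis
  have dpre : ∀ p ∈ pre, Dis j p (u, v) := fun p hp => d4 p hp _ (by simp)
  have Ksub : ∀ p, p ∈ pre ∨ p ∈ t → j p.1 ∈ K ∧ j p.2 ∈ K := by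
    intro p hp
    have : p ∈ arcs := by rw [harcs]; simp; tauto
    exact ⟨hKn _ (R.sub _ this).1, hKn _ (R.sub _ this).2⟩
  have dd : ∀ p, p ∈ pre ∨ p ∈ t → Dis j (u, v) p := by
    rintro p (hp | hp)
    · obtain ⟨h1, h2, h3, h4⟩ := dpre p hp
      exact ⟨h1.symm, h3.symm, h2.symm, h4.symm⟩
    · exact d2 p hp
  have unaff : ∀ x ∈ K, x ≠ j u → x ≠ j v → m x ≠ j w ∧ m x ≠ j w' := by
    intro x hx h1 h2
    have hi := (H x (memK' _ hx)).2.2
    constructor
    · intro e; rw [e, hmw] at hi; exact h1 hi.symm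
    · intro e; rw [e, hmw'] at hi; exact h2 hi.symm
  refine ⟨?_, ?_, ?_, ?_⟩
  · intro p hp
    have hp' : p = (u, w) ∨ p = (w', v) ∨ p ∈ pre ∨ p ∈ t := by
      simp only [List.mem_append, List.mem_cons] at hp; tauto
    rcases hp' with rfl | rfl | hp'
    · exact ⟨hm, hmw⟩
    · exact ⟨hmw', hmv⟩
    · have hin : p ∈ arcs := by rw [harcs]; simp; tauto
      obtain ⟨h1, h2⟩ := R.fwd _ hin
      obtain ⟨k1, k2⟩ := Ksub p hp'
      obtain ⟨e1, e2, e3, e4⟩ := dd p hp'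
      obtain ⟨f1, f2⟩ := unaff _ k1 e1.symm e3.symm
      obtain ⟨f3, f4⟩ := unaff _ k2 e2.symm e4.symm
      rw [cne _ f1 f2] at h1
      rw [cne _ f3 f4] at h2
      exact ⟨h1, h2⟩
  · intro x hx
    rcases K'mem x hx with rfl | rfl | hx
    · exact Or.inr (Or.inr ⟨(u, w), by simp, Or.inr rfl⟩)
    · exact Or.inr (Or.inr ⟨(w', v), by simp, Or.inl rfl⟩)
    · rcases R.cov x hx with h | h | ⟨p, hp, h⟩
      · exact Or.inl h
      · exact Or.inr (Or.inl h)
      · rw [harcs] at hp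
        have hp' : p = (u, v) ∨ p ∈ pre ∨ p ∈ t := by
          simp only [List.mem_append, List.mem_cons] at hp; tauto
        rcases hp' with rfl | hp'
        · rcases h with h | h
          · exact Or.inr (Or.inr ⟨(u, w), by simp, Or.inl h⟩)
          · exact Or.inr (Or.inr ⟨(w', v), by simp, Or.inr h⟩)
        · exact Or.inr (Or.inr ⟨p, by simp only [List.mem_append, List.mem_cons]; tauto, h⟩)
  · intro p hp
    have hp' : p = (u, w) ∨ p = (w', v) ∨ p ∈ pre ∨ p ∈ t := by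
      simp only [List.mem_append, List.mem_cons] at hp; tauto
    rcases hp' with rfl | rfl | hp'
    · exact ⟨hKn' _ (R.sub _ huv).1, hwn⟩
    · exact ⟨hwn', hKn' _ (R.sub _ huv).2⟩
    · have hin : p ∈ arcs := by rw [harcs]; simp; tauto
      exact ⟨hKn' _ (R.sub _ hin).1, hKn' _ (R.sub _ hin).2⟩
  · have nw : ∀ x ∈ K, j w ≠ x := by rintro x hx rfl; exact hw hx
    have nw' : ∀ x ∈ K, j w' ≠ x := by rintro x hx rfl; exact hw' hx
    rw [List.pairwise_append, List.pairwise_cons, List.pairwise_cons]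
    refine ⟨d1, ⟨?_, ?_, d3⟩, ?_⟩
    · intro p hp
      rcases List.mem_cons.1 hp with rfl | hp
      · exact ⟨(nw' _ hu).symm, huvne, hne, nw _ hv⟩
      · obtain ⟨e1, e2, e3, e4⟩ := dd p (Or.inr hp)
        obtain ⟨k1, k2⟩ := Ksub p (Or.inr hp)
        exact ⟨e1, e2, nw _ k1, nw _ k2⟩
    · intro p hp
      obtain ⟨e1, e2, e3, e4⟩ := dd p (Or.inr hp)
      obtain ⟨k1, k2⟩ := Ksub p (Or.inr hp)
      exact ⟨nw' _ k1, nw' _ k2, e3, e4⟩
    · intro p hp q hq
      obtain ⟨e1, e2, e3, e4⟩ := dpre p hp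
      obtain ⟨k1, k2⟩ := Ksub p (Or.inl hp)
      simp only [List.mem_cons] at hq
      rcases hq with rfl | rfl | hq
      · exact ⟨e1, (nw _ k1).symm, e3, (nw _ k2).symm⟩
      · exact ⟨(nw' _ k1).symm, e2, (nw' _ k2).symm, e4⟩
      · exact d4 p hp q (by simp [hq])

theorem Real.step [DecidableEq V] {j : ℕ → V} {Kn Kn' : ℕ → Prop} {K : Set V} {v1 v2 : V}
    {m : V → V} {w w' : ℕ} {arcs : List (ℕ × ℕ)}
    (R : Real j Kn K v1 v2 (contract m (j w) (j w')) arcs)
    (H : ∀ x ∈ insert (j w) (insert (j w') K), m x ∈ insert (j w) (insert (j w') K) ∧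
      m x ≠ x ∧ m (m x) = x)
    (hv : m v1 = v2) (hv1 : v1 ∈ K) (hv2 : v2 ∈ K)
    (hw : j w ∉ K) (hw' : j w' ∉ K) (hne : j w ≠ j w')
    (hKn : ∀ u, Kn u → j u ∈ K) (hKn' : ∀ u, Kn u → Kn' u) (hwn : Kn' w) (hwn' : Kn' w') :
    Real j Kn' (insert (j w) (insert (j w') K)) v1 v2 m ((w, w') :: arcs) ∨
    ∃ pre u v t, arcs = pre ++ (u, v) :: t ∧
      (Real j Kn' (insert (j w) (insert (j w') K)) v1 v2 m (pre ++ (u, w) :: (w', v) :: t) ∨
       Real j Kn' (insert (j w) (insert (j w') K)) v1 v2 m (pre ++ (u, w') :: (w, v) :: t)) := by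
  have hv2' : m v2 = v1 := by rw [← hv]; exact (H _ (by simp [hv1])).2.2
  by_cases hm : m (j w) = j w'
  · exact Or.inl (R.new H hw hw' hKn hKn' hwn hwn' hm)
  · right
    have h1 := (H (j w) (by simp))
    have hx : m (j w) ∈ K := by
      have := h1.1
      simp only [Set.mem_insert_iff] at this
      rcases this with h | h | h
      · exact absurd h h1.2.1
      · exact absurd h hm
      · exact h
    rcases R.cov _ hx with h | h | ⟨p, hp, h⟩
    · exfalso
      have := h1.2.2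
      rw [h, hv] at this
      exact hw (this ▸ hv2)
    · exfalso
      have := h1.2.2
      rw [h, hv2'] at this
      exact hw (this ▸ hv1)
    · obtain ⟨pre, t, rfl⟩ := List.append_of_mem hp
      obtain ⟨u, v⟩ := p
      refine ⟨pre, u, v, t, rfl, ?_⟩
      rcases h with h | h
      · left
        exact R.split _ rfl (Or.inl ⟨rfl, rfl⟩) H hw hw' hne hKn hKn' hwn hwn' rfl
          (by simp only at h; rw [← h]; exact h1.2.2)
      · right
        -- m (j w) = j v, so m (j u) = j w'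
        simp only at h
        have hmv : m (j v) = j w := by rw [← h]; exact h1.2.2
        have e1 := (R.fwd _ hp).2
        simp only at e1
        rw [contract_of_eq_left _ hmv] at e1
        have e2 : m (j u) = j w' := by rw [← e1]; exact (H _ (by simp)).2.2
        exact R.split _ rfl (Or.inr ⟨rfl, rfl⟩) H hw' hw hne.symm hKn hKn' hwn' hwn rfl e2

end Pool.Agent.Helper827_ando
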