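import Mathlib
import Pool.Agent.Helper827_ando.Check

namespace Pool.Agent.Helper827_ando

/-- the list `[f s, f (s+1), …, f (s+n-1)]` -/
def lst (f : Nat → Bool) : Nat → Nat → List Bool
  | _, 0 => []
  | s, n+1 => f s :: lst f (s+1) n

theorem lst_length (f : Nat → Bool) : ∀ (s n : Nat), (lst f s n).length = n
  | _, 0 => rfl
  | s, n+1 => by simp [lst, lst_length f (s+1) n]

theorem lst_congr {f g : Nat → Bool} : ∀ (s t n : Nat), (∀ i, i < n → f (s + i) = g (t + i)) →
    lst f s n = lst g t n
  | _, _, 0, _ => rfl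
  | s, t, n+1, h => by
      simp only [lst]
      have h0 := h 0 (Nat.succ_pos n)
      simp only [Nat.add_zero] at h0
      rw [h0, lst_congr (s+1) (t+1) n (fun i hi => by
        have := h (i+1) (by omega)
        rwa [show s + 1 + i = s + (i+1) by omega, show t + 1 + i = t + (i+1) by omega])]

theorem bitsK_eq (S : Nat) : ∀ (start n : Nat) (k : List Bool → Bool),
    bitsK S start n k = k (lst (tb S) start n)
  | _, 0, k => rfl
  | start, n+1, k => by
      simp only [bitsK, lst]
      cases h : tb S start <;> simp only [bitsK_eq S (start+1) n]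

/-- number of the first `n` suffixes satisfying `P` -/
def cntW (P : List Bool → Bool) : Nat → List Bool → Nat
  | 0, _ => 0
  | _+1, [] => 0
  | n+1, a :: t => (if P (a :: t) = true then 1 else 0) + cntW P n t

def p5 : List Bool → Bool
  | true :: true :: true :: true :: true :: _ => true
  | false :: false :: false :: false :: false :: _ => true
  | _ => false
def p3t : List Bool → Bool
  | false :: true :: true :: true :: false :: _ => true
  | _ => false
def p3f : List Bool → Bool
  | true :: false :: false :: false :: true :: _ => true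
  | _ => false
def p4t : List Bool → Bool
  | false :: true :: true :: true :: true :: false :: _ => true
  | _ => false
def p4f : List Bool → Bool
  | true :: false :: false :: false :: false :: true :: _ => true
  | _ => false

theorem cntW_short (P : List Bool → Bool) (hP : ∀ L : List Bool, L.length < 5 → P L = false) :
    ∀ (n : Nat) (L : List Bool), L.length < 5 → cntW P n L = 0
  | 0, _, _ => rfl
  | n+1, [], _ => rfl
  | n+1, a :: t, h => by
      simp only [cntW]
      rw [cntW_short P hP n t (by simp at h; omega), hP _ h]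
      simp

theorem p5_short (L : List Bool) (h : L.length < 5) : p5 L = false := by
  rcases L with _ | ⟨a, _ | ⟨b, _ | ⟨c, _ | ⟨d, _ | ⟨e, t⟩⟩⟩⟩⟩
  · rfl
  · clear h; decide +revert
  · clear h; decide +revert
  · clear h; decide +revert
  · clear h; decide +revert
  · simp at h; omega
theorem p3t_short (L : List Bool) (h : L.length < 5) : p3t L = false := by
  rcases L with _ | ⟨a, _ | ⟨b, _ | ⟨c, _ | ⟨d, _ | ⟨e, t⟩⟩⟩⟩⟩
  · rfl
  · clear h; decide +revert
  · clear h; decide +revert
  · clear h; decide +revert
  · clear h; decide +revert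
  · simp at h; omega
theorem p3f_short (L : List Bool) (h : L.length < 5) : p3f L = false := by
  rcases L with _ | ⟨a, _ | ⟨b, _ | ⟨c, _ | ⟨d, _ | ⟨e, t⟩⟩⟩⟩⟩
  · rfl
  · clear h; decide +revert
  · clear h; decide +revert
  · clear h; decide +revert
  · clear h; decide +revert
  · simp at h; omega
theorem p4t_short (L : List Bool) (h : L.length < 6) : p4t L = false := by
  rcases L with _ | ⟨a, _ | ⟨b, _ | ⟨c, _ | ⟨d, _ | ⟨e, _ | ⟨f, t⟩⟩⟩⟩⟩⟩
  · rfl
  · clear h; decide +revert
  · clear h; decide +revert
  · clear h; decide +revert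
  · clear h; decide +revert
  · clear h; decide +revert
  · simp at h; omega
theorem p4f_short (L : List Bool) (h : L.length < 6) : p4f L = false := by
  rcases L with _ | ⟨a, _ | ⟨b, _ | ⟨c, _ | ⟨d, _ | ⟨e, _ | ⟨f, t⟩⟩⟩⟩⟩⟩
  · rfl
  · clear h; decide +revert
  · clear h; decide +revert
  · clear h; decide +revert
  · clear h; decide +revert
  · clear h; decide +revert
  · simp at h; omega

theorem scan_sem : ∀ (n : Nat) (L : List Bool) (pt pf qt qf : Nat)
    (k : Nat → Nat → Nat → Nat → Bool), scan n L pt pf qt qf k = true →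
    cntW p5 n L = 0 ∧
    k (pt + cntW p3t n L) (pf + cntW p3f n L) (qt + cntW p4t n L) (qf + cntW p4f n L) = true
  | 0, L, pt, pf, qt, qf, k, h => by
      cases L <;> simpa [scan, cntW] using h
  | n+1, L, pt, pf, qt, qf, k, h => by
      by_cases hL : L.length < 5
      · rw [cntW_short _ p5_short _ _ hL, cntW_short _ p3t_short _ _ hL,
          cntW_short _ p3f_short _ _ hL,
          cntW_short _ (fun L h => p4t_short L (by omega)) _ _ hL,
          cntW_short _ (fun L h => p4f_short L (by omega)) _ _ hL]
        rcases L with _ | ⟨a, _ | ⟨b, _ | ⟨c, _ | ⟨d, _ | ⟨e, t⟩⟩⟩⟩⟩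
        · simpa [scan] using h
        · simpa [scan] using h
        · simpa [scan] using h
        · simpa [scan] using h
        · simpa [scan] using h
        · simp at hL; omega
      · rcases L with _ | ⟨a, _ | ⟨b, _ | ⟨c, _ | ⟨d, _ | ⟨e, t⟩⟩⟩⟩⟩
        · simp at hL
        · simp at hL
        · simp at hL
        · simp at hL
        · simp at hL
        · have IH := scan_sem n (b :: c :: d :: e :: t)
          cases a <;> cases b <;> cases c <;> cases d <;> cases e <;>
            first
            | (simp [scan] at h; done)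
            | (simp only [scan] at h
               have := IH _ _ _ _ _ h
               simp only [cntW, p5, p3t, p3f, p4t, p4f, Nat.add_assoc] at this ⊢
               simpa using this)
            | (rcases t with _ | ⟨g, t⟩
               · have e4 : ∀ L : List Bool, L.length < 5 → cntW p5 n L = 0 ∧ cntW p3t n L = 0 ∧
                     cntW p3f n L = 0 ∧ cntW p4t n L = 0 ∧ cntW p4f n L = 0 := fun L hL =>
                   ⟨cntW_short _ p5_short _ _ hL, cntW_short _ p3t_short _ _ hL,
                    cntW_short _ p3f_short _ _ hL,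
                    cntW_short _ (fun L h => p4t_short L (by omega)) _ _ hL,
                    cntW_short _ (fun L h => p4f_short L (by omega)) _ _ hL⟩
                 simp only [scan] at h
                 simp only [cntW, p5, p3t, p3f, p4t, p4f, Nat.add_assoc]
                 simp only [(e4 _ (by simp : [_, _, _, _].length < 5)).1,
                   (e4 _ (by simp : [_, _, _, _].length < 5)).2.1,
                   (e4 _ (by simp : [_, _, _, _].length < 5)).2.2.1,
                   (e4 _ (by simp : [_, _, _, _].length < 5)).2.2.2.1,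
                   (e4 _ (by simp : [_, _, _, _].length < 5)).2.2.2.2]
                 simpa using h
               · cases g <;>
                 · simp only [scan] at h
                   have := IH _ _ _ _ _ h
                   simp only [cntW, p5, p3t, p3f, p4t, p4f, Nat.add_assoc] at this ⊢
                   simpa using this)

theorem bx_iff {a b : Bool} : bx a b = true ↔ a ≠ b := by
  cases a <;> cases b <;> simp [bx]

theorem and4_iff {a b c d x : Bool} :
    and4 a b c d x = true ↔ a = true ∧ b = true ∧ c = true ∧ d = true ∧ x = true := by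
  cases a <;> cases b <;> cases c <;> cases d <;> simp [and4]

theorem and2_iff {a b x : Bool} : and2 a b x = true ↔ a = true ∧ b = true ∧ x = true := by
  cases a <;> cases b <;> simp [and2]

theorem arcsOK_sem {S : Nat} : ∀ {arcs : List (Nat × Nat)}, arcsOK S arcs = true →
    ∀ p ∈ arcs, tb S p.1 ≠ tb S p.2
  | [], _ => by simp
  | (u, v) :: t, h => by
      simp only [arcsOK] at h
      cases hb : bx (tb S u) (tb S v) with
      | false => rw [hb] at h; simp at h
      | true =>
        rw [hb] at h
        intro p hp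
        rcases List.mem_cons.1 hp with rfl | hp
        · exact bx_iff.1 hb
        · exact arcsOK_sem h p hp

theorem headNe_lst (f : Nat → Bool) (s n : Nat) (h : headNe (lst f s n) = true) :
    2 ≤ n ∧ f s ≠ f (s+1) := by
  rcases n with _ | _ | n
  · simp [lst, headNe] at h
  · simp [lst, headNe] at h
  · simp only [lst, headNe] at h
    exact ⟨by omega, bx_iff.1 h⟩

theorem lastNe_lst (f : Nat → Bool) : ∀ (n s : Nat), lastNe (lst f s (n+2)) = true →
    f (s+n) ≠ f (s+n+1)
  | 0, s, h => by
      simp only [lst, lastNe] at h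
      exact bx_iff.1 h
  | n+1, s, h => by
      have h' : lastNe (lst f (s+1) (n+2)) = true := by
        simpa only [lst, lastNe] using h
      have := lastNe_lst f n (s+1) h'
      rwa [show s + 1 + n = s + (n+1) by omega] at this

theorem lst_append (f : Nat → Bool) : ∀ (n s m : Nat), lst f s n ++ lst f (s+n) m = lst f s (n+m)
  | 0, s, m => by simp [lst]
  | n+1, s, m => by
      rw [show n + 1 + m = (n + m) + 1 by omega]
      simp only [lst, List.cons_append]
      rw [← lst_append f n (s+1) m, show s + 1 + n = s + (n+1) by omega]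

theorem ext5_lst (f : Nat → Bool) (m : Nat) (hm : m = 3 ∨ 5 ≤ m) (hf : ∀ i, f (m + i) = f i) :
    ext5 (lst f 0 m) = lst f 0 (m+5) := by
  rcases hm with rfl | hm
  · have h0 := hf 0; have h1 := hf 1; have h2 := hf 2; have h3 := hf 3; have h4 := hf 4
    simp only [Nat.add_zero] at h0
    simp only [show 3 + 1 = 4 from rfl, show 3 + 2 = 5 from rfl, show 3 + 3 = 6 from rfl,
      show 3 + 4 = 7 from rfl] at h1 h2 h3 h4
    simp only [lst, ext5, Nat.zero_add, show 1 + 1 = 2 from rfl, show 2 + 1 = 3 from rfl,
      show 3 + 1 = 4 from rfl, show 4 + 1 = 5 from rfl, show 5 + 1 = 6 from rfl,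
      show 6 + 1 = 7 from rfl, h0, h1, h2, h3, h4]
  · obtain ⟨k, rfl⟩ : ∃ k, m = k + 5 := ⟨m - 5, by omega⟩
    rw [← lst_append f (k+5) 0 5]
    have h5 : lst f (0 + (k+5)) 5 = [f 0, f 1, f 2, f 3, f 4] := by
      have h0 := hf 0; have h1 := hf 1; have h2 := hf 2; have h3 := hf 3; have h4 := hf 4
      simp only [lst, Nat.zero_add, Nat.add_zero, Nat.add_assoc] at *
      simp only [h0, h1, h2, h3, h4, Nat.reduceAdd] at *
    rw [h5]
    rfl

theorem leafOK_sem {arcs : List (Nat × Nat)} {a1 : Nat} {c1 : Bool} {a2 : Nat} {c2 : Bool}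
    {S : Nat} (h : leafOK arcs a1 c1 a2 c2 S = true) :
    (c1 = true ∨ 2 ≤ a1) ∧ (c2 = true ∨ 2 ≤ a2) ∧ tb S 16 ≠ tb S 48 ∧
    (∀ p ∈ arcs, tb S p.1 ≠ tb S p.2) ∧
    (c1 = true ∨ (headNe (lst (tb S) (16 - lo a1) (2 * a1 + 1)) = true ∧
      lastNe (lst (tb S) (16 - lo a1) (2 * a1 + 1)) = true)) ∧
    (c2 = true ∨ (headNe (lst (tb S) (48 - lo a2) (2 * a2 + 1)) = true ∧
      lastNe (lst (tb S) (48 - lo a2) (2 * a2 + 1)) = true)) ∧
    cntW p5 (2 * a1 + 1) (extC c1 (lst (tb S) (16 - lo a1) (2 * a1 + 1))) = 0 ∧
    cntW p5 (2 * a2 + 1) (extC c2 (lst (tb S) (48 - lo a2) (2 * a2 + 1))) = 0 ∧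
    cntW p3t (2 * a1 + 1) (extC c1 (lst (tb S) (16 - lo a1) (2 * a1 + 1))) +
      cntW p3t (2 * a2 + 1) (extC c2 (lst (tb S) (48 - lo a2) (2 * a2 + 1))) =
    cntW p3f (2 * a1 + 1) (extC c1 (lst (tb S) (16 - lo a1) (2 * a1 + 1))) +
      cntW p3f (2 * a2 + 1) (extC c2 (lst (tb S) (48 - lo a2) (2 * a2 + 1))) ∧
    cntW p4t (2 * a1 + 1) (extC c1 (lst (tb S) (16 - lo a1) (2 * a1 + 1))) +
      cntW p4t (2 * a2 + 1) (extC c2 (lst (tb S) (48 - lo a2) (2 * a2 + 1))) =
    cntW p4f (2 * a1 + 1) (extC c1 (lst (tb S) (16 - lo a1) (2 * a1 + 1))) +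
      cntW p4f (2 * a2 + 1) (extC c2 (lst (tb S) (48 - lo a2) (2 * a2 + 1))) := by
  unfold leafOK at h
  rw [and4_iff] at h
  obtain ⟨h1, h2, h3, h4, h5⟩ := h
  rw [bitsK_eq, bitsK_eq, and2_iff] at h5
  obtain ⟨h6, h7, h8⟩ := h5
  obtain ⟨h9, h10⟩ := scan_sem _ _ _ _ _ _ _ h8
  obtain ⟨h11, h12⟩ := scan_sem _ _ _ _ _ _ _ h10
  simp only [Nat.zero_add, Bool.and_eq_true, Bool.or_eq_true] at *
  refine ⟨?_, ?_, bx_iff.1 h3, arcsOK_sem h4, h6, h7, h9, h11, Nat.eq_of_beq_eq_true h12.1,
    Nat.eq_of_beq_eq_true h12.2⟩
  · rcases h1 with h | h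
    · exact Or.inl h
    · exact Or.inr (Nat.le_of_ble_eq_true h)
  · rcases h2 with h | h
    · exact Or.inl h
    · exact Or.inr (Nat.le_of_ble_eq_true h)

theorem allLeaf_sem {arcs : List (Nat × Nat)} {a1 : Nat} {c1 : Bool} {a2 : Nat} {c2 : Bool} :
    ∀ {Ss : List Nat}, allLeaf arcs a1 c1 a2 c2 Ss = true →
      ∀ S ∈ Ss, leafOK arcs a1 c1 a2 c2 S = true
  | [], _ => by simp
  | T :: t, h => by
      simp only [allLeaf] at h
      cases hb : leafOK arcs a1 c1 a2 c2 T with
      | false => rw [hb] at h; simp at h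
      | true =>
        rw [hb] at h
        intro S hS
        rcases List.mem_cons.1 hS with rfl | hS
        · exact hb
        · exact allLeaf_sem h S hS

theorem covered_sem {w u : Nat} : ∀ {Ss : List Nat}, covered w u Ss = true →
    ∃ S ∈ Ss, tb S u ≠ tb S w
  | [], h => by simp [covered] at h
  | T :: t, h => by
      simp only [covered] at h
      cases hb : bx (tb T u) (tb T w) with
      | true => exact ⟨T, by simp, bx_iff.1 hb⟩
      | false =>
        rw [hb] at h
        obtain ⟨S, hS, h'⟩ := covered_sem h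
        exact ⟨S, by simp [hS], h'⟩

theorem kids_left {w w' : Nat} {Ss : List Nat} : ∀ {pre : List (Nat × Nat)} {u v : Nat}
    {t : List (Nat × Nat)}, covered w u Ss = false →
    pre ++ (u, w) :: (w', v) :: t ∈ kids w w' Ss (pre ++ (u, v) :: t)
  | [], u, v, t, h => by
      simp only [List.nil_append, kids]
      rw [h]
      cases covered w v Ss <;> simp
  | (x, y) :: pre, u, v, t, h => by
      have IH := kids_left (w := w) (w' := w') (Ss := Ss) (pre := pre) (v := v) (t := t) h
      simp only [List.cons_append, kids]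
      cases covered w x Ss <;> cases covered w y Ss <;> simp [IH]

theorem kids_right {w w' : Nat} {Ss : List Nat} : ∀ {pre : List (Nat × Nat)} {u v : Nat}
    {t : List (Nat × Nat)}, covered w v Ss = false →
    pre ++ (u, w') :: (w, v) :: t ∈ kids w w' Ss (pre ++ (u, v) :: t)
  | [], u, v, t, h => by
      simp only [List.nil_append, kids]
      rw [h]
      cases covered w u Ss <;> simp
  | (x, y) :: pre, u, v, t, h => by
      have IH := kids_right (w := w) (w' := w') (Ss := Ss) (pre := pre) (u := u) (t := t) h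
      simp only [List.cons_append, kids]
      cases covered w x Ss <;> cases covered w y Ss <;> simp [IH]

end Pool.Agent.Helper827_ando
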