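import Mathlib
import Pool.Agent.Helper827_ando.ListSem

namespace Pool.Agent.Helper827_ando

/-- properties shared by the five patterns -/
structure Pat (P : List Bool → Bool) : Prop where
  short : ∀ L : List Bool, L.length < 5 → P L = false
  trip : ∀ a b c d e f : Bool, P [a, b, c, d, e, f] = true → b = c ∧ c = d
  five : ∀ a b c d e f : Bool, d ≠ e → P [a, b, c, d, e, f] = P [a, b, c, d, e]
  loc : ∀ (a b c d e f : Bool) (t : List Bool),
    P (a :: b :: c :: d :: e :: f :: t) = P [a, b, c, d, e, f]

theorem pat5 : Pat p5 where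
  short := p5_short
  trip := by decide
  five := by decide
  loc := by intro a b c d e f t; cases a <;> cases b <;> cases c <;> cases d <;> cases e <;> rfl

theorem pat3t : Pat p3t where
  short := p3t_short
  trip := by decide
  five := by decide
  loc := by intro a b c d e f t; cases a <;> cases b <;> cases c <;> cases d <;> cases e <;> rfl

theorem pat3f : Pat p3f where
  short := p3f_short
  trip := by decide
  five := by decide
  loc := by intro a b c d e f t; cases a <;> cases b <;> cases c <;> cases d <;> cases e <;> rfl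

theorem pat4t : Pat p4t where
  short := fun L h => p4t_short L (by omega)
  trip := by decide
  five := by decide
  loc := by
    intro a b c d e f t
    cases a <;> cases b <;> cases c <;> cases d <;> cases e <;> cases f <;> rfl

theorem pat4f : Pat p4f where
  short := fun L h => p4f_short L (by omega)
  trip := by decide
  five := by decide
  loc := by
    intro a b c d e f t
    cases a <;> cases b <;> cases c <;> cases d <;> cases e <;> cases f <;> rfl

theorem cntW_eq_sum (P : List Bool → Bool) (hP : P [] = false) : ∀ (n : ℕ) (L : List Bool),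
    cntW P n L = ∑ i ∈ Finset.range n, if P (L.drop i) = true then 1 else 0
  | 0, L => by simp [cntW]
  | n+1, [] => by simp [cntW, hP]
  | n+1, a :: t => by
      rw [Finset.sum_range_succ']
      simp only [cntW, List.drop_succ_cons, List.drop_zero]
      rw [cntW_eq_sum P hP n t, add_comm]

theorem lst_drop (f : ℕ → Bool) : ∀ (i s n : ℕ), (lst f s n).drop i = lst f (s + i) (n - i)
  | 0, s, n => by simp
  | i+1, s, 0 => by simp [lst]
  | i+1, s, n+1 => by
      simp only [lst, List.drop_succ_cons]
      rw [lst_drop f i (s+1) n, show s + 1 + i = s + (i+1) by omega,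
        show n + 1 - (i+1) = n - i by omega]

theorem Pat.lst6 {P : List Bool → Bool} (hP : Pat P) (f : ℕ → Bool) (s n : ℕ) :
    P (lst f s (n + 6)) = P (lst f s 6) := by
  simp only [lst]
  exact hP.loc _ _ _ _ _ _ _

theorem lst6_eq (f : ℕ → Bool) (s : ℕ) :
    lst f s 6 = [f s, f (s+1), f (s+2), f (s+3), f (s+4), f (s+5)] := by
  simp only [lst, Nat.add_assoc, Nat.reduceAdd]

theorem lst5_eq (f : ℕ → Bool) (s : ℕ) :
    lst f s 5 = [f s, f (s+1), f (s+2), f (s+3), f (s+4)] := by
  simp only [lst, Nat.add_assoc, Nat.reduceAdd]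

theorem Pat.trip6 {P : List Bool → Bool} (hP : Pat P) (f : ℕ → Bool) (s : ℕ)
    (h : P (lst f s 6) = true) : f (s+1) = f (s+2) ∧ f (s+2) = f (s+3) := by
  rw [lst6_eq] at h
  exact hP.trip _ _ _ _ _ _ h

theorem cyc_win {P : List Bool → Bool} (hP : Pat P) (f : ℕ → Bool) (h a : ℕ) (c : Bool)
    (hf : ∀ i, f (2 * h + 1 + i) = f i) (hh : 1 ≤ h)
    (hc : c = true → a = h)
    (ho : c = false → a ≤ h ∧ 2 ≤ a ∧ headNe (lst f 0 (2 * a + 1)) = true ∧
      lastNe (lst f 0 (2 * a + 1)) = true ∧ ∀ k, k < h - a → f (2*a+1+2*k) ≠ f (2*a+2+2*k))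
    (i : ℕ) (hi : i < 2 * h + 1) :
    P (lst f i 6) = true ↔ i < 2 * a + 1 ∧ P ((extC c (lst f 0 (2 * a + 1))).drop i) = true := by
  cases c with
  | true =>
    have ha := hc rfl
    subst ha
    simp only [extC]
    rw [ext5_lst f (2*a+1) (by omega) hf, lst_drop, Nat.zero_add]
    have : 2 * a + 1 + 5 - i = (2 * a - i) + 6 := by omega
    rw [this, hP.lst6 f i (2 * a - i)]
    constructor
    · intro h; exact ⟨hi, h⟩
    · intro h; exact h.2
  | false =>
    obtain ⟨h1, h2, h3, h4, h5⟩ := ho rfl
    simp only [extC]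
    rw [lst_drop, Nat.zero_add]
    have hhead := (headNe_lst f 0 _ h3).2
    have hlast : f (2*a-1) ≠ f (2*a) := by
      have := lastNe_lst f (2*a-1) 0 (by rwa [show 2*a-1+2 = 2*a+1 by omega])
      rwa [Nat.zero_add, show 2*a-1+1 = 2*a by omega] at this
    by_cases c1 : i + 6 ≤ 2 * a + 1
    · obtain ⟨k, hk⟩ : ∃ k, 2 * a + 1 - i = k + 6 := ⟨2*a+1-i-6, by omega⟩
      rw [hk, hP.lst6 f i k]
      exact ⟨fun h => ⟨by omega, h⟩, fun h => h.2⟩
    · by_cases c2 : i + 5 = 2 * a + 1
      · rw [show 2 * a + 1 - i = 5 by omega, lst6_eq, lst5_eq, hP.five]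
        · exact ⟨fun h => ⟨by omega, h⟩, fun h => h.2⟩
        · rwa [show i + 3 = 2 * a - 1 by omega, show i + 4 = 2 * a by omega]
      · constructor
        · intro hp
          exfalso
          obtain ⟨e1, e2⟩ := hP.trip6 f i hp
          by_cases c3 : i + 2 = 2 * a - 1
          · apply hlast
            rwa [show 2*a-1 = i+2 by omega, show 2*a = i + 3 by omega]
          by_cases c4 : i + 1 = 2 * a - 1
          · apply hlast
            rwa [show 2*a-1 = i+1 by omega, show 2*a = i + 2 by omega]
          -- now i + 1 ≥ 2 * a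
          have c5 : 2 * a ≤ i + 1 := by omega
          by_cases c6 : i + 3 ≤ 2 * h
          · rcases Nat.even_or_odd' i with ⟨k, hk | hk⟩
            · -- i even, i+1 odd : pair (i+1, i+2)
              apply h5 (k - a) (by omega)
              rwa [show 2*a+1+2*(k-a) = i + 1 by omega, show 2*a+2+2*(k-a) = i + 2 by omega]
            · -- i odd, pair (i+2,i+3)
              apply h5 (k + 1 - a) (by omega)
              rwa [show 2*a+1+2*(k+1-a) = i + 2 by omega, show 2*a+2+2*(k+1-a) = i + 3 by omega]
          · by_cases c7 : i + 2 = 2 * h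
            · apply h5 (h - 1 - a) (by omega)
              rwa [show 2*a+1+2*(h-1-a) = i + 1 by omega, show 2*a+2+2*(h-1-a) = i + 2 by omega]
            · have f0 := hf 0
              have f1 := hf 1
              simp only [Nat.add_zero] at f0
              by_cases c8 : i + 1 = 2 * h
              · apply hhead
                rw [← f0, ← f1]
                simpa only [show 2*h+1 = i + 2 by omega, show i + 2 + 1 = i + 3 by omega] using e2
              · apply hhead
                rw [← f0, ← f1]
                simpa only [show 2*h+1 = i + 1 by omega, show i + 1 + 1 = i + 2 by omega] using e1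
        · rintro ⟨h6, h7⟩
          exfalso
          rw [hP.short _ (by rw [lst_length]; omega)] at h7
          exact absurd h7 (by simp)

theorem cyc_count {P : List Bool → Bool} (hP : Pat P) (f : ℕ → Bool) (h a : ℕ) (c : Bool)
    (hf : ∀ i, f (2 * h + 1 + i) = f i) (hh : 1 ≤ h)
    (hc : c = true → a = h)
    (ho : c = false → a ≤ h ∧ 2 ≤ a ∧ headNe (lst f 0 (2 * a + 1)) = true ∧
      lastNe (lst f 0 (2 * a + 1)) = true ∧ ∀ k, k < h - a → f (2*a+1+2*k) ≠ f (2*a+2+2*k)) :
    (∑ i ∈ Finset.range (2 * h + 1), if P (lst f i 6) = true then 1 else 0) =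
      cntW P (2 * a + 1) (extC c (lst f 0 (2 * a + 1))) := by
  rw [cntW_eq_sum P (hP.short [] (by simp))]
  have hle : a ≤ h := by
    cases c with
    | true => exact (hc rfl).le
    | false => exact (ho rfl).1
  symm
  apply Finset.sum_subset_zero_on_sdiff
  · intro x hx
    rw [Finset.mem_range] at hx ⊢
    omega
  · intro x hx
    rw [Finset.mem_sdiff, Finset.mem_range, Finset.mem_range] at hx
    rw [if_neg]
    rw [cyc_win hP f h a c hf hh hc ho x hx.1]
    exact fun h => hx.2 h.1
  · intro x hx
    rw [Finset.mem_range] at hx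
    have := cyc_win hP f h a c hf hh hc ho x (by omega)
    simp only [this, hx, true_and]

end Pool.Agent.Helper827_ando
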