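import Mathlib
import Pool.Agent.Helper827_ando.Windows
import Pool.Agent.Helper827_ando.Inst
import Pool.Agent.Helper827_ando.Real

namespace Pool.Agent.Helper827_ando

variable {V : Type*}

/-- the colours of six consecutive vertices -/
def win (σ : Equiv.Perm V) (c : V → Bool) (x : V) : List Bool :=
  lst (fun n : ℕ => c ((σ ^ n) x)) 0 6

/-- the colourings we look for -/
structure Good [Fintype V] (σ : Equiv.Perm V) (μ : V → V) (c : V → Bool) : Prop where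
  opp : ∀ x, c (μ x) ≠ c x
  no5 : ∀ x, p5 (win σ c x) = false
  three : (∑ x, if p3t (win σ c x) = true then 1 else 0) =
    ∑ x, if p3f (win σ c x) = true then 1 else 0
  four : (∑ x, if p4t (win σ c x) = true then 1 else 0) =
    ∑ x, if p4f (win σ c x) = true then 1 else 0

/-- the vertex with a given identifier -/
def iot (σ : Equiv.Perm V) (v1 v2 : V) (u : ℕ) : V :=
  if u < 32 then (σ ^ ((u : ℤ) - 16)) v1 else (σ ^ ((u : ℤ) - 48)) v2

/-- the identifiers of the known vertices -/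
def Known (a1 a2 u : ℕ) : Prop :=
  (16 ≤ u + lo a1 ∧ u ≤ 16 + hi a1) ∨ (48 ≤ u + lo a2 ∧ u ≤ 48 + hi a2)

theorem lo_le {a : ℕ} (h : a ≤ 10) : lo a ≤ 10 := by unfold lo; omega
theorem hi_le {a : ℕ} (h : a ≤ 10) : hi a ≤ 10 := by unfold hi; omega

theorem iot_mem {σ : Equiv.Perm V} {v1 v2 : V} {a1 a2 u : ℕ} (ha1 : a1 ≤ 10) (ha2 : a2 ≤ 10)
    (h : Known a1 a2 u) : iot σ v1 v2 u ∈ KK σ v1 v2 a1 a2 := by
  have l1 := lo_le ha1
  have l2 := lo_le ha2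
  have l3 := hi_le ha1
  have l4 := hi_le ha2
  unfold iot
  rcases h with ⟨h1, h2⟩ | ⟨h1, h2⟩
  · rw [if_pos (by omega)]
    exact Or.inl ⟨_, by omega, by omega, rfl⟩
  · rw [if_neg (by omega)]
    exact Or.inr ⟨_, by omega, by omega, rfl⟩

theorem iot_surj {σ : Equiv.Perm V} {v1 v2 : V} {a1 a2 : ℕ} (ha1 : a1 ≤ 10) (ha2 : a2 ≤ 10)
    {x : V} (h : x ∈ KK σ v1 v2 a1 a2) : ∃ u, Known a1 a2 u ∧ iot σ v1 v2 u = x := by
  have l1 := lo_le ha1
  have l2 := lo_le ha2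
  have l3 := hi_le ha1
  have l4 := hi_le ha2
  unfold iot
  rcases h with ⟨i, h1, h2, rfl⟩ | ⟨i, h1, h2, rfl⟩
  · refine ⟨(i + 16).toNat, Or.inl ⟨by omega, by omega⟩, ?_⟩
    rw [if_pos (by omega)]
    congr 2
    omega
  · refine ⟨(i + 48).toNat, Or.inr ⟨by omega, by omega⟩, ?_⟩
    rw [if_neg (by omega)]
    congr 2
    omega

theorem Inst.iot_inj {σ : Equiv.Perm V} {μ ν : V → V} {v1 v2 : V} {h1 h2 : ℕ} {m0 : V → V}
    (I : Inst σ μ ν v1 v2 h1 h2 m0) {a1 a2 : ℕ} (ha1 : a1 ≤ 10) (ha2 : a2 ≤ 10)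
    (hl1 : a1 ≤ h1) (hl2 : a2 ≤ h2) {u u' : ℕ} (hu : Known a1 a2 u) (hu' : Known a1 a2 u')
    (e : iot σ v1 v2 u = iot σ v1 v2 u') : u = u' := by
  have l1 := lo_le ha1
  have l2 := lo_le ha2
  have l3 := hi_le ha1
  have l4 := hi_le ha2
  have l5 := lo_add_hi a1
  have l6 := lo_add_hi a2
  unfold iot at e
  rcases hu with ⟨h1, h2⟩ | ⟨h1, h2⟩ <;> rcases hu' with ⟨h3, h4⟩ | ⟨h3, h4⟩
  · rw [if_pos (by omega), if_pos (by omega)] at e
    have := I.cyc1.inj (by omega) (by omega) e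
    omega
  · rw [if_pos (by omega), if_neg (by omega)] at e
    exact absurd e (I.disj _ _)
  · rw [if_neg (by omega), if_pos (by omega)] at e
    exact absurd e.symm (I.disj _ _)
  · rw [if_neg (by omega), if_neg (by omega)] at e
    have := I.cyc2.inj (by omega) (by omega) e
    omega

theorem Cyc.exists_pos {σ : Equiv.Perm V} {ν : V → V} {v : V} {h : ℕ} (C : Cyc σ ν v h)
    (s : ℕ) (i : ℤ) : ∃ n : ℕ, n < 2 * h + 1 ∧ (σ ^ ((n : ℤ) - s)) v = (σ ^ i) v := by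
  refine ⟨((i + s) % ((2 * h + 1 : ℕ) : ℤ)).toNat, ?_, ?_⟩
  · have h1 := Int.emod_nonneg (i + s) (show ((2 * h + 1 : ℕ) : ℤ) ≠ 0 by omega)
    have h2 := Int.emod_lt_of_pos (i + s) (show (0 : ℤ) < ((2 * h + 1 : ℕ) : ℤ) by omega)
    omega
  · rw [C.per]
    have h1 := Int.emod_nonneg (i + s) (show ((2 * h + 1 : ℕ) : ℤ) ≠ 0 by omega)
    rw [Int.toNat_of_nonneg h1]
    have := Int.mul_ediv_add_emod (i + s) ((2 * h + 1 : ℕ) : ℤ)
    refine ⟨-((i + s) / ((2 * h + 1 : ℕ) : ℤ)), ?_⟩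
    rw [mul_neg]
    linarith

/-- sum over the vertices of a cycle -/
theorem Cyc.inj_pos {σ : Equiv.Perm V} {ν : V → V} {v : V} {h : ℕ} (C : Cyc σ ν v h)
    (s : ℕ) : Set.InjOn (fun n : ℕ => (σ ^ ((n : ℤ) - s)) v) (Finset.range (2 * h + 1) : Set ℕ) := by
  intro a ha b hb e
  simp only [Finset.coe_range, Set.mem_Iio] at ha hb
  have := C.inj (by omega) (by omega) e
  omega

theorem Inst.sum_eq [Fintype V] [DecidableEq V] {σ : Equiv.Perm V} {μ ν : V → V} {v1 v2 : V}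
    {h1 h2 : ℕ} {m0 : V → V} (I : Inst σ μ ν v1 v2 h1 h2 m0) (s1 s2 : ℕ) (F : V → ℕ)
    (hF : ∀ x, (∀ i : ℤ, (σ ^ i) v1 ≠ x) → (∀ i : ℤ, (σ ^ i) v2 ≠ x) → F x = 0) :
    ∑ x, F x = ∑ n ∈ Finset.range (2 * h1 + 1), F ((σ ^ ((n : ℤ) - s1)) v1) +
      ∑ n ∈ Finset.range (2 * h2 + 1), F ((σ ^ ((n : ℤ) - s2)) v2) := by
  classical
  rw [← Finset.sum_image (f := F) (I.cyc1.inj_pos s1), ← Finset.sum_image (f := F) (I.cyc2.inj_pos s2),
    ← Finset.sum_union]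
  · symm
    apply Finset.sum_subset (Finset.subset_univ _)
    intro x _ hx
    apply hF
    · rintro i rfl
      obtain ⟨n, hn, e⟩ := I.cyc1.exists_pos s1 i
      apply hx
      rw [Finset.mem_union, Finset.mem_image]
      exact Or.inl ⟨n, by simpa using hn, e⟩
    · rintro i rfl
      obtain ⟨n, hn, e⟩ := I.cyc2.exists_pos s2 i
      apply hx
      rw [Finset.mem_union, Finset.mem_image, Finset.mem_image]
      exact Or.inr ⟨n, by simpa using hn, e⟩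
  · rw [Finset.disjoint_left]
    intro x hx hx'
    rw [Finset.mem_image] at hx hx'
    obtain ⟨n, _, e⟩ := hx
    obtain ⟨n', _, e'⟩ := hx'
    exact I.disj _ _ (e.trans e'.symm)

theorem win_eq (σ : Equiv.Perm V) (c : V → Bool) (v : V) (s n : ℕ) :
    win σ c ((σ ^ ((n : ℤ) - s)) v) = lst (fun n : ℕ => c ((σ ^ ((n : ℤ) - s)) v)) n 6 := by
  unfold win
  apply lst_congr
  intro i _
  congr 1
  rw [← zpow_natCast, ← Equiv.Perm.mul_apply, ← zpow_add]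
  congr 2
  push_cast
  ring

/-- data of a leaf on one cycle -/
theorem Cyc.leaf {σ : Equiv.Perm V} {ν : V → V} {v : V} {h : ℕ} (C : Cyc σ ν v h)
    {a : ℕ} (ha : a ≤ h) {f : Bool} (hf : f = true → a = h) (h2 : f = true ∨ 2 ≤ a)
    {c : V → Bool} (hν : ∀ x, (∃ i : ℤ, x = (σ ^ i) v) → x ∉ Kc σ v a → c (ν x) ≠ c x)
    (hends : f = true ∨ (headNe (lst (fun n : ℕ => c ((σ ^ ((n : ℤ) - lo a)) v)) 0 (2 * a + 1)) = true ∧
      lastNe (lst (fun n : ℕ => c ((σ ^ ((n : ℤ) - lo a)) v)) 0 (2 * a + 1)) = true))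
    {P : List Bool → Bool} (hP : Pat P) :
    (∑ i ∈ Finset.range (2 * h + 1), if P (win σ c ((σ ^ ((i : ℤ) - lo a)) v)) = true then 1 else 0) =
      cntW P (2 * a + 1) (extC f (lst (fun n : ℕ => c ((σ ^ ((n : ℤ) - lo a)) v)) 0 (2 * a + 1))) := by
  have key := cyc_count hP (fun n : ℕ => c ((σ ^ ((n : ℤ) - lo a)) v)) h a f (by
      intro i
      congr 1
      apply C.eq_of
      push_cast
      ring) C.pos hf (by
      intro hff
      rw [hff] at h2 hends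
      simp only [Bool.false_eq_true, false_or] at h2 hends
      refine ⟨ha, h2, hends.1, hends.2, ?_⟩
      intro k hk
      have l1 := lo_add_hi a
      obtain ⟨n1, n2⟩ := C.nu (a / 2 + k) (by omega)
      have hh : hi a = 2 * (a / 2) := rfl
      have e1 : (((2 * a + 1 + 2 * k : ℕ) : ℤ) - lo a) = 2 * ((a / 2 + k : ℕ) : ℤ) + 1 := by
        omega
      have e2 : (((2 * a + 2 + 2 * k : ℕ) : ℤ) - lo a) = 2 * ((a / 2 + k : ℕ) : ℤ) + 2 := by
        omega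
      simp only [e1, e2]
      have := hν ((σ ^ (2 * ((a / 2 + k : ℕ) : ℤ) + 1)) v) ⟨_, rfl⟩ (by
        rintro ⟨i, i1, i2, e⟩
        have := C.inj (by omega) (by omega) e
        omega)
      rw [n1] at this
      exact this.symm)
  rw [← key]
  apply Finset.sum_congr rfl
  intro i _
  rw [win_eq]

theorem Cyc.leaf_no5 {σ : Equiv.Perm V} {ν : V → V} {v : V} {h : ℕ} (C : Cyc σ ν v h) (s : ℕ)
    {c : V → Bool} (h0 : (∑ i ∈ Finset.range (2 * h + 1),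
      if p5 (win σ c ((σ ^ ((i : ℤ) - s)) v)) = true then 1 else 0) = 0) (i : ℤ) :
    p5 (win σ c ((σ ^ i) v)) = false := by
  obtain ⟨n, hn, e⟩ := C.exists_pos s i
  rw [Finset.sum_eq_zero_iff] at h0
  have := h0 n (by simpa using hn)
  rw [← e]
  by_contra hcon
  rw [Bool.not_eq_false] at hcon
  rw [if_pos hcon] at this
  exact absurd this (by simp)

/-- a signing of the known vertices with the leaf properties gives a good colouring -/
theorem Inst.leaf [Fintype V] [DecidableEq V] {σ : Equiv.Perm V} {μ ν : V → V} {v1 v2 : V}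
    {h1 h2 : ℕ} {m0 : V → V} (I : Inst σ μ ν v1 v2 h1 h2 m0) {a1 a2 : ℕ} {c1 c2 : Bool}
    (ha1 : a1 ≤ 10) (ha2 : a2 ≤ 10) (hl1 : a1 ≤ h1) (hl2 : a2 ≤ h2)
    (hc1 : c1 = true → a1 = h1) (hc2 : c2 = true → a2 = h2) {m : V → V}
    (hE : Ext μ ν (KK σ v1 v2 a1 a2) m) (hm : m v1 = v2)
    {arcs : List (ℕ × ℕ)} (R : Real (iot σ v1 v2) (Known a1 a2) (KK σ v1 v2 a1 a2) v1 v2 m arcs)
    {S : ℕ}
    (k1 : c1 = true ∨ 2 ≤ a1) (k2 : c2 = true ∨ 2 ≤ a2) (k3 : tb S 16 ≠ tb S 48)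
    (k4 : ∀ p ∈ arcs, tb S p.1 ≠ tb S p.2)
    (k5 : c1 = true ∨ (headNe (lst (tb S) (16 - lo a1) (2 * a1 + 1)) = true ∧
      lastNe (lst (tb S) (16 - lo a1) (2 * a1 + 1)) = true))
    (k6 : c2 = true ∨ (headNe (lst (tb S) (48 - lo a2) (2 * a2 + 1)) = true ∧
      lastNe (lst (tb S) (48 - lo a2) (2 * a2 + 1)) = true))
    (k7 : cntW p5 (2 * a1 + 1) (extC c1 (lst (tb S) (16 - lo a1) (2 * a1 + 1))) = 0)
    (k8 : cntW p5 (2 * a2 + 1) (extC c2 (lst (tb S) (48 - lo a2) (2 * a2 + 1))) = 0)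
    (k9 : cntW p3t (2 * a1 + 1) (extC c1 (lst (tb S) (16 - lo a1) (2 * a1 + 1))) +
      cntW p3t (2 * a2 + 1) (extC c2 (lst (tb S) (48 - lo a2) (2 * a2 + 1))) =
    cntW p3f (2 * a1 + 1) (extC c1 (lst (tb S) (16 - lo a1) (2 * a1 + 1))) +
      cntW p3f (2 * a2 + 1) (extC c2 (lst (tb S) (48 - lo a2) (2 * a2 + 1))))
    (k10 : cntW p4t (2 * a1 + 1) (extC c1 (lst (tb S) (16 - lo a1) (2 * a1 + 1))) +
      cntW p4t (2 * a2 + 1) (extC c2 (lst (tb S) (48 - lo a2) (2 * a2 + 1))) =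
    cntW p4f (2 * a1 + 1) (extC c1 (lst (tb S) (16 - lo a1) (2 * a1 + 1))) +
      cntW p4f (2 * a2 + 1) (extC c2 (lst (tb S) (48 - lo a2) (2 * a2 + 1)))) :
    ∃ c : V → Bool, Good σ μ c := by
  classical
  have l1 := lo_le ha1
  have l2 := lo_le ha2
  have l3 := hi_le ha1
  have l4 := hi_le ha2
  have l5 := lo_add_hi a1
  have l6 := lo_add_hi a2
  obtain ⟨hE1, hE2⟩ := hE
  let col : V → Bool := fun x =>
    if h : ∃ u, Known a1 a2 u ∧ iot σ v1 v2 u = x then tb S h.choose else false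
  have hcol : ∀ u, Known a1 a2 u → col (iot σ v1 v2 u) = tb S u := by
    intro u hu
    have hex : ∃ u', Known a1 a2 u' ∧ iot σ v1 v2 u' = iot σ v1 v2 u := ⟨u, hu, rfl⟩
    simp only [col, dif_pos hex]
    rw [I.iot_inj ha1 ha2 hl1 hl2 hex.choose_spec.1 hu hex.choose_spec.2]
  have K16 : Known a1 a2 16 := Or.inl ⟨by omega, by omega⟩
  have K48 : Known a1 a2 48 := Or.inr ⟨by omega, by omega⟩
  have i16 : iot σ v1 v2 16 = v1 := by simp [iot]
  have i48 : iot σ v1 v2 48 = v2 := by simp [iot]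
  have hcv1 : col v1 = tb S 16 := by rw [← hcol 16 K16, i16]
  have hcv2 : col v2 = tb S 48 := by rw [← hcol 48 K48, i48]
  have hm2 : m v2 = v1 := by rw [← hm]; exact (hE1 v1 (v1_mem _ _)).2.2
  obtain ⟨c, hc, hμ, hν⟩ := hE2 col (by
    intro x hx
    rcases R.cov x hx with rfl | rfl | ⟨p, hp, h⟩
    · rw [hm, hcv1, hcv2]; exact k3.symm
    · rw [hm2, hcv1, hcv2]; exact k3
    · have hf := R.fwd p hp
      have hs := R.sub p hp
      rcases h with rfl | rfl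
      · rw [hf.1, hcol _ hs.1, hcol _ hs.2]; exact (k4 p hp).symm
      · rw [hf.2, hcol _ hs.1, hcol _ hs.2]; exact k4 p hp)
  have hcu : ∀ u, Known a1 a2 u → c (iot σ v1 v2 u) = tb S u := by
    intro u hu
    rw [hc _ (iot_mem ha1 ha2 hu), hcol u hu]
  -- the lists of known colours
  have L1 : lst (tb S) (16 - lo a1) (2 * a1 + 1) =
      lst (fun n : ℕ => c ((σ ^ ((n : ℤ) - lo a1)) v1)) 0 (2 * a1 + 1) := by
    apply lst_congr
    intro i hi'
    rw [← hcu (16 - lo a1 + i) (Or.inl ⟨by omega, by omega⟩)]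
    unfold iot
    rw [if_pos (by omega)]
    congr 3
    omega
  have L2 : lst (tb S) (48 - lo a2) (2 * a2 + 1) =
      lst (fun n : ℕ => c ((σ ^ ((n : ℤ) - lo a2)) v2)) 0 (2 * a2 + 1) := by
    apply lst_congr
    intro i hi'
    rw [← hcu (48 - lo a2 + i) (Or.inr ⟨by omega, by omega⟩)]
    unfold iot
    rw [if_neg (by omega)]
    congr 3
    omega
  rw [L1] at k5 k7 k9 k10
  rw [L2] at k6 k8 k9 k10
  have nu1 : ∀ x, (∃ i : ℤ, x = (σ ^ i) v1) → x ∉ Kc σ v1 a1 → c (ν x) ≠ c x := by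
    rintro x ⟨i, rfl⟩ hx
    apply hν
    rintro (h | h)
    · exact hx h
    · exact Kc_ne_right I _ _ h
  have nu2 : ∀ x, (∃ i : ℤ, x = (σ ^ i) v2) → x ∉ Kc σ v2 a2 → c (ν x) ≠ c x := by
    rintro x ⟨i, rfl⟩ hx
    apply hν
    rintro (h | h)
    · exact Kc_ne_left I _ _ h
    · exact hx h
  have S1 : ∀ {P : List Bool → Bool}, Pat P → _ := fun {P} hP =>
    I.cyc1.leaf hl1 hc1 k1 nu1 k5 hP
  have S2 : ∀ {P : List Bool → Bool}, Pat P → _ := fun {P} hP =>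
    I.cyc2.leaf hl2 hc2 k2 nu2 k6 hP
  -- outside
  have out : ∀ x, (∀ i : ℤ, (σ ^ i) v1 ≠ x) → (∀ i : ℤ, (σ ^ i) v2 ≠ x) →
      ∀ {P : List Bool → Bool}, Pat P → P (win σ c x) = false := by
    intro x hx1 hx2 P hP
    by_contra hcon
    rw [Bool.not_eq_false] at hcon
    have t := hP.trip6 _ _ hcon
    simp only [Nat.zero_add] at t
    have nK : ∀ n : ℕ, (∀ i : ℤ, (σ ^ i) v1 ≠ (σ ^ n) x) ∧ (∀ i : ℤ, (σ ^ i) v2 ≠ (σ ^ n) x) := by
      intro n
      constructor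
      · intro i e
        apply hx1 (-n + i)
        rw [zpow_add, Equiv.Perm.mul_apply, e, ← zpow_natCast, ← Equiv.Perm.mul_apply, ← zpow_add]
        simp
      · intro i e
        apply hx2 (-n + i)
        rw [zpow_add, Equiv.Perm.mul_apply, e, ← zpow_natCast, ← Equiv.Perm.mul_apply, ← zpow_add]
        simp
    have nKK : ∀ n : ℕ, c (ν ((σ ^ n) x)) ≠ c ((σ ^ n) x) := by
      intro n
      apply hν
      rintro (⟨i, _, _, e⟩ | ⟨i, _, _, e⟩)
      · exact (nK n).1 i e.symm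
      · exact (nK n).2 i e.symm
    have s1 : σ ((σ ^ 1) x) = (σ ^ 2) x := by
      rw [← Equiv.Perm.mul_apply, ← pow_succ']
    have s2 : σ ((σ ^ 2) x) = (σ ^ 3) x := by
      rw [← Equiv.Perm.mul_apply, ← pow_succ']
    rcases I.trip ((σ ^ 1) x) (nK 1).1 (nK 1).2 with e | e | e
    · rw [s1] at e
      exact nKK 1 (by rw [e]; exact t.1.symm)
    · rw [s1, s2] at e
      exact nKK 2 (by rw [e]; exact t.2.symm)
    · rw [s1, s2] at e
      exact nKK 3 (by rw [e]; exact t.1.trans t.2)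
  refine ⟨c, hμ, ?_, ?_, ?_⟩
  · intro x
    by_cases hx1 : ∀ i : ℤ, (σ ^ i) v1 ≠ x
    · by_cases hx2 : ∀ i : ℤ, (σ ^ i) v2 ≠ x
      · exact out x hx1 hx2 pat5
      · push Not at hx2
        obtain ⟨i, rfl⟩ := hx2
        exact I.cyc2.leaf_no5 (lo a2) (by rw [S2 pat5, k8]) i
    · push Not at hx1
      obtain ⟨i, rfl⟩ := hx1
      exact I.cyc1.leaf_no5 (lo a1) (by rw [S1 pat5, k7]) i
  · rw [I.sum_eq (lo a1) (lo a2) _ (fun x hx1 hx2 => by rw [out x hx1 hx2 pat3t]; simp),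
      I.sum_eq (lo a1) (lo a2) _ (fun x hx1 hx2 => by rw [out x hx1 hx2 pat3f]; simp),
      S1 pat3t, S2 pat3t, S1 pat3f, S2 pat3f]
    exact k9
  · rw [I.sum_eq (lo a1) (lo a2) _ (fun x hx1 hx2 => by rw [out x hx1 hx2 pat4t]; simp),
      I.sum_eq (lo a1) (lo a2) _ (fun x hx1 hx2 => by rw [out x hx1 hx2 pat4f]; simp),
      S1 pat4t, S2 pat4t, S1 pat4f, S2 pat4f]
    exact k10

end Pool.Agent.Helper827_ando
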