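import Mathlib
import Pool.Agent.Helper827_ando.Check

namespace Pool.Agent.Helper827_ando

/-- The proof trees verified by `check`. -/
inductive Tree : List (Nat × Nat) → Nat → Bool → Nat → Bool → Prop
  | leaf {arcs : List (Nat × Nat)} {a1 : Nat} {c1 : Bool} {a2 : Nat} {c2 : Bool} (S : Nat)
      (h : leafOK arcs a1 c1 a2 c2 S = true) : Tree arcs a1 c1 a2 c2
  | ext1 {arcs : List (Nat × Nat)} {a1 : Nat} {c1 : Bool} {a2 : Nat} {c2 : Bool}
      (w w' a1' : Nat) (Ss : List Nat)
      (hn : nextCyc a1 c1 a2 c2 = 1) (he : newEdge 16 a1 = (w, w', a1')) (h9 : a1 ≤ 9)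
      (hl : allLeaf ((w, w') :: arcs) a1' c1 a2 c2 Ss = true)
      (hclose : a1 ≠ 0 → Tree arcs a1 true a2 c2)
      (hnew : Ss = [] → Tree ((w, w') :: arcs) a1' c1 a2 c2)
      (hk : ∀ ch ∈ kids w w' Ss arcs, Tree ch a1' c1 a2 c2) : Tree arcs a1 c1 a2 c2
  | ext2 {arcs : List (Nat × Nat)} {a1 : Nat} {c1 : Bool} {a2 : Nat} {c2 : Bool}
      (w w' a2' : Nat) (Ss : List Nat)
      (hn : nextCyc a1 c1 a2 c2 = 2) (he : newEdge 48 a2 = (w, w', a2')) (h9 : a2 ≤ 9)
      (hl : allLeaf ((w, w') :: arcs) a1 c1 a2' c2 Ss = true)
      (hclose : a2 ≠ 0 → Tree arcs a1 c1 a2 true)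
      (hnew : Ss = [] → Tree ((w, w') :: arcs) a1 c1 a2' c2)
      (hk : ∀ ch ∈ kids w w' Ss arcs, Tree ch a1 c1 a2' c2) : Tree arcs a1 c1 a2 c2

theorem takeK_some : ∀ (r : Nat) (l : List Nat) (k : List Nat → List Nat → Option (List Nat))
    (x : List Nat), takeK r l k = some x → ∃ p q, p.length = r ∧ k p q = some x
  | 0, l, k, x, h => ⟨[], l, rfl, h⟩
  | r+1, [], k, x, h => by simp [takeK] at h
  | r+1, a :: l, k, x, h => by
      simp only [takeK] at h
      obtain ⟨p, q, hp, hq⟩ := takeK_some r l _ x h
      exact ⟨a :: p, q, by simp [hp], hq⟩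

theorem thread_some (f : List (Nat × Nat) → List Nat → Option (List Nat)) :
    ∀ (chs : List (List (Nat × Nat))) (r x : List Nat), thread f chs r = some x →
      ∀ ch ∈ chs, ∃ r1 r2, f ch r1 = some r2
  | [], r, x, _ => by simp
  | c :: t, r, x, h => by
      intro ch hch
      simp only [thread] at h
      cases hf : f c r with
      | none => rw [hf] at h; simp at h
      | some r' =>
        rw [hf] at h
        simp only at h
        rcases List.mem_cons.1 hch with rfl | hch
        · exact ⟨r, r', hf⟩
        · exact thread_some f t r' x h ch hch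

theorem guardB_some {b : Bool} {y : Option (List Nat)} {x : List Nat}
    (h : guardB b y = some x) : b = true ∧ y = some x := by
  cases b
  · simp [guardB] at h
  · exact ⟨rfl, h⟩

theorem bindO_some {y : Option (List Nat)} {k : List Nat → Option (List Nat)} {x : List Nat}
    (h : bindO y k = some x) : ∃ r, y = some r ∧ k r = some x := by
  cases y with
  | none => simp [bindO] at h
  | some r => exact ⟨r, rfl, h⟩

theorem tree_of_check : ∀ (n : Nat) (arcs : List (Nat × Nat)) (a1 : Nat) (c1 : Bool) (a2 : Nat)
    (c2 : Bool) (cert x : List Nat), check n arcs a1 c1 a2 c2 cert = some x →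
    Tree arcs a1 c1 a2 c2
  | 0, arcs, a1, c1, a2, c2, cert, x, h => by simp [check] at h
  | n+1, arcs, a1, c1, a2, c2, [], x, h => by simp [check] at h
  | n+1, arcs, a1, c1, a2, c2, 0 :: [], x, h => by simp [check] at h
  | n+1, arcs, a1, c1, a2, c2, 0 :: S :: rest, x, h => by
      simp only [check] at h
      exact Tree.leaf S (guardB_some h).1
  | n+1, arcs, a1, c1, a2, c2, (r+1) :: rest, x, h => by
      simp only [check] at h
      obtain ⟨Ss, rest1, hlen, h⟩ := takeK_some _ _ _ _ h
      have hcase : nextCyc a1 c1 a2 c2 = 1 ∨ nextCyc a1 c1 a2 c2 = 2 ∨ nextCyc a1 c1 a2 c2 = 0 := by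
        unfold nextCyc
        split <;> simp
      rcases hcase with hn | hn | hn
      · rw [hn] at h
        simp only at h
        rcases he : newEdge 16 a1 with ⟨w, w', a1'⟩
        rw [he] at h
        simp only at h
        obtain ⟨h9, h⟩ := guardB_some h
        obtain ⟨hl, h⟩ := guardB_some h
        obtain ⟨rest2, h0, h⟩ := bindO_some h
        have hth := thread_some _ _ _ _ h
        refine Tree.ext1 w w' a1' Ss hn he (Nat.le_of_ble_eq_true h9) hl ?_ ?_ ?_
        · intro ha
          cases a1 with
          | zero => exact absurd rfl ha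
          | succ b => exact tree_of_check n _ _ _ _ _ _ _ h0
        · intro hS
          subst hS
          simp only [List.length_nil] at hlen
          subst hlen
          obtain ⟨r1, r2, h12⟩ := hth ((w, w') :: arcs) (by simp [addNew])
          exact tree_of_check n _ _ _ _ _ _ _ h12
        · intro ch hch
          obtain ⟨r1, r2, h12⟩ := hth ch (by
            cases r with
            | zero => exact List.mem_cons_of_mem _ hch
            | succ r => exact hch)
          exact tree_of_check n _ _ _ _ _ _ _ h12
      · rw [hn] at h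
        simp only at h
        rcases he : newEdge 48 a2 with ⟨w, w', a2'⟩
        rw [he] at h
        simp only at h
        obtain ⟨h9, h⟩ := guardB_some h
        obtain ⟨hl, h⟩ := guardB_some h
        obtain ⟨rest2, h0, h⟩ := bindO_some h
        have hth := thread_some _ _ _ _ h
        refine Tree.ext2 w w' a2' Ss hn he (Nat.le_of_ble_eq_true h9) hl ?_ ?_ ?_
        · intro ha
          cases a2 with
          | zero => exact absurd rfl ha
          | succ b => exact tree_of_check n _ _ _ _ _ _ _ h0
        · intro hS
          subst hS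
          simp only [List.length_nil] at hlen
          subst hlen
          obtain ⟨r1, r2, h12⟩ := hth ((w, w') :: arcs) (by simp [addNew])
          exact tree_of_check n _ _ _ _ _ _ _ h12
        · intro ch hch
          obtain ⟨r1, r2, h12⟩ := hth ch (by
            cases r with
            | zero => exact List.mem_cons_of_mem _ hch
            | succ r => exact hch)
          exact tree_of_check n _ _ _ _ _ _ _ h12
      · rw [hn] at h
        simp at h

end Pool.Agent.Helper827_ando
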