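import Mathlib
import Pool.Agent.Helper827_ando.Tree
import Pool.Agent.Helper827_ando.Leaf

namespace Pool.Agent.Helper827_ando

variable {V : Type*}

theorem nextCyc_one {a1 : ℕ} {c1 : Bool} {a2 : ℕ} {c2 : Bool} (h : nextCyc a1 c1 a2 c2 = 1) :
    c1 = false ∧ (c2 = true ∨ a1 / 2 ≤ a2 / 2) := by
  unfold nextCyc at h
  split at h
  · exact ⟨rfl, Or.inl rfl⟩
  · rename_i h'
    exact ⟨rfl, Or.inr (Nat.le_of_ble_eq_true h')⟩
  · exact absurd h (by decide)
  · exact absurd h (by decide)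

theorem nextCyc_two {a1 : ℕ} {c1 : Bool} {a2 : ℕ} {c2 : Bool} (h : nextCyc a1 c1 a2 c2 = 2) :
    c2 = false ∧ (c1 = true ∨ ¬ a1 / 2 ≤ a2 / 2) := by
  cases c2 with
  | true => cases c1 <;> simp [nextCyc] at h
  | false =>
    refine ⟨rfl, ?_⟩
    cases c1 with
    | true => exact Or.inl rfl
    | false =>
      right
      intro hle
      simp [nextCyc, Nat.ble_eq_true_of_le hle] at h

theorem newEdge_16 {a w w' a' : ℕ} (h9 : a ≤ 9) (h : newEdge 16 a = (w, w', a')) (σ : Equiv.Perm V)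
    (v1 v2 : V) (a2 : ℕ) : a' = a + 1 ∧ iot σ v1 v2 w = (σ ^ (edge a).1) v1 ∧
      iot σ v1 v2 w' = (σ ^ (edge a).2) v1 ∧ Known (a + 1) a2 w ∧ Known (a + 1) a2 w' := by
  interval_cases a <;>
  · simp only [newEdge, Prod.mk.injEq] at h
    obtain ⟨rfl, rfl, rfl⟩ := h
    refine ⟨rfl, ?_, ?_, Or.inl (by decide), Or.inl (by decide)⟩
    · unfold iot
      rw [if_pos (by norm_num)]
      congr 2
    · unfold iot
      rw [if_pos (by norm_num)]
      congr 2

theorem newEdge_48 {a w w' a' : ℕ} (h9 : a ≤ 9) (h : newEdge 48 a = (w, w', a')) (σ : Equiv.Perm V)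
    (v1 v2 : V) (a1 : ℕ) : a' = a + 1 ∧ iot σ v1 v2 w = (σ ^ (edge a).1) v2 ∧
      iot σ v1 v2 w' = (σ ^ (edge a).2) v2 ∧ Known a1 (a + 1) w ∧ Known a1 (a + 1) w' := by
  interval_cases a <;>
  · simp only [newEdge, Prod.mk.injEq] at h
    obtain ⟨rfl, rfl, rfl⟩ := h
    refine ⟨rfl, ?_, ?_, Or.inr (by decide), Or.inr (by decide)⟩
    · unfold iot
      rw [if_neg (by norm_num)]
      congr 2
    · unfold iot
      rw [if_neg (by norm_num)]
      congr 2

theorem known_mono1 {a1 a2 u : ℕ} (h : Known a1 a2 u) : Known (a1 + 1) a2 u := by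
  unfold Known at *
  have h1 : lo a1 ≤ lo (a1 + 1) := by unfold lo; omega
  have h2 : hi a1 ≤ hi (a1 + 1) := by unfold hi; omega
  omega

theorem known_mono2 {a1 a2 u : ℕ} (h : Known a1 a2 u) : Known a1 (a2 + 1) u := by
  unfold Known at *
  have h1 : lo a2 ≤ lo (a2 + 1) := by unfold lo; omega
  have h2 : hi a2 ≤ hi (a2 + 1) := by unfold hi; omega
  omega

/-- signings from a list, at a state with new arc `w w'` -/
theorem Inst.leafS [Fintype V] [DecidableEq V] {σ : Equiv.Perm V} {μ ν : V → V} {v1 v2 : V}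
    {h1 h2 : ℕ} {m0 : V → V} (I : Inst σ μ ν v1 v2 h1 h2 m0) {a1 a2 : ℕ} {c1 c2 : Bool}
    (ha1 : a1 ≤ 10) (ha2 : a2 ≤ 10) (hl1 : a1 ≤ h1) (hl2 : a2 ≤ h2)
    (hc1 : c1 = true → a1 = h1) (hc2 : c2 = true → a2 = h2) {m : V → V}
    (hE : Ext μ ν (KK σ v1 v2 a1 a2) m) (hm : m v1 = v2)
    {arcs arcs' : List (ℕ × ℕ)}
    (R : Real (iot σ v1 v2) (Known a1 a2) (KK σ v1 v2 a1 a2) v1 v2 m arcs')
    {S : ℕ} (hS : leafOK arcs a1 c1 a2 c2 S = true)
    (harcs : (∀ p ∈ arcs, tb S p.1 ≠ tb S p.2) → ∀ p ∈ arcs', tb S p.1 ≠ tb S p.2) :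
    ∃ c : V → Bool, Good σ μ c := by
  obtain ⟨k1, k2, k3, k4, k5, k6, k7, k8, k9, k10⟩ := leafOK_sem hS
  exact I.leaf ha1 ha2 hl1 hl2 hc1 hc2 hE hm R k1 k2 k3 (harcs k4) k5 k6 k7 k8 k9 k10

/-- common step of the induction -/
theorem split_cases {w w' : ℕ} {Ss : List ℕ} {arcs pre t : List (ℕ × ℕ)} {u v : ℕ}
    (harcs : arcs = pre ++ (u, v) :: t) {Q : List (ℕ × ℕ) → Prop}
    (hQ : Q (pre ++ (u, w) :: (w', v) :: t) ∨ Q (pre ++ (u, w') :: (w, v) :: t)) :
    (∃ arcs' S, Q arcs' ∧ S ∈ Ss ∧ ((∀ p ∈ (w, w') :: arcs, tb S p.1 ≠ tb S p.2) →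
      ∀ p ∈ arcs', tb S p.1 ≠ tb S p.2)) ∨ ∃ ch ∈ kids w w' Ss arcs, Q ch := by
  subst harcs
  rcases hQ with hQ | hQ
  · by_cases hcov : covered w u Ss = true
    · left
      obtain ⟨S, hS, hne⟩ := covered_sem hcov
      refine ⟨_, S, hQ, hS, ?_⟩
      intro h p hp
      have hw := h (w, w') (by simp)
      have huv := h (u, v) (by simp)
      simp only at hw huv
      have hp' : p = (u, w) ∨ p = (w', v) ∨ p ∈ pre ∨ p ∈ t := by
        simp only [List.mem_append, List.mem_cons] at hp; tauto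
      rcases hp' with rfl | rfl | hp' | hp'
      · exact hne
      · simp only
        revert hw huv hne
        cases tb S u <;> cases tb S v <;> cases tb S w <;> cases tb S w' <;> simp
      · exact h p (by simp [hp'])
      · exact h p (by simp [hp'])
    · right
      rw [Bool.not_eq_true] at hcov
      exact ⟨_, kids_left hcov, hQ⟩
  · by_cases hcov : covered w v Ss = true
    · left
      obtain ⟨S, hS, hne⟩ := covered_sem hcov
      refine ⟨_, S, hQ, hS, ?_⟩
      intro h p hp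
      have hw := h (w, w') (by simp)
      have huv := h (u, v) (by simp)
      simp only at hw huv
      have hp' : p = (u, w') ∨ p = (w, v) ∨ p ∈ pre ∨ p ∈ t := by
        simp only [List.mem_append, List.mem_cons] at hp; tauto
      rcases hp' with rfl | rfl | hp' | hp'
      · simp only
        revert hw huv hne
        cases tb S u <;> cases tb S v <;> cases tb S w <;> cases tb S w' <;> simp
      · exact hne.symm
      · exact h p (by simp [hp'])
      · exact h p (by simp [hp'])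
    · right
      rw [Bool.not_eq_true] at hcov
      exact ⟨_, kids_right hcov, hQ⟩

theorem Inst.sound [Fintype V] [DecidableEq V] {σ : Equiv.Perm V} {μ ν : V → V} {v1 v2 : V}
    {h1 h2 : ℕ} {m0 : V → V} (I : Inst σ μ ν v1 v2 h1 h2 m0)
    {arcs : List (ℕ × ℕ)} {a1 : ℕ} {c1 : Bool} {a2 : ℕ} {c2 : Bool} (T : Tree arcs a1 c1 a2 c2) :
    a1 ≤ 10 → a2 ≤ 10 → a1 ≤ h1 → a2 ≤ h2 → (c1 = true → a1 = h1) → (c2 = true → a2 = h2) →
    Real (iot σ v1 v2) (Known a1 a2) (KK σ v1 v2 a1 a2) v1 v2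
      (mm σ v1 v2 h1 h2 m0 ((h1 - a1) + (h2 - a2)) a1 a2) arcs →
    ∃ c : V → Bool, Good σ μ c := by
  induction T with
  | leaf S h =>
    rename_i arcs a1 c1 a2 c2
    intro ha1 ha2 hl1 hl2 hc1 hc2 R
    obtain ⟨hE, hm⟩ := I.mm_ext _ a1 a2 hl1 hl2 rfl
    exact I.leafS ha1 ha2 hl1 hl2 hc1 hc2 hE hm R h (fun h => h)
  | ext1 w w' a1' Ss hn he h9 hl hclose hnew hk ih1 ih2 ih3 =>
    rename_i arcs a1 c1 a2 c2
    intro ha1 ha2 hl1 hl2 hc1 hc2 R
    by_cases hfull : a1 = h1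
    · exact ih1 (by have := I.cyc1.pos; omega) ha1 ha2 hl1 hl2 (fun _ => hfull) hc2 R
    · have hlt : a1 < h1 := by omega
      obtain ⟨hb1, hb2⟩ := nextCyc_one hn
      obtain ⟨rfl, ew, ew', kw, kw'⟩ := newEdge_16 h9 he σ v1 v2 a2
      have hf : fstNext h1 h2 a1 a2 := by
        refine ⟨hlt, ?_⟩
        rcases hb2 with h | h
        · exact Or.inl (hc2 h)
        · exact Or.inr h
      obtain ⟨hE, hm⟩ := I.mm_ext ((h1 - (a1+1)) + (h2 - a2)) (a1+1) a2 (by omega) hl2 rfl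
      have er : (h1 - a1) + (h2 - a2) = ((h1 - (a1+1)) + (h2 - a2)) + 1 := by omega
      rw [er] at R
      simp only [mm, if_pos hf] at R
      rw [← ew, ← ew'] at R
      have hnw := I.new1 (a2 := a2) hlt
      rw [← ew, ← ew'] at hnw
      have hne := I.cyc1.fst_ne_snd a1
      rw [← ew, ← ew'] at hne
      have hEK := hE
      rw [KK_succ1, ← ew, ← ew'] at hEK
      have hst := R.step hEK.1 hm (v1_mem _ _) (v2_mem _ _) hnw.1 hnw.2 hne
        (fun u hu => iot_mem ha1 ha2 hu) (fun u hu => known_mono1 hu) kw kw'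
      rw [ew, ew', ← KK_succ1] at hst
      rw [ew, ew', ← KK_succ1] at hEK
      have hl' := allLeaf_sem hl
      have hc1' : c1 = true → a1 + 1 = h1 := by rw [hb1]; intro h; exact absurd h (by simp)
      rcases hst with hst | ⟨pre, u, v, t, harcs, hst⟩
      · rcases Ss with _ | ⟨S, Ss⟩
        · exact ih2 rfl (by omega) ha2 (by omega) hl2 hc1' hc2 hst
        · exact I.leafS (by omega) ha2 (by omega) hl2 hc1' hc2 hE hm hst (hl' S (by simp))
            (fun h => h)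
      · rcases split_cases (Ss := Ss) (w := w) (w' := w') harcs hst with
          ⟨arcs', S, hQ, hS, hh⟩ | ⟨ch, hch, hQ⟩
        · exact I.leafS (by omega) ha2 (by omega) hl2 hc1' hc2 hE hm hQ (hl' S hS) hh
        · exact ih3 ch hch (by omega) ha2 (by omega) hl2 hc1' hc2 hQ
  | ext2 w w' a2' Ss hn he h9 hl hclose hnew hk ih1 ih2 ih3 =>
    rename_i arcs a1 c1 a2 c2
    intro ha1 ha2 hl1 hl2 hc1 hc2 R
    by_cases hfull : a2 = h2
    · exact ih1 (by have := I.cyc2.pos; omega) ha1 ha2 hl1 hl2 hc1 (fun _ => hfull) R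
    · have hlt : a2 < h2 := by omega
      obtain ⟨hb1, hb2⟩ := nextCyc_two hn
      obtain ⟨rfl, ew, ew', kw, kw'⟩ := newEdge_48 h9 he σ v1 v2 a1
      have hf : ¬ fstNext h1 h2 a1 a2 := by
        rintro ⟨hx, hy⟩
        rcases hb2 with h | h
        · have := hc1 h; omega
        · rcases hy with h' | h'
          · exact hfull h'
          · exact h h'
      obtain ⟨hE, hm⟩ := I.mm_ext ((h1 - a1) + (h2 - (a2 + 1))) a1 (a2+1) hl1 (by omega) rfl
      have er : (h1 - a1) + (h2 - a2) = ((h1 - a1) + (h2 - (a2 + 1))) + 1 := by omega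
      rw [er] at R
      simp only [mm, if_neg hf] at R
      rw [← ew, ← ew'] at R
      have hnw := I.new2 (a1 := a1) hlt
      rw [← ew, ← ew'] at hnw
      have hne := I.cyc2.fst_ne_snd a2
      rw [← ew, ← ew'] at hne
      have hEK := hE
      rw [KK_succ2, ← ew, ← ew'] at hEK
      have hst := R.step hEK.1 hm (v1_mem _ _) (v2_mem _ _) hnw.1 hnw.2 hne
        (fun u hu => iot_mem ha1 ha2 hu) (fun u hu => known_mono2 hu) kw kw'
      rw [ew, ew', ← KK_succ2] at hst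
      rw [ew, ew', ← KK_succ2] at hEK
      have hl' := allLeaf_sem hl
      have hc2' : c2 = true → a2 + 1 = h2 := by rw [hb1]; intro h; exact absurd h (by simp)
      rcases hst with hst | ⟨pre, u, v, t, harcs, hst⟩
      · rcases Ss with _ | ⟨S, Ss⟩
        · exact ih2 rfl ha1 (by omega) hl1 (by omega) hc1 hc2' hst
        · exact I.leafS ha1 (by omega) hl1 (by omega) hc1 hc2' hE hm hst (hl' S (by simp))
            (fun h => h)
      · rcases split_cases (Ss := Ss) (w := w) (w' := w') harcs hst with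
          ⟨arcs', S, hQ, hS, hh⟩ | ⟨ch, hch, hQ⟩
        · exact I.leafS ha1 (by omega) hl1 (by omega) hc1 hc2' hE hm hQ (hl' S hS) hh
        · exact ih3 ch hch ha1 (by omega) hl1 (by omega) hc1 hc2' hQ

end Pool.Agent.Helper827_ando
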