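import Mathlib
import Pool.Agent.Helper827_ando.CertOk
import Pool.Agent.Helper827_ando.Sound

namespace Pool.Agent.Helper827_ando

variable {V : Type*}

theorem Inst.main [Fintype V] [DecidableEq V] {σ : Equiv.Perm V} {μ ν : V → V} {v1 v2 : V}
    {h1 h2 : ℕ} {m0 : V → V} (I : Inst σ μ ν v1 v2 h1 h2 m0) : ∃ c : V → Bool, Good σ μ c := by
  refine I.sound (tree_of_check _ _ _ _ _ _ _ _ check_ok) (by omega) (by omega) (by omega)
    (by omega) (fun h => absurd h (by simp)) (fun h => absurd h (by simp)) ?_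
  refine ⟨by simp, ?_, by simp, by simp⟩
  intro x hx
  unfold KK at hx
  rw [Kc_zero, Kc_zero] at hx
  rcases hx with h | h
  · exact Or.inl h
  · exact Or.inr (Or.inl h)

/-! ### involutions and parity -/

theorem even_of_invol {A : Finset V} {f : V → V} (h : ∀ x ∈ A, f x ∈ A ∧ f x ≠ x ∧ f (f x) = x) :
    Even A.card := by
  have : ∑ x ∈ A, (1 : ZMod 2) = 0 := by
    refine Finset.sum_involution (fun x _ => f x) ?_ ?_ ?_ ?_
    · intro a _; decide
    · intro a ha _; exact (h a ha).2.1
    · intro a ha; exact (h a ha).1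
    · intro a ha; exact (h a ha).2.2
  simp only [Finset.sum_const, nsmul_eq_mul, mul_one] at this
  exact (ZMod.natCast_eq_zero_iff_even).1 this

theorem exists_invol [DecidableEq V] : ∀ (n : ℕ) (A : Finset V), A.card = 2 * n →
    ∃ f : V → V, ∀ x ∈ A, f x ∈ A ∧ f x ≠ x ∧ f (f x) = x
  | 0, A, h => ⟨id, by
      intro x hx
      have h0 : A = ∅ := Finset.card_eq_zero.1 (by omega)
      rw [h0] at hx
      simp at hx⟩
  | n+1, A, h => by
      obtain ⟨x, hx⟩ := Finset.card_pos.1 (show 0 < A.card by omega)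
      have h1 := Finset.card_erase_of_mem hx
      obtain ⟨y, hy⟩ := Finset.card_pos.1 (show 0 < (A.erase x).card by omega)
      have h2 := Finset.card_erase_of_mem hy
      obtain ⟨f, hf⟩ := exists_invol n ((A.erase x).erase y) (by omega)
      have hyA : y ∈ A := Finset.mem_of_mem_erase hy
      have hyx : y ≠ x := Finset.ne_of_mem_erase hy
      refine ⟨fun z => if z = x then y else if z = y then x else f z, ?_⟩
      intro z hz
      by_cases e1 : z = x
      · subst e1
        simp [hyA, hyx]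
      · by_cases e2 : z = y
        · subst e2
          simp [e1, hx, Ne.symm e1]
        · obtain ⟨g1, g2, g3⟩ := hf z (by simp [e1, e2, hz])
          simp only [Finset.mem_erase] at g1
          simp only [if_neg e1, if_neg e2, if_neg g1.2.1, if_neg g1.1]
          exact ⟨g1.2.2, g2, g3⟩

/-! ### positions on the cycles -/

section
variable [Finite V] (σ : Equiv.Perm V)

theorem mem_periodicPts (x : V) : x ∈ Function.periodicPts σ :=
  (Function.Injective.mem_periodicPts σ.injective x)

theorem per_pos (x : V) : 0 < Function.minimalPeriod σ x :=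
  Function.minimalPeriod_pos_of_mem_periodicPts (mem_periodicPts σ x)

theorem zpow_eq_iff (x : V) (i j : ℤ) :
    (σ ^ i) x = (σ ^ j) x ↔ (Function.minimalPeriod σ x : ℤ) ∣ i - j := by
  have := MulAction.zpow_smul_eq_iff_minimalPeriod_dvd (a := σ) (b := x) (n := i - j)
  have e : (fun y : V => σ • y) = σ := rfl
  rw [show Function.minimalPeriod σ x = Function.minimalPeriod (fun y : V => σ • y) x from rfl]
  rw [← this, Equiv.Perm.smul_def]
  constructor
  · intro h
    rw [sub_eq_neg_add, zpow_add, Equiv.Perm.mul_apply, h, ← Equiv.Perm.mul_apply, ← zpow_add]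
    simp
  · intro h
    rw [show i = j + (i - j) by ring, zpow_add, Equiv.Perm.mul_apply, h]

theorem per_zpow (x : V) (i : ℤ) :
    Function.minimalPeriod σ ((σ ^ i) x) = Function.minimalPeriod σ x := by
  have key : ∀ (y : V) (j k : ℤ), (Function.minimalPeriod σ ((σ ^ i) y) : ℤ) ∣ j - k ↔
      (Function.minimalPeriod σ y : ℤ) ∣ j - k := by
    intro y j k
    rw [← zpow_eq_iff, ← zpow_eq_iff]
    constructor
    · intro h
      rw [← Equiv.Perm.mul_apply, ← Equiv.Perm.mul_apply, ← zpow_add, ← zpow_add, add_comm j,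
        add_comm k, zpow_add, zpow_add, Equiv.Perm.mul_apply, Equiv.Perm.mul_apply] at h
      exact (σ ^ i).injective h
    · intro h
      rw [← Equiv.Perm.mul_apply, ← Equiv.Perm.mul_apply, ← zpow_add, ← zpow_add, add_comm j,
        add_comm k, zpow_add, zpow_add, Equiv.Perm.mul_apply, Equiv.Perm.mul_apply, h]
  apply Nat.dvd_antisymm
  · have := (key x (Function.minimalPeriod σ x) 0).2 (by simp)
    rw [sub_zero] at this
    exact Int.natCast_dvd_natCast.1 this
  · have := (key x (Function.minimalPeriod σ ((σ ^ i) x)) 0).1 (by simp)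
    rw [sub_zero] at this
    exact Int.natCast_dvd_natCast.1 this

theorem per_sameCycle {x y : V} (h : σ.SameCycle x y) :
    Function.minimalPeriod σ x = Function.minimalPeriod σ y := by
  obtain ⟨i, rfl⟩ := h
  rw [per_zpow]

theorem exists_pow_lt {b x : V} (h : σ.SameCycle b x) :
    ∃ n : ℕ, n < Function.minimalPeriod σ b ∧ (σ ^ n) b = x := by
  obtain ⟨i, rfl⟩ := h
  have hp := per_pos σ b
  have h1 := Int.emod_nonneg i (show (Function.minimalPeriod σ b : ℤ) ≠ 0 by omega)
  have h2 := Int.emod_lt_of_pos i (show (0 : ℤ) < (Function.minimalPeriod σ b : ℤ) by omega)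
  refine ⟨(i % (Function.minimalPeriod σ b : ℤ)).toNat, by omega, ?_⟩
  rw [← zpow_natCast, zpow_eq_iff, Int.toNat_of_nonneg h1]
  have := Int.mul_ediv_add_emod i (Function.minimalPeriod σ b : ℤ)
  refine ⟨-(i / (Function.minimalPeriod σ b : ℤ)), ?_⟩
  rw [mul_neg]
  linarith

/-- position of `x` on the cycle of `b` -/
noncomputable def ix (b x : V) : ℕ := sInf {n : ℕ | (σ ^ n) b = x}

theorem ix_pow {b : V} {n : ℕ} (hn : n < Function.minimalPeriod σ b) : ix σ b ((σ ^ n) b) = n := by
  have hne : {k : ℕ | (σ ^ k) b = (σ ^ n) b}.Nonempty := ⟨n, rfl⟩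
  have h1 : (σ ^ ix σ b ((σ ^ n) b)) b = (σ ^ n) b := Nat.sInf_mem hne
  have h2 : ix σ b ((σ ^ n) b) ≤ n := Nat.sInf_le rfl
  generalize ix σ b ((σ ^ n) b) = k at h1 h2 ⊢
  rw [← zpow_natCast, ← zpow_natCast, zpow_eq_iff] at h1
  have h3 := Int.eq_zero_of_abs_lt_dvd h1 (by rw [abs_lt]; constructor <;> omega)
  omega

/-- a choice of representatives of the cycles -/
structure IsRep (rep : V → V) : Prop where
  same : ∀ x, σ.SameCycle (rep x) x
  const : ∀ x y, σ.SameCycle x y → rep x = rep y

theorem exists_rep : ∃ rep : V → V, IsRep σ rep := by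
  refine ⟨fun x => Quotient.out (s := Equiv.Perm.SameCycle.setoid σ) (Quotient.mk _ x), ?_, ?_⟩
  · intro x
    exact Quotient.mk_out (s := Equiv.Perm.SameCycle.setoid σ) x
  · intro x y h
    have : Quotient.mk (Equiv.Perm.SameCycle.setoid σ) x = Quotient.mk _ y := Quotient.sound h
    rw [this]

/-- the pairing of consecutive vertices given by representatives -/
noncomputable def nuOf (rep τ : V → V) (x : V) : V := by
  classical
  exact if ix σ (rep x) x = 0 ∧ Odd (Function.minimalPeriod σ x) then τ x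
    else if Odd (ix σ (rep x) x) then σ x else σ.symm x

variable {σ}

theorem IsRep.pos {rep : V → V} (hr : IsRep σ rep) (x : V) :
    ∃ n, n < Function.minimalPeriod σ x ∧ ix σ (rep x) x = n ∧ (σ ^ n) (rep x) = x := by
  obtain ⟨n, hn, e⟩ := exists_pow_lt σ (hr.same x)
  have := ix_pow σ hn
  rw [e] at this
  rw [per_sameCycle σ (hr.same x)] at hn
  exact ⟨n, hn, this, e⟩

theorem sameCycle_pow (x : V) (n : ℕ) : σ.SameCycle x ((σ ^ n) x) := ⟨n, by simp⟩

theorem sameCycle_apply (x : V) : σ.SameCycle x (σ x) := ⟨1, by simp⟩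

theorem sameCycle_symm_apply (x : V) : σ.SameCycle x (σ.symm x) := ⟨-1, by simp⟩

theorem IsRep.ix_succ {rep : V → V} (hr : IsRep σ rep) {x : V}
    (h : ix σ (rep x) x + 1 < Function.minimalPeriod σ x) :
    ix σ (rep (σ x)) (σ x) = ix σ (rep x) x + 1 := by
  obtain ⟨n, hn, hi, e⟩ := hr.pos x
  rw [hi] at h ⊢
  rw [← hr.const x _ (sameCycle_apply x)]
  have : σ x = (σ ^ (n+1)) (rep x) := by rw [pow_succ', Equiv.Perm.mul_apply, e]
  rw [this]
  exact ix_pow σ (by rwa [per_sameCycle σ (hr.same x)])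

theorem IsRep.ix_last {rep : V → V} (hr : IsRep σ rep) {x : V}
    (h : ix σ (rep x) x + 1 = Function.minimalPeriod σ x) :
    σ x = rep x ∧ ix σ (rep (σ x)) (σ x) = 0 := by
  obtain ⟨n, hn, hi, e⟩ := hr.pos x
  rw [hi] at h
  have h1 : σ x = (σ ^ (n+1)) (rep x) := by rw [pow_succ', Equiv.Perm.mul_apply, e]
  have h2 : σ x = rep x := by
    rw [h1]
    have := (zpow_eq_iff σ (rep x) ((n + 1 : ℕ) : ℤ) 0).2 (by
      rw [h, per_sameCycle σ (hr.same x)]; simp)
    rw [zpow_natCast] at this
    simpa only [zpow_zero, Equiv.Perm.coe_one, id_eq] using this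
  refine ⟨h2, ?_⟩
  rw [← hr.const x _ (sameCycle_apply x), h2]
  have := ix_pow σ (b := rep x) (n := 0) (per_pos σ _)
  simpa using this

theorem IsRep.ix_pred {rep : V → V} (hr : IsRep σ rep) {x : V}
    (h : 0 < ix σ (rep x) x) :
    ix σ (rep (σ.symm x)) (σ.symm x) + 1 = ix σ (rep x) x := by
  obtain ⟨n, hn, hi, e⟩ := hr.pos x
  rw [hi] at h ⊢
  rw [← hr.const x _ (sameCycle_symm_apply x)]
  obtain ⟨k, rfl⟩ : ∃ k, n = k + 1 := ⟨n - 1, by omega⟩
  have : σ.symm x = (σ ^ k) (rep x) := by
    rw [Equiv.symm_apply_eq, ← Equiv.Perm.mul_apply, ← pow_succ', e]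
  rw [this, ix_pow σ (by rw [per_sameCycle σ (hr.same x)]; omega)]

theorem IsRep.ix_pred_zero {rep : V → V} (hr : IsRep σ rep) {x : V}
    (h : ix σ (rep x) x = 0) :
    ix σ (rep (σ.symm x)) (σ.symm x) + 1 = Function.minimalPeriod σ x := by
  obtain ⟨n, hn, hi, e⟩ := hr.pos x
  have hp := per_pos σ x
  rw [hi] at h
  subst h
  rw [← hr.const x _ (sameCycle_symm_apply x)]
  have : σ.symm x = (σ ^ (Function.minimalPeriod σ x - 1)) (rep x) := by
    rw [Equiv.symm_apply_eq, ← Equiv.Perm.mul_apply, ← pow_succ',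
      show Function.minimalPeriod σ x - 1 + 1 = Function.minimalPeriod σ x by omega]
    have := (zpow_eq_iff σ (rep x) (Function.minimalPeriod σ x : ℤ) 0).2 (by
      rw [per_sameCycle σ (hr.same x)]; simp)
    simp only [zpow_natCast, zpow_zero, Equiv.Perm.coe_one, id_eq] at this
    rw [this]
    simpa using e.symm
  rw [this, ix_pow σ (by rw [per_sameCycle σ (hr.same x)]; omega)]
  omega

/-- the exceptional vertices -/
def Exc (σ : Equiv.Perm V) (rep : V → V) (x : V) : Prop :=
  ix σ (rep x) x = 0 ∧ Odd (Function.minimalPeriod σ x)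

theorem nuOf_exc {rep τ : V → V} {x : V} (h : Exc σ rep x) : nuOf σ rep τ x = τ x := by
  unfold nuOf; exact if_pos h

theorem nuOf_odd {rep τ : V → V} {x : V} (h : Odd (ix σ (rep x) x)) : nuOf σ rep τ x = σ x := by
  unfold nuOf
  rw [if_neg, if_pos h]
  rintro ⟨h0, _⟩
  rw [h0] at h
  exact absurd h (by decide)

theorem nuOf_even {rep τ : V → V} {x : V} (h : ¬ Exc σ rep x) (h' : ¬ Odd (ix σ (rep x) x)) :
    nuOf σ rep τ x = σ.symm x := by
  unfold nuOf
  rw [if_neg, if_neg h']
  exact h

theorem IsRep.nu_nonexc {rep τ : V → V} (hr : IsRep σ rep) (h2 : ∀ x, 2 ≤ Function.minimalPeriod σ x)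
    {x : V} (h : ¬ Exc σ rep x) :
    σ.SameCycle x (nuOf σ rep τ x) ∧ ¬ Exc σ rep (nuOf σ rep τ x) ∧ nuOf σ rep τ x ≠ x ∧
      nuOf σ rep τ (nuOf σ rep τ x) = x := by
  have hfix : ∀ x, σ x ≠ x := by
    intro x e
    have h3 := h2 x
    have : Function.minimalPeriod σ x = 1 := Function.minimalPeriod_eq_one_iff_isFixedPt.2 e
    omega
  obtain ⟨n, hn, hi, e⟩ := hr.pos x
  by_cases ho : Odd (ix σ (rep x) x)
  · rw [nuOf_odd ho]
    have hpx : Function.minimalPeriod σ (σ x) = Function.minimalPeriod σ x :=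
      (per_sameCycle σ (sameCycle_apply x)).symm
    by_cases hl : ix σ (rep x) x + 1 < Function.minimalPeriod σ x
    · have hs := hr.ix_succ hl
      have hexc : ¬ Exc σ rep (σ x) := by rintro ⟨h0, _⟩; omega
      refine ⟨sameCycle_apply x, hexc, hfix x, ?_⟩
      rw [nuOf_even hexc (by rw [hs, Nat.not_odd_iff_even]; exact ho.add_one)]
      simp
    · have hl' : ix σ (rep x) x + 1 = Function.minimalPeriod σ x := by omega
      obtain ⟨hs1, hs2⟩ := hr.ix_last hl'
      have hexc : ¬ Exc σ rep (σ x) := by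
        rintro ⟨_, h0⟩
        rw [hpx, ← hl'] at h0
        exact (Nat.not_odd_iff_even.2 ho.add_one) h0
      refine ⟨sameCycle_apply x, hexc, hfix x, ?_⟩
      rw [nuOf_even hexc (by rw [hs2]; decide)]
      simp
  · rw [nuOf_even h ho]
    have hpx : Function.minimalPeriod σ (σ.symm x) = Function.minimalPeriod σ x :=
      (per_sameCycle σ (sameCycle_symm_apply x)).symm
    have hodd : Odd (ix σ (rep (σ.symm x)) (σ.symm x)) := by
      rw [Nat.not_odd_iff_even] at ho
      by_cases h0 : ix σ (rep x) x = 0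
      · have hs := hr.ix_pred_zero h0
        have hev : Even (Function.minimalPeriod σ x) := by
          rw [← Nat.not_odd_iff_even]; intro h'; exact h ⟨h0, h'⟩
        rw [← hs] at hev
        rw [Nat.even_add_one, Nat.not_even_iff_odd] at hev
        exact hev
      · have hs := hr.ix_pred (Nat.pos_of_ne_zero h0)
        rw [← hs, Nat.even_add_one, Nat.not_even_iff_odd] at ho
        exact ho
    refine ⟨sameCycle_symm_apply x, ?_, ?_, ?_⟩
    · rintro ⟨h0, _⟩
      rw [h0] at hodd
      exact absurd hodd (by decide)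
    · intro e
      apply hfix x
      rw [Equiv.symm_apply_eq] at e
      exact e.symm
    · rw [nuOf_odd hodd]; simp

/-- every run of three on an even cycle or a triangle contains a pair -/
theorem IsRep.nu_trip {rep τ : V → V} (hr : IsRep σ rep) {x : V}
    (h : Even (Function.minimalPeriod σ x) ∨ Function.minimalPeriod σ x = 3) :
    nuOf σ rep τ x = σ x ∨ nuOf σ rep τ (σ x) = σ (σ x) ∨ nuOf σ rep τ (σ (σ x)) = x := by
  obtain ⟨n, hn, hi, e⟩ := hr.pos x
  by_cases ho : Odd (ix σ (rep x) x)
  · exact Or.inl (nuOf_odd ho)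
  · rcases h with h | h
    · have hl : ix σ (rep x) x + 1 < Function.minimalPeriod σ x := by
        rw [Nat.not_odd_iff_even] at ho
        rw [hi] at ho ⊢
        obtain ⟨a, ha⟩ := ho
        obtain ⟨b, hb⟩ := h
        omega
      right; left
      apply nuOf_odd
      rw [hr.ix_succ hl]
      rw [Nat.not_odd_iff_even] at ho
      exact ho.add_one
    · by_cases h0 : ix σ (rep x) x = 0
      · right; left
        apply nuOf_odd
        rw [hr.ix_succ (by omega), h0]
        decide
      · have h2 : ix σ (rep x) x = 2 := by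
          rw [Nat.not_odd_iff_even] at ho
          obtain ⟨a, ha⟩ := ho
          omega
        right; right
        obtain ⟨hs1, hs2⟩ := hr.ix_last (x := x) (by omega)
        have hp : Function.minimalPeriod σ (σ x) = 3 := by
          rw [← per_sameCycle σ (sameCycle_apply x)]; exact h
        have hs3 := hr.ix_succ (x := σ x) (by omega)
        rw [nuOf_odd (by rw [hs3, hs2]; decide)]
        have := (zpow_eq_iff σ x 3 0).2 (by rw [h]; norm_num)
        have e3 : (σ ^ (3 : ℤ)) x = σ (σ (σ x)) := rfl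
        rw [e3] at this
        simpa using this

end

end Pool.Agent.Helper827_ando
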