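import Mathlib
import Pool.Agent.Helper827_ando.Cycles

namespace Pool.Agent.Helper827_ando

variable {V : Type*}

theorem no_pat {σ : Equiv.Perm V} {c : V → Bool} {ν : V → V} {x : V}
    (ht : ν (σ x) = σ (σ x) ∨ ν (σ (σ x)) = σ (σ (σ x)) ∨ ν (σ (σ (σ x))) = σ x)
    (h1 : c (ν (σ x)) ≠ c (σ x)) (h2 : c (ν (σ (σ x))) ≠ c (σ (σ x)))
    (h3 : c (ν (σ (σ (σ x)))) ≠ c (σ (σ (σ x)))) {P : List Bool → Bool} (hP : Pat P) :
    P (win σ c x) = false := by
  by_contra hcon
  rw [Bool.not_eq_false] at hcon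
  have t := hP.trip6 _ _ hcon
  have s1 : (σ ^ (0 + 1)) x = σ x := by simp
  have s2 : (σ ^ (0 + 2)) x = σ (σ x) := rfl
  have s3 : (σ ^ (0 + 3)) x = σ (σ (σ x)) := rfl
  rw [s1, s2, s3] at t
  rcases ht with e | e | e
  · exact h1 (by rw [e]; exact t.1.symm)
  · exact h2 (by rw [e]; exact t.2.symm)
  · exact h3 (by rw [e]; exact t.1.trans t.2)

section
variable [Fintype V] {σ : Equiv.Perm V}

theorem IsRep.rep_eq {rep : V → V} (hr : IsRep σ rep) {x : V} (h : Exc σ rep x) : rep x = x := by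
  obtain ⟨n, hn, hi, e⟩ := hr.pos x
  have h0 := h.1
  rw [hi] at h0
  subst h0
  simpa using e

theorem IsRep.exc_rep {rep : V → V} (hr : IsRep σ rep) {x : V}
    (h : Odd (Function.minimalPeriod σ x)) : Exc σ rep (rep x) := by
  have h1 : rep (rep x) = rep x := hr.const _ _ (hr.same x)
  refine ⟨?_, ?_⟩
  · rw [h1]
    have := ix_pow σ (b := rep x) (n := 0) (per_pos σ _)
    simpa using this
  · rw [per_sameCycle σ (hr.same x)]; exact h

theorem card_cycle [DecidableEq V] (u : V) (A : Finset V) (hA : ∀ x, x ∈ A ↔ σ.SameCycle u x) :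
    A.card = Function.minimalPeriod σ u := by
  have : A = (Finset.range (Function.minimalPeriod σ u)).image (fun n => (σ ^ n) u) := by
    ext x
    rw [hA, Finset.mem_image]
    constructor
    · intro h
      obtain ⟨n, hn, e⟩ := exists_pow_lt σ h
      exact ⟨n, by simpa using hn, e⟩
    · rintro ⟨n, _, rfl⟩
      exact sameCycle_pow u n
  rw [this, Finset.card_image_of_injOn, Finset.card_range]
  intro a ha b hb e
  simp only [Finset.coe_range, Set.mem_Iio] at ha hb
  simp only at e
  rw [← ix_pow σ ha, e, ix_pow σ hb]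

theorem IsRep.cyc {rep τ : V → V} (hr : IsRep σ rep) {v : V} (hv : rep v = v) {h : ℕ}
    (hp : Function.minimalPeriod σ v = 2 * h + 1) (h1 : 1 ≤ h) : Cyc σ (nuOf σ rep τ) v h where
  pos := h1
  per := by
    intro i j
    rw [zpow_eq_iff, hp]
  nu := by
    intro j hj
    have e1 : (σ ^ (2 * (j : ℤ) + 1)) v = (σ ^ (2 * j + 1 : ℕ)) v := by
      rw [← zpow_natCast]; push_cast; rfl
    have e2 : (σ ^ (2 * (j : ℤ) + 2)) v = (σ ^ (2 * j + 2 : ℕ)) v := by
      rw [← zpow_natCast]; push_cast; rfl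
    have r1 : rep ((σ ^ (2 * j + 1 : ℕ)) v) = v := by
      rw [← hr.const v _ (sameCycle_pow v _), hv]
    have r2 : rep ((σ ^ (2 * j + 2 : ℕ)) v) = v := by
      rw [← hr.const v _ (sameCycle_pow v _), hv]
    have i1 : ix σ (rep ((σ ^ (2 * j + 1 : ℕ)) v)) ((σ ^ (2 * j + 1 : ℕ)) v) = 2 * j + 1 := by
      rw [r1]; exact ix_pow σ (by rw [hp]; omega)
    have i2 : ix σ (rep ((σ ^ (2 * j + 2 : ℕ)) v)) ((σ ^ (2 * j + 2 : ℕ)) v) = 2 * j + 2 := by
      rw [r2]; exact ix_pow σ (by rw [hp]; omega)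
    rw [e1, e2]
    constructor
    · rw [nuOf_odd (by rw [i1]; exact ⟨j, by ring⟩), ← Equiv.Perm.mul_apply, ← pow_succ']
    · rw [nuOf_even (by rintro ⟨h0, _⟩; omega) (by rw [i2]; rintro ⟨k, hk⟩; omega),
        Equiv.symm_apply_eq, ← Equiv.Perm.mul_apply, ← pow_succ']

theorem Cyc.mem_Kc {ν : V → V} {v : V} {h : ℕ} (C : Cyc σ ν v h) (x : V) :
    x ∈ Kc σ v h ↔ σ.SameCycle v x := by
  constructor
  · rintro ⟨i, _, _, rfl⟩
    exact ⟨i, rfl⟩
  · rintro ⟨i, rfl⟩
    obtain ⟨n, hn, e⟩ := C.exists_pos (lo h) i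
    have := lo_add_hi h
    exact ⟨(n : ℤ) - lo h, by omega, by omega, e.symm⟩

/-- the main existence theorem for permutations with at most two long odd cycles -/
theorem exists_good [DecidableEq V] (μ : V → V) (hμ : ∀ x, μ x ≠ x ∧ μ (μ x) = x)
    (h3 : ∀ x, 3 ≤ Function.minimalPeriod σ x)
    (hodd : ∀ x y z, (Odd (Function.minimalPeriod σ x) ∧ 5 ≤ Function.minimalPeriod σ x) →
      (Odd (Function.minimalPeriod σ y) ∧ 5 ≤ Function.minimalPeriod σ y) →
      (Odd (Function.minimalPeriod σ z) ∧ 5 ≤ Function.minimalPeriod σ z) →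
      σ.SameCycle x y ∨ σ.SameCycle y z ∨ σ.SameCycle x z) :
    ∃ c : V → Bool, Good σ μ c := by
  classical
  obtain ⟨rep, hr⟩ := exists_rep σ
  have h2 : ∀ x, 2 ≤ Function.minimalPeriod σ x := fun x => by have := h3 x; omega
  let E : Finset V := Finset.univ.filter (Exc σ rep)
  have memE : ∀ x, x ∈ E ↔ Exc σ rep x := by intro x; simp [E]
  have hVeven : Even (Finset.univ : Finset V).card :=
    even_of_invol (f := μ) (fun x _ => ⟨by simp, (hμ x).1, (hμ x).2⟩)
  have hEc : Even (Eᶜ).card := by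
    apply even_of_invol (f := nuOf σ rep id)
    intro x hx
    rw [Finset.mem_compl, memE] at hx
    obtain ⟨_, g2, g3, g4⟩ := hr.nu_nonexc (τ := id) h2 hx
    exact ⟨by rw [Finset.mem_compl, memE]; exact g2, g3, g4⟩
  have hE : Even E.card := by
    have e1 : E.card + (Eᶜ).card = (Finset.univ : Finset V).card := by
      rw [Finset.card_add_card_compl, Finset.card_univ]
    rw [← e1] at hVeven
    exact (Nat.even_add.1 hVeven).2 hEc
  have short : ∀ x, ¬ (Odd (Function.minimalPeriod σ x) ∧ 5 ≤ Function.minimalPeriod σ x) →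
      Even (Function.minimalPeriod σ x) ∨ Function.minimalPeriod σ x = 3 := by
    intro x hx
    rcases Nat.even_or_odd (Function.minimalPeriod σ x) with h | h
    · exact Or.inl h
    · right
      have := h3 x
      have h5 : ¬ 5 ≤ Function.minimalPeriod σ x := fun h' => hx ⟨h, h'⟩
      obtain ⟨k, hk⟩ := h
      omega
  by_cases hlong : ∃ u1, Odd (Function.minimalPeriod σ u1) ∧ 5 ≤ Function.minimalPeriod σ u1
  · -- there is a long odd cycle
    obtain ⟨u1, hu1, hu1'⟩ := hlong
    have hex : ∃ u2, Odd (Function.minimalPeriod σ u2) ∧ ¬ σ.SameCycle u1 u2 ∧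
        ∀ x, ¬ σ.SameCycle u1 x → ¬ σ.SameCycle u2 x →
          ¬ (Odd (Function.minimalPeriod σ x) ∧ 5 ≤ Function.minimalPeriod σ x) := by
      by_cases h : ∃ u2, (Odd (Function.minimalPeriod σ u2) ∧ 5 ≤ Function.minimalPeriod σ u2) ∧
          ¬ σ.SameCycle u1 u2
      · obtain ⟨u2, hu2, hne⟩ := h
        refine ⟨u2, hu2.1, hne, ?_⟩
        intro x hx1 hx2 hx
        rcases hodd u1 u2 x ⟨hu1, hu1'⟩ hu2 hx with h | h | h
        · exact hne h
        · exact hx2 h
        · exact hx1 h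
      · push Not at h
        have hin : rep u1 ∈ E := (memE _).2 (hr.exc_rep hu1)
        have hcard : (E.erase (rep u1)).card ≠ 0 := by
          rw [Finset.card_erase_of_mem hin]
          have := Finset.card_pos.2 ⟨_, hin⟩
          obtain ⟨k, hk⟩ := hE
          omega
        obtain ⟨u2, hu2⟩ := Finset.card_pos.1 (Nat.pos_of_ne_zero hcard)
        rw [Finset.mem_erase, memE] at hu2
        refine ⟨u2, hu2.2.2, ?_, ?_⟩
        · intro hs
          apply hu2.1
          rw [← hr.rep_eq hu2.2, hr.const _ _ hs]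
        · intro x hx1 _ hx
          exact hx1 (h x hx)
    obtain ⟨u2, hu2, hne, hshort⟩ := hex
    -- the finite sets
    let A : Finset V := Finset.univ.filter (fun x => ¬ σ.SameCycle u1 x ∧ ¬ σ.SameCycle u2 x)
    have memA : ∀ x, x ∈ A ↔ ¬ σ.SameCycle u1 x ∧ ¬ σ.SameCycle u2 x := by intro x; simp [A]
    have hr1 : rep u1 ∈ E := (memE _).2 (hr.exc_rep hu1)
    have hr2 : rep u2 ∈ E := (memE _).2 (hr.exc_rep hu2)
    have hrne : rep u2 ≠ rep u1 := by
      intro e
      apply hne
      have s1 := hr.same u1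
      have s2 := hr.same u2
      rw [e] at s2
      exact s1.symm.trans s2
    have hE' : ∃ k, ((E.erase (rep u1)).erase (rep u2)).card = 2 * k := by
      have hmem : rep u2 ∈ E.erase (rep u1) := by rw [Finset.mem_erase]; exact ⟨hrne, hr2⟩
      rw [Finset.card_erase_of_mem hmem, Finset.card_erase_of_mem hr1]
      obtain ⟨k, hk⟩ := hE
      have h1 := Finset.card_pos.2 ⟨_, hmem⟩
      rw [Finset.card_erase_of_mem hr1] at h1
      exact ⟨k - 1, by omega⟩
    obtain ⟨k, hk⟩ := hE'
    obtain ⟨τ, hτ⟩ := exists_invol k _ hk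
    have memE' : ∀ x, x ∈ (E.erase (rep u1)).erase (rep u2) ↔
        Exc σ rep x ∧ x ∈ A := by
      intro x
      rw [Finset.mem_erase, Finset.mem_erase, memE, memA]
      constructor
      · rintro ⟨g1, g2, g3⟩
        refine ⟨g3, ?_, ?_⟩
        · intro hs
          apply g2
          rw [hr.const _ _ hs, hr.rep_eq g3]
        · intro hs
          apply g1
          rw [hr.const _ _ hs, hr.rep_eq g3]
      · rintro ⟨g3, g4, g5⟩
        refine ⟨?_, ?_, g3⟩
        · intro e
          exact g5 (e ▸ (hr.same u2).symm)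
        · intro e
          exact g4 (e ▸ (hr.same u1).symm)
    obtain ⟨m0, hm0⟩ := exists_ext (μ := μ) (ν := nuOf σ rep τ) hμ A (by
      intro x hx
      by_cases hexc : Exc σ rep x
      · obtain ⟨g1, g2, g3⟩ := hτ x ((memE' x).2 ⟨hexc, hx⟩)
        rw [memE'] at g1
        rw [nuOf_exc hexc, nuOf_exc g1.1]
        exact ⟨g1.2, g2, g3⟩
      · obtain ⟨g1, g2, g3, g4⟩ := hr.nu_nonexc (τ := τ) h2 hexc
        refine ⟨?_, g3, g4⟩
        rw [memA] at hx ⊢
        exact ⟨fun h => hx.1 (h.trans g1.symm), fun h => hx.2 (h.trans g1.symm)⟩)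
    have memAc : ∀ x, x ∈ (A : Set V)ᶜ ↔ σ.SameCycle u1 x ∨ σ.SameCycle u2 x := by
      intro x
      rw [Set.mem_compl_iff, Finset.mem_coe, memA]
      tauto
    -- cross edge
    have hcross : ∃ v1, σ.SameCycle u1 v1 ∧ σ.SameCycle u2 (m0 v1) := by
      by_contra hcon
      push Not at hcon
      let C : Finset V := Finset.univ.filter (fun x => σ.SameCycle u1 x)
      have memC : ∀ x, x ∈ C ↔ σ.SameCycle u1 x := by intro x; simp [C]
      have : Even C.card := by
        apply even_of_invol (f := m0)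
        intro x hx
        rw [memC] at hx
        obtain ⟨g1, g2, g3⟩ := hm0.1 x ((memAc x).2 (Or.inl hx))
        refine ⟨?_, g2, g3⟩
        rw [memC]
        rcases (memAc _).1 g1 with h | h
        · exact h
        · exact absurd h (hcon x hx)
      rw [card_cycle u1 C memC] at this
      exact (Nat.not_odd_iff_even.2 this) hu1
    obtain ⟨v1, hv1, hv2⟩ := hcross
    obtain ⟨v2, hv2e⟩ : ∃ v2, v2 = m0 v1 := ⟨_, rfl⟩
    rw [← hv2e] at hv2
    -- new representatives
    have excl : ∀ x, σ.SameCycle u1 x → ¬ σ.SameCycle u2 x := by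
      intro x hx hx'
      exact hne (hx.trans hx'.symm)
    let rep1 : V → V := fun x => if σ.SameCycle u1 x then v1 else
      if σ.SameCycle u2 x then v2 else rep x
    have hr1' : IsRep σ rep1 := by
      refine ⟨?_, ?_⟩
      · intro x
        by_cases e1 : σ.SameCycle u1 x
        · simp only [rep1, if_pos e1]; exact hv1.symm.trans e1
        · by_cases e2 : σ.SameCycle u2 x
          · simp only [rep1, if_neg e1, if_pos e2]; exact hv2.symm.trans e2
          · simp only [rep1, if_neg e1, if_neg e2]; exact hr.same x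
      · intro x y hxy
        have k1 : σ.SameCycle u1 x ↔ σ.SameCycle u1 y :=
          ⟨fun h => h.trans hxy, fun h => h.trans hxy.symm⟩
        have k2 : σ.SameCycle u2 x ↔ σ.SameCycle u2 y :=
          ⟨fun h => h.trans hxy, fun h => h.trans hxy.symm⟩
        simp only [rep1, k1, k2, hr.const x y hxy]
    have rv1 : rep1 v1 = v1 := by simp only [rep1, if_pos hv1]
    have rv2 : rep1 v2 = v2 := by
      have : ¬ σ.SameCycle u1 v2 := fun h => excl _ h hv2
      simp only [rep1, if_neg this, if_pos hv2]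
    have p1 : Function.minimalPeriod σ v1 = Function.minimalPeriod σ u1 := (per_sameCycle σ hv1).symm
    have p2 : Function.minimalPeriod σ v2 = Function.minimalPeriod σ u2 := (per_sameCycle σ hv2).symm
    obtain ⟨l1, hl1⟩ := hu1
    obtain ⟨l2, hl2⟩ := hu2
    have q1 := h3 u1
    have q2 := h3 u2
    have C1 : Cyc σ (nuOf σ rep1 τ) v1 l1 := hr1'.cyc rv1 (by rw [p1, hl1]) (by omega)
    have C2 : Cyc σ (nuOf σ rep1 τ) v2 l2 := hr1'.cyc rv2 (by rw [p2, hl2]) (by omega)
    have hKc : Kc σ v1 l1 ∪ Kc σ v2 l2 = (A : Set V)ᶜ := by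
      ext x
      rw [Set.mem_union, C1.mem_Kc, C2.mem_Kc, memAc]
      constructor
      · rintro (h | h)
        · exact Or.inl (hv1.trans h)
        · exact Or.inr (hv2.trans h)
      · rintro (h | h)
        · exact Or.inl (hv1.symm.trans h)
        · exact Or.inr (hv2.symm.trans h)
    have hag : ∀ x, x ∈ A → nuOf σ rep1 τ x = nuOf σ rep τ x := by
      intro x hx
      rw [memA] at hx
      have : rep1 x = rep x := by simp only [rep1, if_neg hx.1, if_neg hx.2]
      unfold nuOf
      rw [this]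
    have I : Inst σ μ (nuOf σ rep1 τ) v1 v2 l1 l2 m0 := by
      refine ⟨C1, C2, ?_, ?_, ?_, hv2e.symm⟩
      · intro i j e
        apply excl v1 hv1
        have : σ.SameCycle v1 v2 := ⟨-j + i, by
          rw [zpow_add, Equiv.Perm.mul_apply, e, ← Equiv.Perm.mul_apply, ← zpow_add]; simp⟩
        exact hv2.trans this.symm
      · intro x hx1 hx2
        apply hr1'.nu_trip
        apply short
        apply hshort
        · intro hs
          obtain ⟨i, hi'⟩ := hv1.symm.trans hs
          exact hx1 i hi'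
        · intro hs
          obtain ⟨i, hi'⟩ := hv2.symm.trans hs
          exact hx2 i hi'
      · rw [hKc]
        refine ⟨hm0.1, ?_⟩
        intro S hS
        obtain ⟨c, e1, e2, e3⟩ := hm0.2 S hS
        refine ⟨c, e1, e2, ?_⟩
        intro x hx
        have hxA : x ∈ A := by simpa using hx
        rw [hag x hxA]
        exact e3 x hx
    exact I.main
  · -- all odd cycles are triangles
    push Not at hlong
    obtain ⟨k, hk⟩ := hE
    obtain ⟨τ, hτ⟩ := exists_invol k E (by omega)
    obtain ⟨m0, hm0⟩ := exists_ext (μ := μ) (ν := nuOf σ rep τ) hμ Finset.univ (by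
      intro x _
      by_cases hexc : Exc σ rep x
      · obtain ⟨g1, g2, g3⟩ := hτ x ((memE x).2 hexc)
        rw [memE] at g1
        rw [nuOf_exc hexc, nuOf_exc g1]
        exact ⟨by simp, g2, g3⟩
      · obtain ⟨g1, g2, g3, g4⟩ := hr.nu_nonexc (τ := τ) h2 hexc
        exact ⟨by simp, g3, g4⟩)
    obtain ⟨c, e1, e2, e3⟩ := hm0.2 (fun _ => true) (by intro u hu; simp at hu)
    have e3' : ∀ x, c (nuOf σ rep τ x) ≠ c x := fun x => e3 x (by simp)
    have hno : ∀ x {P : List Bool → Bool}, Pat P → P (win σ c x) = false := by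
      intro x P hP
      refine no_pat (ν := nuOf σ rep τ) ?_ (e3' _) (e3' _) (e3' _) hP
      apply hr.nu_trip
      apply short
      rintro ⟨g1, g2⟩
      have := hlong _ g1
      omega
    refine ⟨c, e2, fun x => hno x pat5, ?_, ?_⟩
    · simp only [hno _ pat3t, hno _ pat3f]
    · simp only [hno _ pat4t, hno _ pat4f]

end

end Pool.Agent.Helper827_ando
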