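import Mathlib
import Pool.Agent.Helper827_ando.Exists

namespace Pool.Agent.Helper827_ando

variable {V : Type*}

/-- version with at most two long odd cycles in each class of a partition -/
theorem exists_good_comp [Fintype V] [DecidableEq V] {K : Type*} [Fintype K] [DecidableEq K]
    {σ : Equiv.Perm V} (comp : V → K) (hσ : ∀ x, comp (σ x) = comp x) (μ : V → V)
    (hμc : ∀ x, comp (μ x) = comp x) (hμ : ∀ x, μ x ≠ x ∧ μ (μ x) = x)
    (h3 : ∀ x, 3 ≤ Function.minimalPeriod σ x)
    (hodd : ∀ x y z, comp x = comp y → comp x = comp z →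
      (Odd (Function.minimalPeriod σ x) ∧ 5 ≤ Function.minimalPeriod σ x) →
      (Odd (Function.minimalPeriod σ y) ∧ 5 ≤ Function.minimalPeriod σ y) →
      (Odd (Function.minimalPeriod σ z) ∧ 5 ≤ Function.minimalPeriod σ z) →
      σ.SameCycle x y ∨ σ.SameCycle y z ∨ σ.SameCycle x z) :
    ∃ c : V → Bool, Good σ μ c := by
  classical
  let σk : ∀ k : K, Equiv.Perm {x // comp x = k} := fun k =>
    σ.subtypePerm (fun x => by rw [hσ])
  let μk : ∀ k : K, {x // comp x = k} → {x // comp x = k} := fun k x => ⟨μ x.1, (hμc x.1).trans x.2⟩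
  have hpow : ∀ (k : K) (n : ℕ) (x : {x // comp x = k}), (((σk k) ^ n) x : V) = (σ ^ n) x.1 := by
    intro k n x
    simp only [σk]
    rw [Equiv.Perm.subtypePerm_pow]
    rfl
  have hzpow : ∀ (k : K) (n : ℤ) (x : {x // comp x = k}), (((σk k) ^ n) x : V) = (σ ^ n) x.1 := by
    intro k n x
    simp only [σk]
    rw [Equiv.Perm.subtypePerm_zpow]
    rfl
  have hper : ∀ (k : K) (x : {x // comp x = k}),
      Function.minimalPeriod (σk k) x = Function.minimalPeriod σ x.1 := by
    intro k x
    rw [Function.minimalPeriod_eq_minimalPeriod_iff]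
    intro n
    unfold Function.IsPeriodicPt Function.IsFixedPt
    rw [← Equiv.Perm.coe_pow, ← Equiv.Perm.coe_pow, ← hpow, Subtype.ext_iff]
  have hex : ∀ k : K, ∃ c : {x // comp x = k} → Bool, Good (σk k) (μk k) c := by
    intro k
    apply exists_good
    · intro x
      exact ⟨fun h => (hμ x.1).1 (congrArg Subtype.val h), Subtype.ext (hμ x.1).2⟩
    · intro x
      rw [hper]
      exact h3 _
    · intro x y z hx hy hz
      rw [hper] at hx hy hz
      have := hodd x.1 y.1 z.1 (by rw [x.2, y.2]) (by rw [x.2, z.2]) hx hy hz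
      have tr : ∀ a b : {x // comp x = k}, σ.SameCycle a.1 b.1 → (σk k).SameCycle a b := by
        rintro a b ⟨i, hi⟩
        refine ⟨i, ?_⟩
        apply Subtype.ext
        rw [hzpow]
        exact hi
      rcases this with h | h | h
      · exact Or.inl (tr _ _ h)
      · exact Or.inr (Or.inl (tr _ _ h))
      · exact Or.inr (Or.inr (tr _ _ h))
  choose ck hck using hex
  let c : V → Bool := fun x => ck (comp x) ⟨x, rfl⟩
  have hc : ∀ (k : K) (x : {x // comp x = k}), c x.1 = ck k x := by
    rintro k ⟨x, rfl⟩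
    rfl
  have hwin : ∀ (k : K) (x : {x // comp x = k}), win σ c x.1 = win (σk k) (ck k) x := by
    intro k x
    unfold win
    apply lst_congr
    intro i _
    rw [← hpow, hc]
  have hsum : ∀ P : List Bool → Bool, (∑ x, if P (win σ c x) = true then 1 else 0) =
      ∑ k, ∑ x : {x // comp x = k}, if P (win (σk k) (ck k) x) = true then 1 else 0 := by
    intro P
    rw [← Fintype.sum_fiberwise comp]
    apply Finset.sum_congr rfl
    intro k _
    apply Finset.sum_congr rfl
    intro x _
    rw [hwin]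
  refine ⟨c, ?_, ?_, ?_, ?_⟩
  · intro x
    have h1 := (hck (comp x)).opp ⟨x, rfl⟩
    have h2 := hc (comp x) (μk (comp x) ⟨x, rfl⟩)
    rw [← h2] at h1
    exact h1
  · intro x
    have h1 := (hck (comp x)).no5 ⟨x, rfl⟩
    have h2 := hwin (comp x) ⟨x, rfl⟩
    rw [← h2] at h1
    exact h1
  · rw [hsum, hsum]
    exact Finset.sum_congr rfl (fun k _ => (hck k).three)
  · rw [hsum, hsum]
    exact Finset.sum_congr rfl (fun k _ => (hck k).four)

end Pool.Agent.Helper827_ando
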