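import Mathlib
import Pool.Agent.Helper827_ando.Leaf

namespace Pool.Agent.Helper827_ando

variable {V : Type*}

/-- a colour preserving matching of two finite sets with equal fibres -/
theorem exists_psi [DecidableEq V] (k : V → ℕ) : ∀ (n : ℕ) (A B : Finset V), A.card = n →
    Disjoint A B → (∀ j, (A.filter (fun x => k x = j)).card = (B.filter (fun x => k x = j)).card) →
    ∃ ψ : V → V, (∀ x ∈ A, ψ x ∈ B ∧ k (ψ x) = k x ∧ ψ (ψ x) = x) ∧
      (∀ x ∈ B, ψ x ∈ A ∧ k (ψ x) = k x ∧ ψ (ψ x) = x)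
  | 0, A, B, hn, _, h => by
      have hA : A = ∅ := Finset.card_eq_zero.1 hn
      subst hA
      refine ⟨id, by simp, ?_⟩
      intro x hx
      have := h (k x)
      simp only [Finset.filter_empty, Finset.card_empty] at this
      have h2 := Finset.card_eq_zero.1 this.symm
      have h3 : x ∈ B.filter (fun y => k y = k x) := by simp [hx]
      rw [h2] at h3
      simp at h3
  | n+1, A, B, hn, hd, h => by
      obtain ⟨a, ha⟩ := Finset.card_pos.1 (show 0 < A.card by omega)
      have h1 : 0 < (B.filter (fun x => k x = k a)).card := by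
        rw [← h]
        exact Finset.card_pos.2 ⟨a, by simp [ha]⟩
      obtain ⟨b, hb⟩ := Finset.card_pos.1 h1
      rw [Finset.mem_filter] at hb
      obtain ⟨hb, hk⟩ := hb
      have haB : a ∉ B := Finset.disjoint_left.1 hd ha
      have hbA : b ∉ A := Finset.disjoint_right.1 hd hb
      have hab : a ≠ b := by rintro rfl; exact haB hb
      obtain ⟨ψ, h2, h3⟩ := exists_psi k n (A.erase a) (B.erase b)
        (by rw [Finset.card_erase_of_mem ha]; omega)
        (hd.mono (Finset.erase_subset _ _) (Finset.erase_subset _ _)) (by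
          intro j
          rw [Finset.filter_erase, Finset.filter_erase]
          by_cases hj : k a = j
          · rw [Finset.card_erase_of_mem (by simp [ha, hj]),
              Finset.card_erase_of_mem (by simp [hb, hk, hj]), h]
          · rw [Finset.erase_eq_of_notMem (by simp [hj]),
              Finset.erase_eq_of_notMem (by simp [hk, hj]), h])
      refine ⟨fun z => if z = a then b else if z = b then a else ψ z, ?_, ?_⟩
      · intro x hx
        by_cases e : x = a
        · subst e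
          simp [hb, hk, hab.symm]
        · have e' : x ≠ b := by rintro rfl; exact hbA hx
          obtain ⟨g1, g2, g3⟩ := h2 x (by simp [e, hx])
          rw [Finset.mem_erase] at g1
          have g4 : ψ x ≠ a := by rintro h; exact haB (h ▸ g1.2)
          simp only [if_neg e, if_neg e', if_neg g4, if_neg g1.1]
          exact ⟨g1.2, g2, g3⟩
      · intro x hx
        by_cases e : x = b
        · subst e
          simp [ha, hk, hab.symm]
        · have e' : x ≠ a := by rintro rfl; exact haB hx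
          obtain ⟨g1, g2, g3⟩ := h3 x (by simp [e, hx])
          rw [Finset.mem_erase] at g1
          have g4 : ψ x ≠ b := by rintro h; exact hbA (h ▸ g1.2)
          simp only [if_neg e, if_neg e', if_neg g4, if_neg g1.1]
          exact ⟨g1.2, g2, g3⟩

section
variable (σ : Equiv.Perm V) (c : V → Bool)

/-- number of successors of the same colour -/
noncomputable def fw (x : V) : ℕ := sInf {n : ℕ | c ((σ ^ ((n : ℤ) + 1)) x) ≠ c x}
/-- number of predecessors of the same colour -/
noncomputable def bk (x : V) : ℕ := sInf {n : ℕ | c ((σ ^ (-((n : ℤ) + 1))) x) ≠ c x}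
/-- first vertex of the run -/
noncomputable def st (x : V) : V := (σ ^ (-(bk σ c x : ℤ))) x

variable {σ c}

theorem zz (i j : ℤ) (x : V) : (σ ^ i) ((σ ^ j) x) = (σ ^ (i + j)) x := by
  rw [zpow_add, Equiv.Perm.mul_apply]

theorem p5_bits (x : V) (h : p5 (win σ c x) = false) : ∃ n : ℕ, n ≤ 3 ∧
    c ((σ ^ ((n : ℤ) + 1)) x) ≠ c x := by
  by_contra hcon
  push Not at hcon
  have h0 := hcon 0 (by omega)
  have h1 := hcon 1 (by omega)
  have h2 := hcon 2 (by omega)
  have h3 := hcon 3 (by omega)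
  have k1 : c ((σ ^ (0 + 1)) x) = c x := by rw [← h0]; rfl
  have k2 : c ((σ ^ (0 + 2)) x) = c x := by rw [← h1]; rfl
  have k3 : c ((σ ^ (0 + 3)) x) = c x := by rw [← h2]; rfl
  have k4 : c ((σ ^ (0 + 4)) x) = c x := by rw [← h3]; rfl
  have k0 : c ((σ ^ 0) x) = c x := by simp
  unfold win at h
  rw [lst6_eq, k0, k1, k2, k3, k4] at h
  cases hc : c x <;> rw [hc] at h <;> simp [p5] at h

variable (h5 : ∀ x, p5 (win σ c x) = false)
include h5

theorem fw_spec (x : V) : fw σ c x ≤ 3 ∧ c ((σ ^ ((fw σ c x : ℤ) + 1)) x) ≠ c x ∧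
    ∀ i : ℤ, 0 ≤ i → i ≤ fw σ c x → c ((σ ^ i) x) = c x := by
  obtain ⟨n, hn, he⟩ := p5_bits x (h5 x)
  have hne : {n : ℕ | c ((σ ^ ((n : ℤ) + 1)) x) ≠ c x}.Nonempty := ⟨n, he⟩
  refine ⟨(Nat.sInf_le he).trans hn, Nat.sInf_mem hne, ?_⟩
  intro i h0 hi
  by_cases hz : i = 0
  · subst hz; simp
  · by_contra hcon
    have : fw σ c x ≤ (i - 1).toNat := Nat.sInf_le (by
      change c ((σ ^ (((i-1).toNat : ℤ) + 1)) x) ≠ c x
      rw [Int.toNat_of_nonneg (by omega), sub_add_cancel]
      exact hcon)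
    omega

theorem bk_spec (x : V) : bk σ c x ≤ 3 ∧ c ((σ ^ (-((bk σ c x : ℤ) + 1))) x) ≠ c x ∧
    ∀ i : ℤ, 0 ≤ i → i ≤ bk σ c x → c ((σ ^ (-i)) x) = c x := by
  have hex : ∃ n : ℕ, n ≤ 3 ∧ c ((σ ^ (-((n : ℤ) + 1))) x) ≠ c x := by
    by_contra hcon
    push Not at hcon
    obtain ⟨n, hn, he⟩ := p5_bits _ (h5 ((σ ^ (-4 : ℤ)) x))
    apply he
    have h3 := hcon 3 (by omega)
    have e3 : (σ ^ (-(((3 : ℕ) : ℤ) + 1))) x = (σ ^ (-4 : ℤ)) x := by norm_num
    rw [e3] at h3
    rw [h3, zz]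
    by_cases hn3 : n = 3
    · subst hn3; simp
    · have := hcon (2 - n) (by omega)
      rw [← this]
      congr 2
      congr 1
      omega
  obtain ⟨n, hn, he⟩ := hex
  have hne : {n : ℕ | c ((σ ^ (-((n : ℤ) + 1))) x) ≠ c x}.Nonempty := ⟨n, he⟩
  refine ⟨(Nat.sInf_le he).trans hn, Nat.sInf_mem hne, ?_⟩
  intro i h0 hi
  by_cases hz : i = 0
  · subst hz; simp
  · by_contra hcon
    have : bk σ c x ≤ (i - 1).toNat := Nat.sInf_le (by
      change c ((σ ^ (-(((i-1).toNat : ℤ) + 1))) x) ≠ c x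
      rw [Int.toNat_of_nonneg (by omega), sub_add_cancel]
      exact hcon)
    omega

theorem fw_eq {x : V} {n : ℕ} (h1 : c ((σ ^ ((n : ℤ) + 1)) x) ≠ c x)
    (h2 : ∀ i : ℤ, 0 ≤ i → i ≤ n → c ((σ ^ i) x) = c x) : fw σ c x = n := by
  obtain ⟨_, k1, k2⟩ := fw_spec h5 x
  rcases lt_trichotomy (fw σ c x) n with h | h | h
  · exact absurd (h2 ((fw σ c x : ℤ) + 1) (by omega) (by omega)) k1
  · exact h
  · exact absurd (k2 ((n : ℤ) + 1) (by omega) (by omega)) h1

theorem bk_eq {x : V} {n : ℕ} (h1 : c ((σ ^ (-((n : ℤ) + 1))) x) ≠ c x)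
    (h2 : ∀ i : ℤ, 0 ≤ i → i ≤ n → c ((σ ^ (-i)) x) = c x) : bk σ c x = n := by
  obtain ⟨_, k1, k2⟩ := bk_spec h5 x
  rcases lt_trichotomy (bk σ c x) n with h | h | h
  · exact absurd (h2 ((bk σ c x : ℤ) + 1) (by omega) (by omega)) k1
  · exact h
  · exact absurd (k2 ((n : ℤ) + 1) (by omega) (by omega)) h1

theorem c_st (x : V) : c (st σ c x) = c x := (bk_spec h5 x).2.2 _ (by omega) (by omega)

theorem c_pre_st (x : V) : c ((σ ^ (-1 : ℤ)) (st σ c x)) ≠ c x := by
  unfold st
  rw [zz]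
  have := (bk_spec h5 x).2.1
  rwa [show -1 + -(bk σ c x : ℤ) = -((bk σ c x : ℤ) + 1) by ring]

theorem fw_st (x : V) : fw σ c (st σ c x) = bk σ c x + fw σ c x := by
  obtain ⟨_, b1, b2⟩ := bk_spec h5 x
  obtain ⟨_, f1, f2⟩ := fw_spec h5 x
  apply fw_eq h5
  · rw [c_st h5]
    unfold st
    rw [zz]
    rwa [show ((bk σ c x + fw σ c x : ℕ) : ℤ) + 1 + -(bk σ c x : ℤ) = (fw σ c x : ℤ) + 1 by
      push_cast; ring]
  · intro i h0 hi
    rw [c_st h5]
    unfold st
    rw [zz]
    push_cast at hi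
    by_cases h : i ≤ bk σ c x
    · have := b2 (bk σ c x - i) (by omega) (by omega)
      rwa [show -((bk σ c x : ℤ) - i) = i + -(bk σ c x : ℤ) by ring] at this
    · exact f2 _ (by omega) (by omega)

/-- `s` is the first vertex of a run -/
theorem bk_start {s : V} (hs : c ((σ ^ (-1 : ℤ)) s) ≠ c s) {i : ℕ} (hi : i ≤ fw σ c s) :
    c ((σ ^ (i : ℤ)) s) = c s ∧ bk σ c ((σ ^ (i : ℤ)) s) = i ∧ st σ c ((σ ^ (i : ℤ)) s) = s := by
  obtain ⟨_, f1, f2⟩ := fw_spec h5 s
  have e1 : c ((σ ^ (i : ℤ)) s) = c s := f2 i (by omega) (by omega)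
  have e2 : bk σ c ((σ ^ (i : ℤ)) s) = i := by
    apply bk_eq h5
    · rw [e1, zz]
      rwa [show -((i : ℤ) + 1) + (i : ℤ) = -1 by ring]
    · intro j h0 hj
      rw [e1, zz]
      exact f2 _ (by omega) (by omega)
  refine ⟨e1, e2, ?_⟩
  unfold st
  rw [e2, zz]
  simp

theorem st_st (x : V) : c ((σ ^ (-1 : ℤ)) (st σ c x)) ≠ c (st σ c x) := by
  rw [c_st h5]; exact c_pre_st h5 x

theorem pow_bk_st (x : V) : (σ ^ (bk σ c x : ℤ)) (st σ c x) = x := by
  unfold st
  rw [zz]
  simp

theorem bk_succ {x : V} (h : c (σ x) = c x) : bk σ c (σ x) = bk σ c x + 1 ∧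
    st σ c (σ x) = st σ c x := by
  obtain ⟨_, b1, b2⟩ := bk_spec h5 x
  have hx : ∀ i : ℤ, (σ ^ i) (σ x) = (σ ^ (i + 1)) x := by
    intro i
    have := zz (σ := σ) i 1 x
    rwa [zpow_one] at this
  have e1 : bk σ c (σ x) = bk σ c x + 1 := by
    apply bk_eq h5
    · rw [h, hx]
      rwa [show -(((bk σ c x + 1 : ℕ) : ℤ) + 1) + 1 = -((bk σ c x : ℤ) + 1) by push_cast; ring]
    · intro i h0 hi
      push_cast at hi
      rw [h, hx]
      by_cases hz : i = 0
      · subst hz
        simpa using h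
      · have := b2 (i - 1) (by omega) (by omega)
        rwa [show -(i - 1) = -i + 1 by ring] at this
  refine ⟨e1, ?_⟩
  unfold st
  rw [e1, hx]
  congr 2
  push_cast
  ring

/-- the first vertices of runs of a given colour -/
theorem mem_starts_iff [Fintype V] [DecidableEq V] (b : Bool) (x : V) :
    x ∈ Finset.univ.filter (fun s => c s = b ∧ c ((σ ^ (-1 : ℤ)) s) ≠ b) ↔
      c x = b ∧ c ((σ ^ (-1 : ℤ)) x) ≠ b := by simp

theorem card_fiber [Fintype V] [DecidableEq V] {b : Bool} {s : V} (hs : c s = b)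
    (hs' : c ((σ ^ (-1 : ℤ)) s) ≠ b) :
    ((Finset.univ.filter (fun x => c x = b)).filter (fun x => st σ c x = s)).card = fw σ c s + 1 := by
  have hst : c ((σ ^ (-1 : ℤ)) s) ≠ c s := by rw [hs]; exact hs'
  have : (Finset.univ.filter (fun x => c x = b)).filter (fun x => st σ c x = s) =
      (Finset.range (fw σ c s + 1)).image (fun i : ℕ => (σ ^ (i : ℤ)) s) := by
    ext x
    simp only [Finset.mem_filter, Finset.mem_univ, true_and, Finset.mem_image, Finset.mem_range]
    constructor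
    · rintro ⟨h1, h2⟩
      refine ⟨bk σ c x, ?_, ?_⟩
      · rw [← h2, fw_st h5]; omega
      · rw [← h2]; exact pow_bk_st h5 x
    · rintro ⟨i, hi, rfl⟩
      obtain ⟨e1, e2, e3⟩ := bk_start h5 hst (show i ≤ fw σ c s by omega)
      exact ⟨e1.trans hs, e3⟩
  rw [this, Finset.card_image_of_injOn, Finset.card_range]
  intro i hi j hj e
  simp only [Finset.coe_range, Set.mem_Iio] at hi hj
  simp only at e
  have e1 := (bk_start h5 hst (show i ≤ fw σ c s by omega)).2.1
  have e2 := (bk_start h5 hst (show j ≤ fw σ c s by omega)).2.1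
  rw [← e1, e, e2]

theorem card_color [Fintype V] [DecidableEq V] (b : Bool) :
    (Finset.univ.filter (fun x => c x = b)).card =
      ∑ s ∈ Finset.univ.filter (fun s => c s = b ∧ c ((σ ^ (-1 : ℤ)) s) ≠ b), (fw σ c s + 1) := by
  rw [Finset.card_eq_sum_card_fiberwise (f := st σ c)
    (t := Finset.univ.filter (fun s => c s = b ∧ c ((σ ^ (-1 : ℤ)) s) ≠ b))]
  · apply Finset.sum_congr rfl
    intro s hs
    rw [mem_starts_iff h5] at hs
    exact card_fiber h5 hs.1 hs.2
  · intro x hx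
    simp only [Finset.coe_filter, Finset.mem_univ, true_and, Set.mem_ofPred_eq] at hx ⊢
    refine ⟨(c_st h5 x).trans hx, ?_⟩
    rw [← hx]
    exact c_pre_st h5 x

theorem sum_starts [Fintype V] [DecidableEq V] (A : Finset V) :
    ∑ s ∈ A, (fw σ c s + 1) = (A.filter (fun s => fw σ c s = 0)).card +
      2 * (A.filter (fun s => fw σ c s = 1)).card + 3 * (A.filter (fun s => fw σ c s = 2)).card +
      4 * (A.filter (fun s => fw σ c s = 3)).card := by
  rw [← Finset.sum_fiberwise_of_maps_to (s := A) (t := Finset.range 4) (g := fw σ c)]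
  · simp only [Finset.sum_range_succ, Finset.sum_range_zero, zero_add]
    have : ∀ n : ℕ, ∑ s ∈ A.filter (fun s => fw σ c s = n), (fw σ c s + 1) =
        (n + 1) * (A.filter (fun s => fw σ c s = n)).card := by
      intro n
      rw [Finset.sum_congr rfl (g := fun _ => n + 1) (by
        intro s hs
        rw [Finset.mem_filter] at hs
        rw [hs.2])]
      rw [Finset.sum_const, smul_eq_mul, mul_comm]
    rw [this 0, this 1, this 2, this 3]
    ring
  · intro s _
    have := (fw_spec h5 s).1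
    simp only [Finset.mem_range]
    omega

theorem card_starts [Fintype V] [DecidableEq V] (A : Finset V) :
    A.card = (A.filter (fun s => fw σ c s = 0)).card +
      (A.filter (fun s => fw σ c s = 1)).card + (A.filter (fun s => fw σ c s = 2)).card +
      (A.filter (fun s => fw σ c s = 3)).card := by
  rw [Finset.card_eq_sum_card_fiberwise (s := A) (t := Finset.range 4) (f := fw σ c)]
  · simp only [Finset.sum_range_succ, Finset.sum_range_zero, zero_add]
  · intro s _
    have := (fw_spec h5 s).1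
    simp only [Finset.coe_range, Set.mem_Iio]
    omega

end

end Pool.Agent.Helper827_ando
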