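import Mathlib
import Pool.Agent.Helper827_ando.Runs

namespace Pool.Agent.Helper827_ando

variable {V : Type*}

def P3 (b : Bool) : List Bool → Bool := match b with
  | true => p3t
  | false => p3f
def P4 (b : Bool) : List Bool → Bool := match b with
  | true => p4t
  | false => p4f

theorem P3_iff : ∀ b b0 b1 b2 b3 b4 b5 : Bool, P3 b [b0, b1, b2, b3, b4, b5] = true ↔
    b0 ≠ b ∧ b1 = b ∧ b2 = b ∧ b3 = b ∧ b4 ≠ b := by decide

theorem P4_iff : ∀ b b0 b1 b2 b3 b4 b5 : Bool, P4 b [b0, b1, b2, b3, b4, b5] = true ↔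
    b0 ≠ b ∧ b1 = b ∧ b2 = b ∧ b3 = b ∧ b4 = b ∧ b5 ≠ b := by decide

theorem win_pre (σ : Equiv.Perm V) (c : V → Bool) (s : V) :
    win σ c ((σ ^ (-1 : ℤ)) s) = [c ((σ ^ (-1 : ℤ)) s), c s, c ((σ ^ (1 : ℤ)) s),
      c ((σ ^ (2 : ℤ)) s), c ((σ ^ (3 : ℤ)) s), c ((σ ^ (4 : ℤ)) s)] := by
  unfold win
  rw [lst6_eq]
  have e : ∀ n : ℕ, (σ ^ n) ((σ ^ (-1 : ℤ)) s) = (σ ^ ((n : ℤ) + -1)) s := by
    intro n
    rw [← zz]; rfl
  rw [e, e, e, e, e, e]
  norm_num

section
variable {σ : Equiv.Perm V} {c : V → Bool} (h5 : ∀ x, p5 (win σ c x) = false)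
include h5

theorem fw2_iff (b : Bool) (s : V) : ((c s = b ∧ c ((σ ^ (-1 : ℤ)) s) ≠ b) ∧ fw σ c s = 2) ↔
    P3 b (win σ c ((σ ^ (-1 : ℤ)) s)) = true := by
  rw [win_pre, P3_iff]
  obtain ⟨_, f1, f2⟩ := fw_spec h5 s
  constructor
  · rintro ⟨⟨h1, h2⟩, h3⟩
    rw [h3] at f1 f2
    refine ⟨h2, h1, (f2 1 (by omega) (by norm_num)).trans h1, (f2 2 (by omega) (by norm_num)).trans h1, ?_⟩
    rw [← h1]
    simpa using f1
  · rintro ⟨h1, h2, h3, h4, h6⟩
    refine ⟨⟨h2, h1⟩, ?_⟩
    apply fw_eq h5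
    · rw [h2]; simpa using h6
    · intro i h0 hi
      push_cast at hi
      interval_cases i
      · simp
      · rw [h3, h2]
      · rw [h4, h2]

theorem fw3_iff (b : Bool) (s : V) : ((c s = b ∧ c ((σ ^ (-1 : ℤ)) s) ≠ b) ∧ fw σ c s = 3) ↔
    P4 b (win σ c ((σ ^ (-1 : ℤ)) s)) = true := by
  rw [win_pre, P4_iff]
  obtain ⟨_, f1, f2⟩ := fw_spec h5 s
  constructor
  · rintro ⟨⟨h1, h2⟩, h3⟩
    rw [h3] at f1 f2
    refine ⟨h2, h1, (f2 1 (by omega) (by norm_num)).trans h1, (f2 2 (by omega) (by norm_num)).trans h1,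
      (f2 3 (by omega) (by norm_num)).trans h1, ?_⟩
    rw [← h1]
    simpa using f1
  · rintro ⟨h1, h2, h3, h4, h6, h7⟩
    refine ⟨⟨h2, h1⟩, ?_⟩
    apply fw_eq h5
    · rw [h2]; simpa using h7
    · intro i h0 hi
      push_cast at hi
      interval_cases i
      · simp
      · rw [h3, h2]
      · rw [h4, h2]
      · rw [h6, h2]

theorem count2 [Fintype V] [DecidableEq V] (b : Bool) :
    ((Finset.univ.filter (fun s => c s = b ∧ c ((σ ^ (-1 : ℤ)) s) ≠ b)).filter
      (fun s => fw σ c s = 2)).card = ∑ x, if P3 b (win σ c x) = true then 1 else 0 := by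
  rw [← Equiv.sum_comp (σ ^ (-1 : ℤ)) (fun x => if P3 b (win σ c x) = true then 1 else 0),
    Finset.card_eq_sum_ones, Finset.filter_filter, Finset.sum_filter]
  apply Finset.sum_congr rfl
  intro s _
  simp only [fw2_iff h5]

theorem count3 [Fintype V] [DecidableEq V] (b : Bool) :
    ((Finset.univ.filter (fun s => c s = b ∧ c ((σ ^ (-1 : ℤ)) s) ≠ b)).filter
      (fun s => fw σ c s = 3)).card = ∑ x, if P4 b (win σ c x) = true then 1 else 0 := by
  rw [← Equiv.sum_comp (σ ^ (-1 : ℤ)) (fun x => if P4 b (win σ c x) = true then 1 else 0),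
    Finset.card_eq_sum_ones, Finset.filter_filter, Finset.sum_filter]
  apply Finset.sum_congr rfl
  intro s _
  simp only [fw3_iff h5]

end

theorem card_starts_eq [Fintype V] [DecidableEq V] (σ : Equiv.Perm V) (c : V → Bool) :
    (Finset.univ.filter (fun s => c s = true ∧ c ((σ ^ (-1 : ℤ)) s) ≠ true)).card =
    (Finset.univ.filter (fun s => c s = false ∧ c ((σ ^ (-1 : ℤ)) s) ≠ false)).card := by
  have e1 : (Finset.univ.filter (fun s => c s = true)).card =
      (Finset.univ.filter (fun s => c ((σ ^ (-1 : ℤ)) s) = true)).card := by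
    rw [Finset.card_eq_sum_ones, Finset.card_eq_sum_ones, Finset.sum_filter, Finset.sum_filter]
    exact (Equiv.sum_comp (σ ^ (-1 : ℤ)) (fun x => if c x = true then 1 else 0)).symm
  have e2 := Finset.card_filter_add_card_filter_not (s := Finset.univ.filter (fun s => c s = true))
    (fun s => c ((σ ^ (-1 : ℤ)) s) = true)
  have e3 := Finset.card_filter_add_card_filter_not
    (s := Finset.univ.filter (fun s => c ((σ ^ (-1 : ℤ)) s) = true)) (fun s => c s = true)
  rw [Finset.filter_filter, Finset.filter_filter] at e2 e3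
  have e4 : (Finset.univ.filter (fun s => c s = true ∧ c ((σ ^ (-1 : ℤ)) s) = true)) =
      Finset.univ.filter (fun s => c ((σ ^ (-1 : ℤ)) s) = true ∧ c s = true) := by
    ext x; simp only [Finset.mem_filter, and_comm]
  have e5 : (Finset.univ.filter (fun s => c s = false ∧ c ((σ ^ (-1 : ℤ)) s) ≠ false)) =
      Finset.univ.filter (fun s => c ((σ ^ (-1 : ℤ)) s) = true ∧ ¬ c s = true) := by
    ext x
    simp only [Finset.mem_filter, Finset.mem_univ, true_and, Bool.not_eq_true, ne_eq,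
      Bool.not_eq_false, and_comm]
  rw [e4] at e2
  rw [e5]
  simp only [ne_eq]
  omega

/-- a colour swapping involution which preserves the runs -/
theorem Good.exists_swap [Fintype V] [DecidableEq V] {σ : Equiv.Perm V} {μ : V → V} {c : V → Bool}
    (G : Good σ μ c) (hμ : ∀ x, μ (μ x) = x) :
    ∃ φ : V → V, (∀ x, φ (φ x) = x) ∧ (∀ x, c (φ x) ≠ c x) ∧
      ∀ x, c (σ x) = c x → φ (σ x) = σ (φ x) := by
  have h5 := G.no5
  -- the two colour classes have the same size
  have hcard : (Finset.univ.filter (fun x => c x = true)).card =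
      (Finset.univ.filter (fun x => c x = false)).card := by
    apply Finset.card_nbij' μ μ
    · intro x hx
      simp only [Finset.coe_filter, Finset.mem_univ, true_and, Set.mem_ofPred_eq] at hx ⊢
      have := G.opp x
      rw [hx] at this
      simpa using this
    · intro x hx
      simp only [Finset.coe_filter, Finset.mem_univ, true_and, Set.mem_ofPred_eq] at hx ⊢
      have := G.opp x
      rw [hx] at this
      simpa using this
    · intro x _; exact hμ x
    · intro x _; exact hμ x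
  have t1 := card_color h5 true
  have t2 := card_color h5 false
  rw [sum_starts h5] at t1 t2
  have t3 := card_starts_eq σ c
  rw [card_starts h5 (Finset.univ.filter (fun s => c s = true ∧ c ((σ ^ (-1 : ℤ)) s) ≠ true)),
    card_starts h5 (Finset.univ.filter (fun s => c s = false ∧ c ((σ ^ (-1 : ℤ)) s) ≠ false))] at t3
  have t4 := count2 h5 true
  have t5 := count2 h5 false
  have t6 := count3 h5 true
  have t7 := count3 h5 false
  have t8 : (∑ x, if P3 true (win σ c x) = true then 1 else 0) =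
    ∑ x, if P3 false (win σ c x) = true then 1 else 0 := G.three
  have t9 : (∑ x, if P4 true (win σ c x) = true then 1 else 0) =
    ∑ x, if P4 false (win σ c x) = true then 1 else 0 := G.four
  rw [← t4, ← t5] at t8
  rw [← t6, ← t7] at t9
  obtain ⟨ψ, hψ1, hψ2⟩ := exists_psi (fw σ c) _
    (Finset.univ.filter (fun s => c s = true ∧ c ((σ ^ (-1 : ℤ)) s) ≠ true))
    (Finset.univ.filter (fun s => c s = false ∧ c ((σ ^ (-1 : ℤ)) s) ≠ false)) rfl (by
      rw [Finset.disjoint_left]
      intro x hx hx'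
      simp only [Finset.mem_filter, Finset.mem_univ, true_and] at hx hx'
      rw [hx.1] at hx'
      exact absurd hx'.1 (by simp)) (by
      intro j
      by_cases hj : j ≤ 3
      · interval_cases j <;> omega
      · have hz : ∀ A : Finset V, (A.filter (fun x => fw σ c x = j)).card = 0 := by
          intro A
          rw [Finset.card_eq_zero, Finset.filter_eq_empty_iff]
          intro x _ e
          have := (fw_spec h5 x).1
          omega
        rw [hz, hz])
  have hψ : ∀ s, c ((σ ^ (-1 : ℤ)) s) ≠ c s → c (ψ s) ≠ c s ∧ fw σ c (ψ s) = fw σ c s ∧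
      ψ (ψ s) = s ∧ c ((σ ^ (-1 : ℤ)) (ψ s)) ≠ c (ψ s) := by
    intro s hs
    cases hcs : c s with
    | true =>
      rw [hcs] at hs
      obtain ⟨g1, g2, g3⟩ := hψ1 s (by simp only [Finset.mem_filter, Finset.mem_univ, true_and]; exact ⟨hcs, hs⟩)
      simp only [Finset.mem_filter, Finset.mem_univ, true_and] at g1
      refine ⟨by rw [g1.1]; simp, g2, g3, by rw [g1.1]; exact g1.2⟩
    | false =>
      rw [hcs] at hs
      obtain ⟨g1, g2, g3⟩ := hψ2 s (by simp only [Finset.mem_filter, Finset.mem_univ, true_and]; exact ⟨hcs, hs⟩)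
      simp only [Finset.mem_filter, Finset.mem_univ, true_and] at g1
      refine ⟨by rw [g1.1]; simp, g2, g3, by rw [g1.1]; exact g1.2⟩
  have key : ∀ x, c ((σ ^ (bk σ c x : ℤ)) (ψ (st σ c x))) ≠ c x ∧
      bk σ c ((σ ^ (bk σ c x : ℤ)) (ψ (st σ c x))) = bk σ c x ∧
      st σ c ((σ ^ (bk σ c x : ℤ)) (ψ (st σ c x))) = ψ (st σ c x) := by
    intro x
    obtain ⟨g1, g2, g3, g4⟩ := hψ _ (st_st h5 x)
    have hle : bk σ c x ≤ fw σ c (ψ (st σ c x)) := by rw [g2, fw_st h5]; omega
    obtain ⟨k1, k2, k3⟩ := bk_start h5 g4 hle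
    rw [k1]
    rw [c_st h5] at g1
    exact ⟨g1, k2, k3⟩
  refine ⟨fun x => (σ ^ (bk σ c x : ℤ)) (ψ (st σ c x)), ?_, fun x => (key x).1, ?_⟩
  · intro x
    obtain ⟨k1, k2, k3⟩ := key x
    simp only
    rw [k2, k3, (hψ _ (st_st h5 x)).2.2.1]
    exact pow_bk_st h5 x
  · intro x hx
    obtain ⟨k1, k2⟩ := bk_succ h5 hx
    simp only
    rw [k1, k2]
    push_cast
    rw [add_comm, zpow_add, zpow_one, Equiv.Perm.mul_apply]

end Pool.Agent.Helper827_ando
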