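import Mathlib
import Pool.Agent.Helper827_ando.Swap

namespace Pool.Agent.Helper827_ando

theorem acyclic_of_height {W : Type*} (H : SimpleGraph W) (h : W → ℕ)
    (h1 : ∀ x y, H.Adj x y → h x ≠ h y)
    (h2 : ∀ x y z, H.Adj x y → H.Adj x z → h x < h y → h x < h z → y = z) : H.IsAcyclic := by
  classical
  intro v p hp
  have hfin : {u | u ∈ p.support}.Finite := List.finite_toSet p.support
  obtain ⟨u, hu, hmin⟩ := Set.exists_min_image {u | u ∈ p.support} h hfin ⟨v, p.start_mem_support⟩
  have hp' := hp.rotate hu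
  have hn : ¬ (p.rotate u hu).Nil := hp'.not_nil
  have a1 := SimpleGraph.Walk.adj_snd hn
  have a2 := (SimpleGraph.Walk.adj_penultimate hn).symm
  have m1 : (p.rotate u hu).snd ∈ p.support := by
    rw [← SimpleGraph.Walk.mem_support_rotate_iff p u hu]
    exact SimpleGraph.Walk.getVert_mem_support _ _
  have m2 : (p.rotate u hu).penultimate ∈ p.support := by
    rw [← SimpleGraph.Walk.mem_support_rotate_iff p u hu]
    exact SimpleGraph.Walk.getVert_mem_support _ _
  have l1 := lt_of_le_of_ne (hmin _ m1) (h1 _ _ a1)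
  have l2 := lt_of_le_of_ne (hmin _ m2) (h1 _ _ a2)
  exact hp'.snd_ne_penultimate (h2 _ _ _ a1 a2 l1 l2)

variable {V : Type*}

section
variable [Fintype V] [DecidableEq V] {G : SimpleGraph V} {σ : Equiv.Perm V} {μ : V → V}
  {c : V → Bool} (hc : Good σ μ c) (hadj : ∀ x y, G.Adj x y ↔ (σ x = y ∨ σ y = x) ∨ μ x = y)
include hc hadj

theorem mono_adj {x y : V} (h : c x = c y) : G.Adj x y ↔ σ x = y ∨ σ y = x := by
  rw [hadj]
  constructor
  · rintro (h' | h')
    · exact h'
    · exfalso
      apply hc.opp x
      rw [h', h]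
  · exact Or.inl

theorem induce_acyclic (T : Set V) (b : Bool) (hT : ∀ x ∈ T, c x = b) :
    (G.induce T).IsAcyclic := by
  have key : ∀ x y : T, (G.induce T).Adj x y → (σ x.1 = y.1 ∧ bk σ c y.1 = bk σ c x.1 + 1) ∨
      (σ y.1 = x.1 ∧ bk σ c x.1 = bk σ c y.1 + 1) := by
    intro x y hxy
    rw [SimpleGraph.comap_adj] at hxy
    have hxc := hT x.1 x.2
    have hyc := hT y.1 y.2
    rcases (mono_adj hc hadj (hxc.trans hyc.symm)).1 hxy with h | h
    · left
      refine ⟨h, ?_⟩
      have := (bk_succ hc.no5 (x := x.1) (by rw [h, hxc, hyc])).1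
      rwa [h] at this
    · right
      refine ⟨h, ?_⟩
      have := (bk_succ hc.no5 (x := y.1) (by rw [h, hxc, hyc])).1
      rwa [h] at this
  apply acyclic_of_height _ (fun x => bk σ c x.1)
  · intro x y hxy
    rcases key x y hxy with ⟨_, h⟩ | ⟨_, h⟩ <;> omega
  · intro x y z hxy hxz l1 l2
    rcases key x y hxy with ⟨e1, h⟩ | ⟨_, h⟩
    · rcases key x z hxz with ⟨e2, h'⟩ | ⟨_, h'⟩
      · exact Subtype.ext (e1.symm.trans e2)
      · omega
    · omega

theorem induce_degree (S : Finset V) (b : Bool) (hS : ∀ x ∈ S, c x = b) [DecidableRel G.Adj]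
    (v : V) (hv : v ∈ S) : (S.filter (fun w => G.Adj v w)).card ≤ 2 := by
  have : S.filter (fun w => G.Adj v w) ⊆ {σ v, σ.symm v} := by
    intro w hw
    rw [Finset.mem_filter] at hw
    have := (mono_adj hc hadj ((hS v hv).trans (hS w hw.1).symm)).1 hw.2
    rw [Finset.mem_insert, Finset.mem_singleton]
    rcases this with h | h
    · exact Or.inl h.symm
    · exact Or.inr (by rw [Equiv.eq_symm_apply]; exact h)
  exact (Finset.card_le_card this).trans Finset.card_le_two

theorem induce_comp (T : Set V) (b : Bool) (hT : ∀ x ∈ T, c x = b)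
    (C : (G.induce T).ConnectedComponent) : C.supp.ncard ≤ 4 := by
  have hst : ∀ x y : T, (G.induce T).Reachable x y → st σ c x.1 = st σ c y.1 := by
    intro x y hxy
    obtain ⟨p⟩ := hxy
    induction p with
    | nil => rfl
    | cons h p ih =>
      rename_i u v w
      rw [← ih]
      rw [SimpleGraph.comap_adj] at h
      have hxc := hT u.1 u.2
      have hyc := hT v.1 v.2
      rcases (mono_adj hc hadj (hxc.trans hyc.symm)).1 h with h | h
      · have := (bk_succ hc.no5 (x := u.1) (by rw [h, hxc, hyc])).2
        rw [h] at this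
        exact this.symm
      · have := (bk_succ hc.no5 (x := v.1) (by rw [h, hxc, hyc])).2
        rw [h] at this
        exact this
  induction C using SimpleGraph.ConnectedComponent.ind with
  | h x =>
    have hinj : Set.InjOn (fun y : T => bk σ c y.1)
        ((G.induce T).connectedComponentMk x).supp := by
      intro y hy z hz e
      have h1 := hst y x (SimpleGraph.ConnectedComponent.exact hy)
      have h2 := hst z x (SimpleGraph.ConnectedComponent.exact hz)
      apply Subtype.ext
      rw [← pow_bk_st hc.no5 y.1, ← pow_bk_st hc.no5 z.1, h1, h2]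
      simp only at e
      rw [e]
    rw [← Set.ncard_image_of_injOn hinj]
    have hsub : (fun y : T => bk σ c y.1) '' ((G.induce T).connectedComponentMk x).supp ⊆
        (Finset.range 4 : Set ℕ) := by
      rintro n ⟨y, _, rfl⟩
      have := (bk_spec hc.no5 y.1).1
      simp only [Finset.coe_range, Set.mem_Iio]
      omega
    have := Set.ncard_le_ncard hsub (Finset.finite_toSet _)
    rwa [Set.ncard_coe_finset, Finset.card_range] at this

theorem conclusion [DecidableRel G.Adj] (hμ : ∀ x, μ (μ x) = x) :
    ∃ S : Finset V,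
      S.card = Sᶜ.card ∧
      Nonempty (G.induce (S : Set V) ≃g G.induce ((Sᶜ : Finset V) : Set V)) ∧
      (G.induce (S : Set V)).IsAcyclic ∧
      (G.induce ((Sᶜ : Finset V) : Set V)).IsAcyclic ∧
      (∀ v ∈ S, (S.filter (fun w => G.Adj v w)).card ≤ 2) ∧
      (∀ v ∈ Sᶜ, (Sᶜ.filter (fun w => G.Adj v w)).card ≤ 2) ∧
      (∀ C : (G.induce (S : Set V)).ConnectedComponent, C.supp.ncard ≤ 4) ∧
      (∀ C : (G.induce ((Sᶜ : Finset V) : Set V)).ConnectedComponent, C.supp.ncard ≤ 4) := by
  obtain ⟨φ, f1, f2, f3⟩ := hc.exists_swap hμ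
  have memS : ∀ x, x ∈ Finset.univ.filter (fun x => c x = true) ↔ c x = true := by
    intro x; simp
  have memS' : ∀ x, x ∈ (Finset.univ.filter (fun x => c x = true))ᶜ ↔ c x = false := by
    intro x; simp
  have hφ1 : ∀ x, c x = true → c (φ x) = false := by
    intro x hx
    have := f2 x
    rw [hx] at this
    simpa using this
  have hφ2 : ∀ x, c x = false → c (φ x) = true := by
    intro x hx
    have := f2 x
    rw [hx] at this
    simpa using this
  have hrel : ∀ x y, c x = c y → (G.Adj (φ x) (φ y) ↔ G.Adj x y) := by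
    intro x y hxy
    have hxy' : c (φ x) = c (φ y) := by
      have h1 := f2 x
      have h2 := f2 y
      revert h1 h2
      rw [hxy]
      cases c (φ x) <;> cases c (φ y) <;> cases c y <;> simp
    rw [mono_adj hc hadj hxy, mono_adj hc hadj hxy']
    have one : ∀ a b, c a = c b → σ a = b → σ (φ a) = φ b := by
      intro a b hab h
      rw [← f3 a (by rw [h, hab]), h]
    constructor
    · rintro (h | h)
      · left
        have := one _ _ hxy' h
        rwa [f1, f1] at this
      · right
        have := one _ _ hxy'.symm h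
        rwa [f1, f1] at this
    · rintro (h | h)
      · exact Or.inl (one _ _ hxy h)
      · exact Or.inr (one _ _ hxy.symm h)
  refine ⟨Finset.univ.filter (fun x => c x = true), ?_, ?_, ?_, ?_, ?_, ?_, ?_, ?_⟩
  · apply Finset.card_nbij' φ φ
    · intro x hx
      rw [Finset.mem_coe, memS] at hx
      rw [Finset.mem_coe, memS']
      exact hφ1 x hx
    · intro x hx
      rw [Finset.mem_coe, memS'] at hx
      rw [Finset.mem_coe, memS]
      exact hφ2 x hx
    · intro x _; exact f1 x
    · intro x _; exact f1 x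
  · refine ⟨⟨⟨fun x => ⟨φ x.1, ?_⟩, fun x => ⟨φ x.1, ?_⟩, ?_, ?_⟩, ?_⟩⟩
    · have := x.2
      rw [Finset.mem_coe, memS] at this
      rw [Finset.mem_coe, memS']
      exact hφ1 _ this
    · have := x.2
      rw [Finset.mem_coe, memS'] at this
      rw [Finset.mem_coe, memS]
      exact hφ2 _ this
    · intro x
      exact Subtype.ext (f1 x.1)
    · intro x
      exact Subtype.ext (f1 x.1)
    · intro x y
      rw [SimpleGraph.comap_adj, SimpleGraph.comap_adj]
      apply hrel
      have h1 := x.2
      have h2 := y.2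
      rw [Finset.mem_coe, memS] at h1 h2
      rw [h1, h2]
  · exact induce_acyclic hc hadj _ true (fun x hx => by rwa [Finset.mem_coe, memS] at hx)
  · exact induce_acyclic hc hadj _ false (fun x hx => by rwa [Finset.mem_coe, memS'] at hx)
  · exact fun v hv => induce_degree hc hadj _ true (fun x hx => by rwa [memS] at hx) v hv
  · exact fun v hv => induce_degree hc hadj _ false (fun x hx => by rwa [memS'] at hx) v hv
  · exact induce_comp hc hadj _ true (fun x hx => by rwa [Finset.mem_coe, memS] at hx)
  · exact induce_comp hc hadj _ false (fun x hx => by rwa [Finset.mem_coe, memS'] at hx)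

end

end Pool.Agent.Helper827_ando
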