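import Mathlib
import Pool.Agent.Helper827_ando.Exists

namespace Pool.Agent.Helper827_ando

variable {V : Type*}

theorem zz_perm {D : Type*} (ρ : Equiv.Perm D) (i j : ℤ) (d : D) :
    (ρ ^ i) ((ρ ^ j) d) = (ρ ^ (i + j)) d := by
  rw [zpow_add, Equiv.Perm.mul_apply]

/-- a finite 2-regular graph can be oriented: it is the graph of a permutation -/
theorem exists_orient [Fintype V] [DecidableEq V] (F : SimpleGraph V) [DecidableRel F.Adj]
    (hF : F.IsRegularOfDegree 2) :
    ∃ σ : Equiv.Perm V, (∀ x y, F.Adj x y ↔ σ x = y ∨ σ y = x) ∧ (∀ x, σ x ≠ x) ∧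
      ∀ x, σ (σ x) ≠ x := by
  classical
  have hnx : ∀ d : {d : V × V // F.Adj d.1 d.2}, ∃ w, F.Adj d.1.2 w ∧ w ≠ d.1.1 ∧
      ∀ x, F.Adj d.1.2 x → x = d.1.1 ∨ x = w := by
    rintro ⟨⟨u, v⟩, huv⟩
    have h2 := hF v
    rw [← SimpleGraph.card_neighborFinset_eq_degree, Finset.card_eq_two] at h2
    obtain ⟨a, b, hab, hN⟩ := h2
    have hmem : ∀ x, F.Adj v x ↔ x = a ∨ x = b := by
      intro x
      rw [← SimpleGraph.mem_neighborFinset, hN]
      simp
    simp only at huv ⊢
    rcases (hmem u).1 huv.symm with h | h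
    · exact ⟨b, (hmem b).2 (Or.inr rfl), by rw [h]; exact hab.symm, fun x hx => by
        rw [h]; exact (hmem x).1 hx⟩
    · exact ⟨a, (hmem a).2 (Or.inl rfl), by rw [h]; exact hab, fun x hx => by
        rw [h]; exact ((hmem x).1 hx).symm⟩
  choose nx hnx1 hnx2 hnx3 using hnx
  let ρ0 : {d : V × V // F.Adj d.1 d.2} → {d : V × V // F.Adj d.1 d.2} :=
    fun d => ⟨(d.1.2, nx d), hnx1 d⟩
  let r : {d : V × V // F.Adj d.1 d.2} → {d : V × V // F.Adj d.1 d.2} :=
    fun d => ⟨(d.1.2, d.1.1), d.2.symm⟩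
  have hrr : ∀ d, r (r d) = d := fun d => rfl
  have hrho : ∀ d, r (ρ0 (r (ρ0 d))) = d := by
    intro d
    have h1 := hnx1 (r (ρ0 d))
    have h2 := hnx2 (r (ρ0 d))
    have h3 := hnx3 d (nx (r (ρ0 d))) h1
    have h4 : nx (r (ρ0 d)) = d.1.1 := by
      rcases h3 with h | h
      · exact h
      · exact absurd h h2
    apply Subtype.ext
    apply Prod.ext
    · exact h4
    · rfl
  have hrho' : ∀ d, ρ0 (r (ρ0 (r d))) = d := by
    intro d
    have := congrArg r (hrho (r d))
    rwa [hrr, hrr] at this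
  let ρ : Equiv.Perm {d : V × V // F.Adj d.1 d.2} := ⟨ρ0, fun d => r (ρ0 (r d)), hrho, hrho'⟩
  let R : Equiv.Perm {d : V × V // F.Adj d.1 d.2} := ⟨r, r, hrr, hrr⟩
  have hconj : R * ρ * R⁻¹ = ρ⁻¹ := by
    ext1 d
    rfl
  have hR : ∀ (j : ℤ) (d), r ((ρ ^ j) d) = (ρ ^ (-j)) (r d) := by
    intro j d
    have h1 := conj_zpow (a := R) (b := ρ) (i := j)
    rw [hconj, inv_zpow'] at h1
    have h2 := congrArg (fun f : Equiv.Perm {d : V × V // F.Adj d.1 d.2} => f (r d)) h1
    simp only [Equiv.Perm.mul_apply] at h2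
    rw [h2]
    rfl
  have hnot : ∀ d, ¬ ρ.SameCycle d (r d) := by
    rintro d ⟨k, hk⟩
    have hne1 : ∀ e, r e ≠ e := by
      intro e h
      have := congrArg (fun x : {d : V × V // F.Adj d.1 d.2} => x.1.1) h
      simp only [r] at this
      exact e.2.ne this.symm
    have hne2 : ∀ e, ρ e ≠ r e := by
      intro e h
      have := congrArg (fun x : {d : V × V // F.Adj d.1 d.2} => x.1.2) h
      exact hnx2 e this
    rcases Int.even_or_odd' k with ⟨j, rfl | rfl⟩
    · apply hne1 ((ρ ^ j) d)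
      rw [hR, ← hk, zz_perm]
      congr 2; ring
    · apply hne2 ((ρ ^ j) d)
      rw [hR, ← hk, zz_perm]
      have : ρ ((ρ ^ j) d) = (ρ ^ (1 + j)) d := by
        rw [zpow_add, zpow_one, Equiv.Perm.mul_apply]
      rw [this]
      congr 2; ring
  obtain ⟨rep, hrep⟩ := exists_rep ρ
  let e := Finite.equivFin {d : V × V // F.Adj d.1 d.2}
  let chosen : {d : V × V // F.Adj d.1 d.2} → Prop := fun d => e (rep d) < e (rep (r d))
  have hch1 : ∀ d, chosen (r d) ↔ ¬ chosen d := by
    intro d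
    have hne : e (rep d) ≠ e (rep (r d)) := by
      intro h
      have h1 := e.injective h
      apply hnot d
      have s1 := hrep.same d
      have s2 := hrep.same (r d)
      rw [← h1] at s2
      exact s1.symm.trans s2
    simp only [chosen, hrr]
    rw [not_lt]
    constructor
    · intro h; exact h.le
    · intro h; exact lt_of_le_of_ne h hne.symm
  have hch2 : ∀ d, chosen (ρ d) ↔ chosen d := by
    intro d
    have h1 : rep (ρ d) = rep d := (hrep.const _ _ (sameCycle_apply d)).symm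
    have h2 : rep (r (ρ d)) = rep (r d) := by
      have := hR 1 d
      rw [zpow_one] at this
      rw [this]
      exact (hrep.const _ _ ⟨-1, rfl⟩).symm
    simp only [chosen, h1, h2]
  let ch : V → V → Prop := fun v w => ∃ h : F.Adj v w, chosen ⟨(v, w), h⟩
  have C1 : ∀ v w, ch v w → ¬ ch w v := by
    rintro v w ⟨h, h1⟩ ⟨h', h2⟩
    exact (hch1 ⟨(v, w), h⟩).1 h2 h1
  have C1' : ∀ v w, F.Adj v w → ch v w ∨ ch w v := by
    intro v w h
    by_cases h1 : chosen ⟨(v, w), h⟩
    · exact Or.inl ⟨h, h1⟩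
    · exact Or.inr ⟨h.symm, (hch1 ⟨(v, w), h⟩).2 h1⟩
  have N : ∀ u v w, F.Adj u v → F.Adj v w → w ≠ u → (ch u v ↔ ch v w) := by
    intro u v w huv hvw hne
    have h1 : nx ⟨(u, v), huv⟩ = w := by
      rcases hnx3 ⟨(u, v), huv⟩ w hvw with h | h
      · exact absurd h hne
      · exact h.symm
    have h2 : ρ ⟨(u, v), huv⟩ = ⟨(v, w), hvw⟩ := by
      apply Subtype.ext
      apply Prod.ext
      · rfl
      · exact h1
    constructor
    · rintro ⟨h, h3⟩
      refine ⟨hvw, ?_⟩
      rw [← h2]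
      exact (hch2 _).2 h3
    · rintro ⟨h, h3⟩
      refine ⟨huv, ?_⟩
      rw [← h2] at h3
      exact (hch2 _).1 h3
  have C2 : ∀ v, ∃ w, ch v w := by
    intro v
    have h2 := hF v
    rw [← SimpleGraph.card_neighborFinset_eq_degree, Finset.card_eq_two] at h2
    obtain ⟨a, b, hab, hN⟩ := h2
    have ha : F.Adj v a := by rw [← SimpleGraph.mem_neighborFinset, hN]; simp
    have hb : F.Adj v b := by rw [← SimpleGraph.mem_neighborFinset, hN]; simp
    rcases C1' v a ha with h | h
    · exact ⟨a, h⟩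
    · exact ⟨b, (N a v b ha.symm hb hab.symm).1 h⟩
  have C3 : ∀ v w w', ch v w → ch v w' → w = w' := by
    intro v w w' h h'
    by_contra hne
    have := (N w' v w h'.1.symm h.1 hne).2 h
    exact C1 _ _ h' this
  have C4 : ∀ v v' w, ch v w → ch v' w → v = v' := by
    intro v v' w h h'
    by_contra hne
    have := (N v w v' h.1 h'.1.symm (Ne.symm hne)).1 h
    exact C1 _ _ this h'
  choose s hs using C2
  have hinj : Function.Injective s := by
    intro x y hxy
    have h1 := hs x
    have h2 := hs y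
    rw [hxy] at h1
    exact C4 _ _ _ h1 h2
  refine ⟨Equiv.ofBijective s (Finite.injective_iff_bijective.1 hinj), ?_, ?_, ?_⟩
  · intro x y
    simp only [Equiv.ofBijective_apply]
    constructor
    · intro h
      rcases C1' x y h with h | h
      · exact Or.inl (C3 _ _ _ (hs x) h)
      · exact Or.inr (C3 _ _ _ (hs y) h)
    · rintro (rfl | rfl)
      · exact (hs x).1
      · exact (hs y).1.symm
  · intro x
    simp only [Equiv.ofBijective_apply]
    intro h
    have := (hs x).1
    rw [h] at this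
    exact F.loopless.irrefl _ this
  · intro x
    simp only [Equiv.ofBijective_apply]
    intro h
    have h1 := hs x
    have h2 := hs (s x)
    rw [h] at h2
    exact C1 _ _ h1 h2

end Pool.Agent.Helper827_ando
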