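import Mathlib
import Pool.Agent.Helper827_ando.Graph
import Pool.Agent.Helper827_ando.Orient
import Pool.Agent.Helper827_ando.Glue

namespace Pool.Agent.Helper827_ando

variable {V : Type*}

/-- the edges outside a 2-factor of a cubic graph form a perfect matching -/
theorem exists_mu [Fintype V] [DecidableEq V] (G F : SimpleGraph V) [DecidableRel G.Adj]
    [DecidableRel F.Adj] (hG : G.IsRegularOfDegree 3) (hFG : F ≤ G) (hF : F.IsRegularOfDegree 2) :
    ∃ μ : V → V, (∀ x, μ x ≠ x ∧ μ (μ x) = x) ∧ ∀ x y, G.Adj x y ↔ F.Adj x y ∨ μ x = y := by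
  have h1 : ∀ x, ∃ y, G.neighborFinset x \ F.neighborFinset x = {y} := by
    intro x
    rw [← Finset.card_eq_one, Finset.card_sdiff_of_subset, SimpleGraph.card_neighborFinset_eq_degree,
      SimpleGraph.card_neighborFinset_eq_degree, hG x, hF x]
    intro y hy
    rw [SimpleGraph.mem_neighborFinset] at hy ⊢
    exact hFG hy
  choose μ hμ using h1
  have key : ∀ x y, (G.Adj x y ∧ ¬ F.Adj x y) ↔ y = μ x := by
    intro x y
    rw [← SimpleGraph.mem_neighborFinset, ← SimpleGraph.mem_neighborFinset, ← Finset.mem_sdiff, hμ,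
      Finset.mem_singleton]
  refine ⟨μ, ?_, ?_⟩
  · intro x
    have h2 := (key x (μ x)).2 rfl
    refine ⟨h2.1.ne', ?_⟩
    exact ((key (μ x) x).1 ⟨h2.1.symm, fun h => h2.2 h.symm⟩).symm
  · intro x y
    constructor
    · intro h
      by_cases hf : F.Adj x y
      · exact Or.inl hf
      · exact Or.inr ((key x y).1 ⟨h, hf⟩).symm
    · rintro (h | h)
      · exact hFG h
      · exact ((key x y).2 h.symm).1

theorem reachable_iff [Finite V] {F : SimpleGraph V} {σ : Equiv.Perm V}
    (hσ : ∀ x y, F.Adj x y ↔ σ x = y ∨ σ y = x) (x y : V) :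
    F.Reachable x y ↔ σ.SameCycle x y := by
  constructor
  · rintro ⟨p⟩
    induction p with
    | nil => exact Equiv.Perm.SameCycle.refl _ _
    | cons h p ih =>
      rename_i u v w
      refine Equiv.Perm.SameCycle.trans ?_ ih
      rcases (hσ u v).1 h with h | h
      · exact h ▸ sameCycle_apply u
      · exact (h ▸ sameCycle_apply v : σ.SameCycle v u).symm
  · intro h
    obtain ⟨n, _, rfl⟩ := exists_pow_lt σ h
    clear h
    rename_i h0
    clear h0
    induction n with
    | zero => simp
    | succ n ih =>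
      refine ih.trans ?_
      apply SimpleGraph.Adj.reachable
      rw [hσ, pow_succ', Equiv.Perm.mul_apply]
      exact Or.inl rfl

theorem main_two_odd [Fintype V] [DecidableEq V] (G F : SimpleGraph V) [DecidableRel G.Adj]
    [DecidableRel F.Adj] (hG : G.IsRegularOfDegree 3) (hFG : F ≤ G) (hF : F.IsRegularOfDegree 2)
    (hodd : ∀ D : G.ConnectedComponent,
      {C : F.ConnectedComponent | C.supp ⊆ D.supp ∧ Odd C.supp.ncard ∧ 5 ≤ C.supp.ncard}.ncard ≤ 2) :
    ∃ S : Finset V,
      S.card = Sᶜ.card ∧
      Nonempty (G.induce (S : Set V) ≃g G.induce ((Sᶜ : Finset V) : Set V)) ∧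
      (G.induce (S : Set V)).IsAcyclic ∧
      (G.induce ((Sᶜ : Finset V) : Set V)).IsAcyclic ∧
      (∀ v ∈ S, (S.filter (fun w => G.Adj v w)).card ≤ 2) ∧
      (∀ v ∈ Sᶜ, (Sᶜ.filter (fun w => G.Adj v w)).card ≤ 2) ∧
      (∀ C : (G.induce (S : Set V)).ConnectedComponent, C.supp.ncard ≤ 4) ∧
      (∀ C : (G.induce ((Sᶜ : Finset V) : Set V)).ConnectedComponent, C.supp.ncard ≤ 4) := by
  classical
  obtain ⟨σ, hσ, hfix1, hfix2⟩ := exists_orient F hF
  obtain ⟨μ, hμ, hGF⟩ := exists_mu G F hG hFG hF
  have hadj : ∀ x y, G.Adj x y ↔ (σ x = y ∨ σ y = x) ∨ μ x = y := by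
    intro x y
    rw [hGF, hσ]
  have h3 : ∀ x, 3 ≤ Function.minimalPeriod σ x := by
    intro x
    have hp := per_pos σ x
    have h1 : Function.minimalPeriod σ x ≠ 1 := by
      intro h
      exact hfix1 x (Function.minimalPeriod_eq_one_iff_isFixedPt.1 h)
    have h2 : Function.minimalPeriod σ x ≠ 2 := by
      intro h
      have := Function.isPeriodicPt_minimalPeriod σ x
      rw [h] at this
      exact hfix2 x this
    omega
  have hcompF : ∀ x y, F.connectedComponentMk x = F.connectedComponentMk y ↔ σ.SameCycle x y := by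
    intro x y
    rw [SimpleGraph.ConnectedComponent.eq, reachable_iff hσ]
  have hncard : ∀ x, (F.connectedComponentMk x).supp.ncard = Function.minimalPeriod σ x := by
    intro x
    have h1 : (F.connectedComponentMk x).supp =
        ((Finset.univ.filter (fun y => σ.SameCycle x y) : Finset V) : Set V) := by
      ext y
      rw [SimpleGraph.ConnectedComponent.mem_supp_iff, hcompF, Finset.mem_coe, Finset.mem_filter]
      constructor
      · intro h; exact ⟨Finset.mem_univ _, h.symm⟩
      · intro h; exact h.2.symm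
    rw [h1, Set.ncard_coe_finset]
    exact card_cycle x _ (fun y => by simp)
  have : Fintype G.ConnectedComponent := Fintype.ofFinite _
  obtain ⟨c, hc⟩ := exists_good_comp (σ := σ) (K := G.ConnectedComponent) G.connectedComponentMk
    (fun x => SimpleGraph.ConnectedComponent.sound
      (SimpleGraph.Adj.reachable ((hadj _ _).2 (Or.inl (Or.inr rfl))))) μ
    (fun x => SimpleGraph.ConnectedComponent.sound
      (SimpleGraph.Adj.reachable ((hadj _ _).2 (Or.inr (hμ x).2)))) hμ h3 (by
    intro x y z hxy hxz hx hy hz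
    by_contra hcon
    push Not at hcon
    obtain ⟨n1, n2, n3⟩ := hcon
    have hle := hodd (G.connectedComponentMk x)
    have hsub : ∀ u, G.connectedComponentMk x = G.connectedComponentMk u →
        (F.connectedComponentMk u).supp ⊆ (G.connectedComponentMk x).supp := by
      intro u hu v hv
      rw [SimpleGraph.ConnectedComponent.mem_supp_iff] at hv ⊢
      rw [hu]
      exact SimpleGraph.ConnectedComponent.sound
        ((SimpleGraph.ConnectedComponent.exact hv).mono hFG)
    have hmem : ∀ u, G.connectedComponentMk x = G.connectedComponentMk u →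
        (Odd (Function.minimalPeriod σ u) ∧ 5 ≤ Function.minimalPeriod σ u) →
        F.connectedComponentMk u ∈ {C : F.ConnectedComponent |
          C.supp ⊆ (G.connectedComponentMk x).supp ∧ Odd C.supp.ncard ∧ 5 ≤ C.supp.ncard} := by
      intro u hu hlong
      refine ⟨hsub u hu, ?_⟩
      rw [hncard]
      exact hlong
    have hlt := (Set.two_lt_ncard_iff (s := {C : F.ConnectedComponent |
          C.supp ⊆ (G.connectedComponentMk x).supp ∧ Odd C.supp.ncard ∧ 5 ≤ C.supp.ncard})
          (Set.toFinite _)).2 ⟨_, _, _, hmem x rfl hx, hmem y hxy hy, hmem z hxz hz,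
            fun h => n1 ((hcompF x y).1 h), fun h => n3 ((hcompF x z).1 h),
            fun h => n2 ((hcompF y z).1 h)⟩
    omega)
  exact conclusion hc hadj (fun x => (hμ x).2)

end Pool.Agent.Helper827_ando
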